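import Mathlib

/-!
# Order operations (helper634)

Operations `f : ℝ ^ k → ℝ` which commute with all nondecreasing maps of the real line (`min`, `max`,
the median, every order statistic, every lattice polynomial).  A set of vectors closed under such an
operation, applied coordinatewise, which is not a projection, is closed under `min`, or under `max`, or
under the median of three vectors.
-/

set_option autoImplicit false

namespace Pool.Agent.Helper634ord

/-- `f` commutes with all nondecreasing maps of the real line. -/
def OrderOperation {k : ℕ} (f : (Fin k → ℝ) → ℝ) : Prop :=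
  ∀ h : ℝ → ℝ, Monotone h → ∀ v : Fin k → ℝ, f (fun j => h (v j)) = h (f v)

/-- `f` is one of the coordinate projections. -/
def IsProjection {k : ℕ} (f : (Fin k → ℝ) → ℝ) : Prop := ∃ j, ∀ v, f v = v j

/-- The set `P` of vectors is closed under `f`, applied coordinatewise. -/
def ClosedUnder {ι : Type*} {k : ℕ} (P : Set (ι → ℝ)) (f : (Fin k → ℝ) → ℝ) : Prop :=
  ∀ c : Fin k → ι → ℝ, (∀ j, c j ∈ P) → (fun i => f (fun j => c j i)) ∈ P

/-- the median of three real numbers -/
noncomputable def med (a b c : ℝ) : ℝ := max (max (min a b) (min a c)) (min b c)

variable {k : ℕ} {f : (Fin k → ℝ) → ℝ}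

open Classical in
/-- the Boolean form of an order operation -/
noncomputable def phi (f : (Fin k → ℝ) → ℝ) (S : Fin k → Bool) : Bool :=
  decide (1 ≤ f (fun j => if S j = true then 1 else 0))

theorem phi_spec (hf : OrderOperation f) (v : Fin k → ℝ) (t : ℝ) :
    phi f (fun j => decide (t ≤ v j)) = decide (t ≤ f v) := by
  classical
  have hm : Monotone (fun s : ℝ => if t ≤ s then (1 : ℝ) else 0) := by
    intro a b hab
    by_cases ha : t ≤ a
    · have hb : t ≤ b := ha.trans hab
      simp [ha, hb]
    · by_cases hb : t ≤ b <;> simp [ha, hb]
  have h := hf _ hm v
  unfold phi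
  have h2 : (fun j => if decide (t ≤ v j) = true then (1 : ℝ) else 0) =
      (fun j => if t ≤ v j then (1 : ℝ) else 0) := by
    funext j; simp
  rw [h2]
  simp only [h]
  by_cases h3 : t ≤ f v
  · simp [h3]
  · simp [h3]

theorem const_eq (hf : OrderOperation f) (c : ℝ) : f (fun _ => c) = c :=
  hf (fun _ => c) monotone_const (fun _ => 0)

theorem phi_true (hf : OrderOperation f) : phi f (fun _ => true) = true := by
  have h := phi_spec hf (fun _ => 1) 0
  rw [const_eq hf] at h
  simpa using h

theorem phi_false (hf : OrderOperation f) : phi f (fun _ => false) = false := by
  have h := phi_spec hf (fun _ => 0) 1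
  rw [const_eq hf] at h
  have h2 : decide ((1 : ℝ) ≤ 0) = false := by simp
  rw [h2] at h
  exact h

theorem phi_mono (hf : OrderOperation f) {S T : Fin k → Bool} (h : ∀ j, S j = true → T j = true)
    (hS : phi f S = true) : phi f T = true := by
  have h1 := phi_spec hf (fun j => (if S j = true then 1 else 0) + (if T j = true then 1 else 0)) 1
  have h2 := phi_spec hf (fun j => (if S j = true then 1 else 0) + (if T j = true then 1 else 0)) 2
  have e1 : (fun j => decide ((1 : ℝ) ≤ (if S j = true then 1 else 0) +
      (if T j = true then 1 else 0))) = T := by
    funext j
    have hj := h j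
    cases hs : S j <;> cases ht : T j <;> simp [hs, ht] at hj ⊢
  have e2 : (fun j => decide ((2 : ℝ) ≤ (if S j = true then 1 else 0) +
      (if T j = true then 1 else 0))) = S := by
    funext j
    have hj := h j
    cases hs : S j <;> cases ht : T j <;> simp [hs, ht] at hj ⊢ <;> norm_num
  rw [e1] at h1
  rw [e2, hS] at h2
  rw [h1]
  have h3 := of_decide_eq_true h2.symm
  exact decide_eq_true (by linarith)

theorem not_proj (hf : OrderOperation f) (hp : ¬ IsProjection f) (j : Fin k) :
    ∃ S, phi f S ≠ S j := by
  by_contra hcon
  push Not at hcon
  apply hp
  refine ⟨j, fun v => ?_⟩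
  apply le_antisymm
  · have h := phi_spec hf v (f v)
    rw [hcon] at h
    simpa using h
  · have h := phi_spec hf v (v j)
    rw [hcon] at h
    simpa using h.symm

/-- the Boolean minors of a monotone function which is not a projection -/
theorem minors (hf : OrderOperation f) (hp : ¬ IsProjection f) :
    (∃ S, phi f S = true ∧ phi f (fun j => !S j) = true) ∨
    (∃ S, phi f S = false ∧ phi f (fun j => !S j) = false) ∨
    (∃ A B : Fin k → Bool, (∀ j, A j = false ∨ B j = false) ∧ phi f A = false ∧ phi f B = false ∧
      phi f (fun j => !(A j || B j)) = false ∧ phi f (fun j => A j || B j) = true ∧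
      phi f (fun j => !A j) = true ∧ phi f (fun j => !B j) = true) := by
  classical
  by_cases h1 : ∃ S, phi f S = phi f (fun j => !S j)
  · obtain ⟨S, hS⟩ := h1
    cases h : phi f S
    · right; left; exact ⟨S, h, by rw [← hS, h]⟩
    · left; exact ⟨S, h, by rw [← hS, h]⟩
  right; right
  have hsd : ∀ S, phi f (fun j => !S j) = !phi f S := by
    intro S
    have h2 : ¬ phi f S = phi f (fun j => !S j) := fun h3 => h1 ⟨S, h3⟩
    revert h2
    cases phi f (fun j => !S j) <;> cases phi f S <;> simp
  -- a minimal set on which `phi` is true
  obtain ⟨S, hS, hmin⟩ := Finset.exists_min_image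
    (Finset.univ.filter (fun S : Fin k → Bool => phi f S = true))
    (fun S => (Finset.univ.filter (fun j => S j = true)).card)
    ⟨fun _ => true, by simp [phi_true hf]⟩
  simp only [Finset.mem_filter, Finset.mem_univ, true_and] at hS hmin
  have hlt : ∀ T : Fin k → Bool, (∀ j, T j = true → S j = true) → (∃ j, S j = true ∧ T j = false) →
      phi f T = false := by
    intro T hT hj
    by_contra hcon
    have h2 := hmin T (by simpa using hcon)
    obtain ⟨j, hj1, hj2⟩ := hj
    have h3 : (Finset.univ.filter (fun j => T j = true)) ⊂
        (Finset.univ.filter (fun j => S j = true)) := by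
      rw [Finset.ssubset_iff_of_subset]
      · exact ⟨j, by simp [hj1], by simp [hj2]⟩
      · intro i hi
        simp only [Finset.mem_filter, Finset.mem_univ, true_and] at hi ⊢
        exact hT i hi
    have h4 := Finset.card_lt_card h3
    omega
  have hne : ∃ j, S j = true := by
    by_contra hcon
    push Not at hcon
    have : S = fun _ => false := by funext j; simpa using hcon j
    rw [this, phi_false hf] at hS
    simp at hS
  obtain ⟨j₀, hj₀⟩ := hne
  have hsec : ∃ j₁, j₁ ≠ j₀ ∧ S j₁ = true := by
    by_contra hcon
    push Not at hcon
    obtain ⟨T, hT⟩ := not_proj hf hp j₀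
    apply hT
    cases hTj : T j₀ with
    | true =>
      refine phi_mono hf ?_ hS
      intro j hj
      by_cases hjj : j = j₀
      · rw [hjj]; exact hTj
      · exact absurd hj (hcon j hjj)
    | false =>
      have h3 : phi f (fun j => !T j) = true := by
        refine phi_mono hf ?_ hS
        intro j hj
        by_cases hjj : j = j₀
        · rw [hjj]; simp [hTj]
        · exact absurd hj (hcon j hjj)
      rw [hsd] at h3
      simpa using h3
  obtain ⟨j₁, hj₁, hSj₁⟩ := hsec
  have hA : phi f (fun j => decide (j = j₀)) = false := by
    apply hlt
    · intro j hj
      have : j = j₀ := by simpa using hj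
      rw [this]; exact hj₀
    · exact ⟨j₁, hSj₁, by simp [hj₁]⟩
  have hB : phi f (fun j => S j && !decide (j = j₀)) = false := by
    apply hlt
    · intro j hj
      simp only [Bool.and_eq_true] at hj
      exact hj.1
    · exact ⟨j₀, hj₀, by simp⟩
  have hAB : (fun j => decide (j = j₀) || (S j && !decide (j = j₀))) = S := by
    funext j
    by_cases hj : j = j₀
    · rw [hj]; simp [hj₀]
    · simp [hj]
  refine ⟨fun j => decide (j = j₀), fun j => S j && !decide (j = j₀), ?_, hA, hB, ?_, ?_, ?_, ?_⟩
  · intro j
    by_cases hj : j = j₀
    · right; simp [hj]
    · left; simp [hj]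
  · rw [hsd (fun j => decide (j = j₀) || (S j && !decide (j = j₀))), hAB, hS]; rfl
  · rw [hAB]; exact hS
  · rw [hsd, hA]; rfl
  · rw [hsd (fun j => S j && !decide (j = j₀)), hB]; rfl

theorem eq_of_thresholds {a b : ℝ} (h : ∀ t, (t ≤ a ↔ t ≤ b)) : a = b :=
  le_antisymm ((h a).1 le_rfl) ((h b).2 le_rfl)

/-- **Closure properties.** -/
theorem closed_cases {ι : Type*} {P : Set (ι → ℝ)} (hf : OrderOperation f)
    (hp : ¬ IsProjection f) (hP : ClosedUnder P f) :
    (∀ x ∈ P, ∀ y ∈ P, (fun i => min (x i) (y i)) ∈ P) ∨
    (∀ x ∈ P, ∀ y ∈ P, (fun i => max (x i) (y i)) ∈ P) ∨
    (∀ x ∈ P, ∀ y ∈ P, ∀ z ∈ P, (fun i => med (x i) (y i) (z i)) ∈ P) := by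
  classical
  rcases minors hf hp with ⟨S, h1, h2⟩ | ⟨S, h1, h2⟩ | ⟨A, B, hAB, hA, hB, hC, hAB', hA', hB'⟩
  · right; left
    intro x hx y hy
    have h3 := hP (fun j => if S j = true then x else y) (by intro j; split_ifs <;> assumption)
    have h4 : (fun i => f (fun j => (if S j = true then x else y) i)) =
        (fun i => max (x i) (y i)) := by
      funext i
      apply eq_of_thresholds
      intro t
      have h5 := phi_spec hf (fun j => (if S j = true then x else y) i) t
      have h6 : (t ≤ f (fun j => (if S j = true then x else y) i)) ↔
          phi f (fun j => decide (t ≤ (if S j = true then x else y) i)) = true := by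
        rw [h5]; simp
      rw [h6]
      have h7 : (fun j => decide (t ≤ (if S j = true then x else y) i)) =
          (fun j => if S j = true then decide (t ≤ x i) else decide (t ≤ y i)) := by
        funext j; split_ifs <;> rfl
      rw [h7]
      by_cases hx' : t ≤ x i <;> by_cases hy' : t ≤ y i
      · have : (fun j => if S j = true then decide (t ≤ x i) else decide (t ≤ y i)) =
            fun _ => true := by funext j; simp [hx', hy']
        rw [this, phi_true hf]; simp [hx']
      · have : (fun j => if S j = true then decide (t ≤ x i) else decide (t ≤ y i)) = S := by
          funext j; cases hj : S j <;> simp [hx', hy']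
        rw [this, h1]; simp [hx']
      · have : (fun j => if S j = true then decide (t ≤ x i) else decide (t ≤ y i)) =
            fun j => !S j := by
          funext j; cases hj : S j <;> simp [hx', hy']
        rw [this, h2]; simp [hy']
      · have : (fun j => if S j = true then decide (t ≤ x i) else decide (t ≤ y i)) =
            fun _ => false := by funext j; simp [hx', hy']
        rw [this, phi_false hf]
        simp [hx', hy']
    rw [h4] at h3
    exact h3
  · left
    intro x hx y hy
    have h3 := hP (fun j => if S j = true then x else y) (by intro j; split_ifs <;> assumption)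
    have h4 : (fun i => f (fun j => (if S j = true then x else y) i)) =
        (fun i => min (x i) (y i)) := by
      funext i
      apply eq_of_thresholds
      intro t
      have h5 := phi_spec hf (fun j => (if S j = true then x else y) i) t
      have h6 : (t ≤ f (fun j => (if S j = true then x else y) i)) ↔
          phi f (fun j => decide (t ≤ (if S j = true then x else y) i)) = true := by
        rw [h5]; simp
      rw [h6]
      have h7 : (fun j => decide (t ≤ (if S j = true then x else y) i)) =
          (fun j => if S j = true then decide (t ≤ x i) else decide (t ≤ y i)) := by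
        funext j; split_ifs <;> rfl
      rw [h7]
      by_cases hx' : t ≤ x i <;> by_cases hy' : t ≤ y i
      · have : (fun j => if S j = true then decide (t ≤ x i) else decide (t ≤ y i)) =
            fun _ => true := by funext j; simp [hx', hy']
        rw [this, phi_true hf]; simp [hx', hy']
      · have : (fun j => if S j = true then decide (t ≤ x i) else decide (t ≤ y i)) = S := by
          funext j; cases hj : S j <;> simp [hx', hy']
        rw [this, h1]; simp [hy']
      · have : (fun j => if S j = true then decide (t ≤ x i) else decide (t ≤ y i)) =
            fun j => !S j := by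
          funext j; cases hj : S j <;> simp [hx', hy']
        rw [this, h2]; simp [hx']
      · have : (fun j => if S j = true then decide (t ≤ x i) else decide (t ≤ y i)) =
            fun _ => false := by funext j; simp [hx', hy']
        rw [this, phi_false hf]
        simp [hx', hy']
    rw [h4] at h3
    exact h3
  · right; right
    intro x hx y hy z hz
    have h3 := hP (fun j => if A j = true then x else if B j = true then y else z)
      (by intro j; split_ifs <;> assumption)
    have h4 : (fun i => f (fun j => (if A j = true then x else if B j = true then y else z) i)) =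
        (fun i => med (x i) (y i) (z i)) := by
      funext i
      apply eq_of_thresholds
      intro t
      have h5 := phi_spec hf (fun j => (if A j = true then x else if B j = true then y else z) i) t
      have h6 : (t ≤ f (fun j => (if A j = true then x else if B j = true then y else z) i)) ↔
          phi f (fun j => decide (t ≤ (if A j = true then x else if B j = true then y else z) i)) =
            true := by
        rw [h5]; simp
      rw [h6]
      have h7 : (fun j => decide (t ≤ (if A j = true then x else if B j = true then y else z) i)) =
          (fun j => if A j = true then decide (t ≤ x i) else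
            if B j = true then decide (t ≤ y i) else decide (t ≤ z i)) := by
        funext j; split_ifs <;> rfl
      rw [h7]
      unfold med
      by_cases hx' : t ≤ x i <;> by_cases hy' : t ≤ y i <;> by_cases hz' : t ≤ z i
      · have : (fun j => if A j = true then decide (t ≤ x i) else
            if B j = true then decide (t ≤ y i) else decide (t ≤ z i)) = fun _ => true := by
          funext j; simp [hx', hy', hz']
        rw [this, phi_true hf]; simp [hx', hy', hz']
      · have : (fun j => if A j = true then decide (t ≤ x i) else
            if B j = true then decide (t ≤ y i) else decide (t ≤ z i)) = fun j => A j || B j := by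
          funext j; cases A j <;> cases B j <;> simp [hx', hy', hz']
        rw [this, hAB']; simp [hx', hy', hz']
      · have : (fun j => if A j = true then decide (t ≤ x i) else
            if B j = true then decide (t ≤ y i) else decide (t ≤ z i)) = fun j => !B j := by
          funext j
          rcases hAB j with h | h
          · cases hb : B j <;> simp [hx', hy', hz', h]
          · cases ha : A j <;> simp [hx', hy', hz', h]
        rw [this, hB']; simp [hx', hy', hz']
      · have : (fun j => if A j = true then decide (t ≤ x i) else
            if B j = true then decide (t ≤ y i) else decide (t ≤ z i)) = A := by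
          funext j; cases ha : A j <;> cases hb : B j <;> simp [hx', hy', hz']
        rw [this, hA]; simp [hx', hy', hz']
      · have : (fun j => if A j = true then decide (t ≤ x i) else
            if B j = true then decide (t ≤ y i) else decide (t ≤ z i)) = fun j => !A j := by
          funext j; cases ha : A j <;> cases hb : B j <;> simp [hx', hy', hz']
        rw [this, hA']; simp [hx', hy', hz']
      · have : (fun j => if A j = true then decide (t ≤ x i) else
            if B j = true then decide (t ≤ y i) else decide (t ≤ z i)) = B := by
          funext j
          rcases hAB j with h | h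
          · cases hb : B j <;> simp [hx', hy', hz', h]
          · cases ha : A j <;> simp [hx', hy', hz', h]
        rw [this, hB]; simp [hx', hy', hz']
      · have : (fun j => if A j = true then decide (t ≤ x i) else
            if B j = true then decide (t ≤ y i) else decide (t ≤ z i)) =
              fun j => !(A j || B j) := by
          funext j; cases ha : A j <;> cases hb : B j <;> simp [hx', hy', hz']
        rw [this, hC]; simp [hx', hy', hz']
      · have : (fun j => if A j = true then decide (t ≤ x i) else
            if B j = true then decide (t ≤ y i) else decide (t ≤ z i)) = fun _ => false := by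
          funext j; simp [hx', hy', hz']
        rw [this, phi_false hf]; simp [hx', hy', hz']
    rw [h4] at h3
    exact h3

/-- the value of an order operation is one of its arguments -/
theorem mem_range (hf : OrderOperation f) (v : Fin k → ℝ) : ∃ j, f v = v j := by
  by_contra hcon
  push Not at hcon
  set s := f v with hs
  have hm1 : Monotone (fun t : ℝ => if s ≤ t then t + 1 else t) := by
    intro a b hab
    dsimp only
    split_ifs with h1 h2 <;> linarith
  have hm2 : Monotone (fun t : ℝ => if s < t then t + 1 else t) := by
    intro a b hab
    dsimp only
    split_ifs with h1 h2 <;> linarith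
  have e1 := hf _ hm1 v
  have e2 := hf _ hm2 v
  have e3 : (fun j => if s ≤ v j then v j + 1 else v j) = (fun j => if s < v j then v j + 1 else v j) := by
    funext j
    have hj := hcon j
    by_cases h : s < v j
    · rw [if_pos h, if_pos h.le]
    · rw [if_neg h, if_neg (fun h' => h (lt_of_le_of_ne h' hj))]
  have e4 : (if s ≤ s then s + 1 else s) = (if s < s then s + 1 else s) := by
    rw [← hs] at e1 e2
    rw [← e1, ← e2]
    exact congrArg f e3
  simp at e4

end Pool.Agent.Helper634ord
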