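import Mathlib
import Pool.Agent.Helper634ord.OrdOp

/-!
# Separated sets closed under an order operation: the number of points in a box (helper634)
-/

set_option autoImplicit false

namespace Pool.Agent.Helper634ord

open Finset

theorem prod_ineq {ι : Type*} (D : Finset ι) (p q h : ι → ℝ) (hp : ∀ i, 0 ≤ p i)
    (hq : ∀ i, 0 ≤ q i) (hh : ∀ i, 0 ≤ h i) :
    ∏ i ∈ D, (1 + p i) + ∏ i ∈ D, (1 + q i) - 1 + ∑ i ∈ D, h i ≤
      ∏ i ∈ D, (1 + (p i + q i + h i)) := by
  classical
  induction D using Finset.induction_on with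
  | empty => simp
  | insert j D hj ih =>
    rw [prod_insert hj, prod_insert hj, prod_insert hj, sum_insert hj]
    set P := ∏ i ∈ D, (1 + p i)
    set Q := ∏ i ∈ D, (1 + q i)
    set H := ∑ i ∈ D, h i
    set X := ∏ i ∈ D, (1 + (p i + q i + h i))
    have hP : 1 ≤ P := by
      have := Finset.prod_le_prod (s := D) (f := fun _ => (1 : ℝ)) (g := fun i => 1 + p i)
        (fun i _ => by norm_num) (fun i _ => by linarith [hp i])
      simpa using this
    have hQ : 1 ≤ Q := by
      have := Finset.prod_le_prod (s := D) (f := fun _ => (1 : ℝ)) (g := fun i => 1 + q i)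
        (fun i _ => by norm_num) (fun i _ => by linarith [hq i])
      simpa using this
    have hH : 0 ≤ H := Finset.sum_nonneg (fun i _ => hh i)
    have h1 := hp j
    have h2 := hq j
    have h3 := hh j
    have h4 : (1 + (p j + q j + h j)) * (P + Q - 1 + H) ≤ (1 + (p j + q j + h j)) * X :=
      mul_le_mul_of_nonneg_left ih (by linarith)
    have h5 : 0 ≤ p j * (Q - 1 + H) := mul_nonneg h1 (by linarith)
    have h6 : 0 ≤ q j * (P - 1 + H) := mul_nonneg h2 (by linarith)
    have h7 : 0 ≤ h j * (P + Q - 2 + H) := mul_nonneg h3 (by linarith)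
    nlinarith

variable {d : ℕ}

/-- the square of the Euclidean distance -/
def Sq (x y : Fin d → ℝ) : ℝ := ∑ i, (x i - y i) ^ 2

/-- closed under minima, or under maxima, or under medians -/
def LC (P : Finset (Fin d → ℝ)) : Prop :=
  (∀ x ∈ P, ∀ y ∈ P, (fun i => min (x i) (y i)) ∈ P) ∨
  (∀ x ∈ P, ∀ y ∈ P, (fun i => max (x i) (y i)) ∈ P) ∨
  (∀ x ∈ P, ∀ y ∈ P, ∀ z ∈ P, (fun i => med (x i) (y i) (z i)) ∈ P)

theorem med_mem (a b c : ℝ) : med a b c = a ∨ med a b c = b ∨ med a b c = c := by
  unfold med
  rcases le_total a b with h1 | h1 <;> rcases le_total a c with h2 | h2 <;>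
    rcases le_total b c with h3 | h3 <;> simp [h1, h2, h3]

theorem rmin (a b c : ℝ) : |min c a - min c b| ≤ |a - b| := by
  rcases le_total c a with h1 | h1 <;> rcases le_total c b with h2 | h2 <;>
    simp only [min_eq_left, min_eq_right, h1, h2, sub_self, abs_zero, abs_nonneg, le_refl] <;>
    rw [abs_le] <;> cases abs_cases (a - b) <;> constructor <;> linarith

theorem rmax (a b c : ℝ) : |max c a - max c b| ≤ |a - b| := by
  rcases le_total c a with h1 | h1 <;> rcases le_total c b with h2 | h2 <;>
    simp only [max_eq_left, max_eq_right, h1, h2, sub_self, abs_zero, abs_nonneg, le_refl] <;>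
    rw [abs_le] <;> cases abs_cases (a - b) <;> constructor <;> linarith

theorem rmin_eq {a b c : ℝ} (hab : a ≠ b) (h : min c a = min c b) : c ≤ a ∧ c ≤ b := by
  rcases le_total c a with h1 | h1 <;> rcases le_total c b with h2 | h2
  · exact ⟨h1, h2⟩
  · rw [min_eq_left h1, min_eq_right h2] at h; exact ⟨h1, h.le⟩
  · rw [min_eq_right h1, min_eq_left h2] at h; exact ⟨h.ge, h2⟩
  · rw [min_eq_right h1, min_eq_right h2] at h; exact absurd h hab

theorem rmin_full {a b c : ℝ} (h : |min c a - min c b| = |a - b|) (hab : a ≠ b) :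
    a ≤ c ∧ b ≤ c := by
  rcases le_total c a with h1 | h1 <;> rcases le_total c b with h2 | h2
  · rw [min_eq_left h1, min_eq_left h2, sub_self, abs_zero] at h
    exact absurd (sub_eq_zero.1 (abs_eq_zero.1 h.symm)) hab
  · rw [min_eq_left h1, min_eq_right h2, abs_of_nonneg (by linarith), abs_of_nonneg (by linarith)] at h
    exact ⟨by linarith, h2⟩
  · rw [min_eq_right h1, min_eq_left h2, abs_of_nonpos (by linarith), abs_of_nonpos (by linarith)] at h
    exact ⟨h1, by linarith⟩
  · exact ⟨h1, h2⟩

theorem rmax_eq {a b c : ℝ} (hab : a ≠ b) (h : max c a = max c b) : a ≤ c ∧ b ≤ c := by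
  rcases le_total c a with h1 | h1 <;> rcases le_total c b with h2 | h2
  · rw [max_eq_right h1, max_eq_right h2] at h; exact absurd h hab
  · rw [max_eq_right h1, max_eq_left h2] at h; exact ⟨h.le, h2⟩
  · rw [max_eq_left h1, max_eq_right h2] at h; exact ⟨h1, h.ge⟩
  · exact ⟨h1, h2⟩

theorem rmax_full {a b c : ℝ} (h : |max c a - max c b| = |a - b|) (hab : a ≠ b) :
    c ≤ a ∧ c ≤ b := by
  rcases le_total c a with h1 | h1 <;> rcases le_total c b with h2 | h2
  · exact ⟨h1, h2⟩
  · rw [max_eq_right h1, max_eq_left h2, abs_of_nonneg (by linarith), abs_of_nonneg (by linarith)] at h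
    exact ⟨h1, by linarith⟩
  · rw [max_eq_left h1, max_eq_right h2, abs_of_nonpos (by linarith), abs_of_nonpos (by linarith)] at h
    exact ⟨by linarith, h2⟩
  · rw [max_eq_left h1, max_eq_left h2, sub_self, abs_zero] at h
    exact absurd (sub_eq_zero.1 (abs_eq_zero.1 h.symm)) hab

theorem rmed_le (a b c : ℝ) : |med c a b - a| ≤ |a - b| := by
  unfold med
  rcases le_total c a with h1 | h1 <;> rcases le_total c b with h2 | h2 <;>
    rcases le_total a b with h3 | h3 <;>
    simp only [min_eq_left, min_eq_right, h1, h2, h3] <;>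
    simp only [max_eq_left, max_eq_right, h1, h2, h3, max_self, sub_self, abs_zero, abs_nonneg] <;>
    rw [abs_le] <;> cases abs_cases (a - b) <;> constructor <;> linarith

theorem rmed_eq {a b c : ℝ} (hab : a ≠ b) (h : med c a b = a) : (c - a) * (b - a) ≤ 0 := by
  unfold med at h
  by_contra hcon
  push Not at hcon
  rcases lt_or_gt_of_ne hab with h3 | h3
  · have hc : a < c := by
      by_contra h4; push Not at h4; nlinarith
    rw [min_eq_right hc.le, min_eq_left h3.le] at h
    have h5 := le_max_right a (min c b)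
    have h6 : a < min c b := lt_min hc h3
    have h7 := le_max_left (max a (min c b)) a
    linarith
  · have hc : c < a := by
      by_contra h4; push Not at h4; nlinarith
    rw [min_eq_left hc.le, min_eq_right h3.le] at h
    have h5 : max (max c (min c b)) b < a := max_lt (max_lt hc ((min_le_left _ _).trans_lt hc)) h3
    linarith

theorem rmed_full {a b c : ℝ} (hab : a ≠ b) (h : |med c a b - a| = |a - b|) :
    (c - b) * (a - b) ≤ 0 := by
  by_contra hcon
  push Not at hcon
  unfold med at h
  rcases lt_or_gt_of_ne hab with h3 | h3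
  · have hc : c < b := by
      by_contra h4; push Not at h4; nlinarith
    rw [min_eq_left hc.le, min_eq_left h3.le] at h
    have h5 : max (max (min c a) c) a < b :=
      max_lt (max_lt ((min_le_left _ _).trans_lt hc) hc) h3
    have h6 := le_max_right (max (min c a) c) a
    rw [abs_of_nonneg (by linarith), abs_of_neg (by linarith)] at h
    linarith
  · have hc : b < c := by
      by_contra h4; push Not at h4; nlinarith
    rw [min_eq_right hc.le, min_eq_right h3.le] at h
    have h5 : b < min c a := lt_min hc h3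
    have h6 : min c a ≤ max (max (min c a) b) b := (le_max_left _ _).trans (le_max_left _ _)
    have h7 : max (max (min c a) b) b ≤ a :=
      max_le (max_le (min_le_right _ _) h3.le) h3.le
    rw [abs_of_nonpos (by linarith), abs_of_pos (by linarith)] at h
    linarith

/-- Two points at the smallest distance split the set. -/
theorem split {P : Finset (Fin d → ℝ)} (hP : LC P) {a b : Fin d → ℝ} (ha : a ∈ P) (hb : b ∈ P)
    (hne : a ≠ b) (hmin : ∀ x ∈ P, ∀ y ∈ P, x ≠ y → Sq a b ≤ Sq x y) {c : Fin d → ℝ} (hc : c ∈ P) :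
    (∀ i, a i ≠ b i → (c i - a i) * (b i - a i) ≤ 0) ∨
      (∀ i, a i ≠ b i → (c i - b i) * (a i - b i) ≤ 0) := by
  have key : ∀ x ∈ P, ∀ y ∈ P, (∀ i, |x i - y i| ≤ |a i - b i|) →
      (∀ i, x i = y i) ∨ (∀ i, |x i - y i| = |a i - b i|) := by
    intro x hx y hy h
    by_cases hxy : x = y
    · left; intro i; rw [hxy]
    · right
      have h1 := hmin x hx y hy hxy
      have h2 : ∀ i ∈ (Finset.univ : Finset (Fin d)), (x i - y i) ^ 2 ≤ (a i - b i) ^ 2 :=
        fun i _ => sq_le_sq.2 (h i)
      have h3 : Sq x y = Sq a b := le_antisymm (Finset.sum_le_sum h2) h1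
      have h4 := (Finset.sum_eq_sum_iff_of_le h2).1 h3
      intro i
      exact (sq_eq_sq_iff_abs_eq_abs _ _).1 (h4 i (Finset.mem_univ i))
  obtain ⟨i₀, hi₀⟩ := Function.ne_iff.1 hne
  rcases hP with h | h | h
  · have h1 : ∀ c ∈ P, (∀ i, a i ≠ b i → c i ≤ a i ∧ c i ≤ b i) ∨
        (∀ i, a i ≠ b i → a i ≤ c i ∧ b i ≤ c i) := by
      intro c hc
      rcases key _ (h c hc a ha) _ (h c hc b hb) (fun i => rmin (a i) (b i) (c i)) with h2 | h2
      · left; intro i hi; exact rmin_eq hi (h2 i)
      · right; intro i hi; exact rmin_full (h2 i) hi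
    rcases h1 a ha with h3 | h3 <;> rcases h1 c hc with h2 | h2
    · left; intro i hi
      exact mul_nonpos_of_nonpos_of_nonneg (by linarith [(h2 i hi).1]) (by linarith [(h3 i hi).2])
    · right; intro i hi
      exact mul_nonpos_of_nonneg_of_nonpos (by linarith [(h2 i hi).2]) (by linarith [(h3 i hi).2])
    · right; intro i hi
      exact mul_nonpos_of_nonpos_of_nonneg (by linarith [(h2 i hi).2]) (by linarith [(h3 i hi).2])
    · left; intro i hi
      exact mul_nonpos_of_nonneg_of_nonpos (by linarith [(h2 i hi).1]) (by linarith [(h3 i hi).2])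
  · have h1 : ∀ c ∈ P, (∀ i, a i ≠ b i → c i ≤ a i ∧ c i ≤ b i) ∨
        (∀ i, a i ≠ b i → a i ≤ c i ∧ b i ≤ c i) := by
      intro c hc
      rcases key _ (h c hc a ha) _ (h c hc b hb) (fun i => rmax (a i) (b i) (c i)) with h2 | h2
      · right; intro i hi; exact rmax_eq hi (h2 i)
      · left; intro i hi; exact rmax_full (h2 i) hi
    rcases h1 a ha with h3 | h3 <;> rcases h1 c hc with h2 | h2
    · left; intro i hi
      exact mul_nonpos_of_nonpos_of_nonneg (by linarith [(h2 i hi).1]) (by linarith [(h3 i hi).2])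
    · right; intro i hi
      exact mul_nonpos_of_nonneg_of_nonpos (by linarith [(h2 i hi).2]) (by linarith [(h3 i hi).2])
    · right; intro i hi
      exact mul_nonpos_of_nonpos_of_nonneg (by linarith [(h2 i hi).2]) (by linarith [(h3 i hi).2])
    · left; intro i hi
      exact mul_nonpos_of_nonneg_of_nonpos (by linarith [(h2 i hi).1]) (by linarith [(h3 i hi).2])
  · rcases key _ (h c hc a ha b hb) a ha (fun i => rmed_le (a i) (b i) (c i)) with h2 | h2
    · left; intro i hi; exact rmed_eq hi (h2 i)
    · right; intro i hi; exact rmed_full hi (h2 i)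

/-- the property passes to parts defined by conditions on single coordinates -/
theorem lc_filter {P : Finset (Fin d → ℝ)} (hP : LC P) (Q : Fin d → ℝ → Prop)
    [DecidablePred (fun c : Fin d → ℝ => ∀ i, Q i (c i))] :
    LC (P.filter (fun c => ∀ i, Q i (c i))) := by
  rcases hP with h | h | h
  · left
    intro x hx y hy
    rw [mem_filter] at hx hy ⊢
    refine ⟨h x hx.1 y hy.1, fun i => ?_⟩
    show Q i (min (x i) (y i))
    rcases min_choice (x i) (y i) with h1 | h1 <;> rw [h1]
    · exact hx.2 i
    · exact hy.2 i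
  · right; left
    intro x hx y hy
    rw [mem_filter] at hx hy ⊢
    refine ⟨h x hx.1 y hy.1, fun i => ?_⟩
    show Q i (max (x i) (y i))
    rcases max_choice (x i) (y i) with h1 | h1 <;> rw [h1]
    · exact hx.2 i
    · exact hy.2 i
  · right; right
    intro x hx y hy z hz
    rw [mem_filter] at hx hy hz ⊢
    refine ⟨h x hx.1 y hy.1 z hz.1, fun i => ?_⟩
    show Q i (med (x i) (y i) (z i))
    rcases med_mem (x i) (y i) (z i) with h1 | h1 | h1 <;> rw [h1]
    · exact hx.2 i
    · exact hy.2 i
    · exact hz.2 i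

/-- **The number of points in a box.** -/
theorem count {s : ℝ} (hs : 0 < s) : ∀ (N : ℕ) (P : Finset (Fin d → ℝ)) (lo hi : Fin d → ℝ),
    P.card ≤ N → P.Nonempty → LC P → (∀ x ∈ P, ∀ y ∈ P, x ≠ y → s ^ 2 ≤ Sq x y) →
    (∀ x ∈ P, ∀ i, lo i ≤ x i ∧ x i ≤ hi i) →
    (P.card : ℝ) ≤ ∏ i, (1 + (hi i - lo i) / s) := by
  classical
  intro N
  induction N with
  | zero =>
    intro P lo hi hN hne
    exact absurd (Finset.card_pos.2 hne) (by omega)
  | succ N ih =>
    intro P lo hi hN hne hP hsep hbox
    have hlohi : ∀ i, lo i ≤ hi i := by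
      obtain ⟨x, hx⟩ := hne
      intro i
      exact (hbox x hx i).1.trans (hbox x hx i).2
    have hone : ∀ i, 1 ≤ 1 + (hi i - lo i) / s := by
      intro i
      have := div_nonneg (sub_nonneg.2 (hlohi i)) hs.le
      linarith
    rcases Nat.lt_or_ge P.card 2 with hlt | hge
    · have h1 : P.card = 1 := by have := Finset.card_pos.2 hne; omega
      rw [h1]
      have := Finset.prod_le_prod (s := Finset.univ) (f := fun _ : Fin d => (1 : ℝ))
        (g := fun i => 1 + (hi i - lo i) / s) (fun i _ => by norm_num) (fun i _ => hone i)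
      simpa using this
    have hoff : P.offDiag.Nonempty := by
      obtain ⟨x, hx, y, hy, hxy⟩ := Finset.one_lt_card.1 (show 1 < P.card by omega)
      exact ⟨(x, y), by simp [hx, hy, hxy]⟩
    obtain ⟨⟨a, b⟩, hab, hmin⟩ := Finset.exists_min_image P.offDiag (fun p => Sq p.1 p.2) hoff
    simp only [mem_offDiag] at hab
    obtain ⟨ha, hb, hne'⟩ := hab
    have hmin' : ∀ x ∈ P, ∀ y ∈ P, x ≠ y → Sq a b ≤ Sq x y :=
      fun x hx y hy hxy => hmin (x, y) (by simp [hx, hy, hxy])
    obtain ⟨i₀, hi₀⟩ := Function.ne_iff.1 hne'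
    -- one part
    have part : ∀ u v : Fin d → ℝ, u ∈ P → v ∈ P → u i₀ ≠ v i₀ →
        ((P.filter (fun c => ∀ i, (u i ≠ v i → (c i - u i) * (v i - u i) ≤ 0))).card : ℝ) ≤
          ∏ i, (1 + ((if u i < v i then u i else hi i) - (if v i < u i then u i else lo i)) / s) := by
      intro u v hu hv huv
      apply ih
      · have h1 : P.filter (fun c => ∀ i, (u i ≠ v i → (c i - u i) * (v i - u i) ≤ 0)) ⊂ P := by
          refine (Finset.ssubset_iff_of_subset (Finset.filter_subset _ _)).2 ⟨v, hv, ?_⟩
          rw [mem_filter]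
          rintro ⟨-, h2⟩
          have h3 := h2 i₀ huv
          have h4 : 0 < (v i₀ - u i₀) * (v i₀ - u i₀) :=
            mul_self_pos.2 (sub_ne_zero.2 huv.symm)
          linarith
        have := Finset.card_lt_card h1
        omega
      · refine ⟨u, ?_⟩
        rw [mem_filter]
        exact ⟨hu, fun i _ => by simp⟩
      · exact lc_filter hP (fun i t => u i ≠ v i → (t - u i) * (v i - u i) ≤ 0)
      · intro x hx y hy hxy
        exact hsep x (mem_filter.1 hx).1 y (mem_filter.1 hy).1 hxy
      · intro x hx i
        rw [mem_filter] at hx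
        have h1 := hbox x hx.1 i
        have h2 := hx.2 i
        constructor
        · split_ifs with h3
          · have h4 := h2 (ne_of_gt h3)
            by_contra h5
            push Not at h5
            nlinarith
          · exact h1.1
        · split_ifs with h3
          · have h4 := h2 (ne_of_lt h3)
            by_contra h5
            push Not at h5
            nlinarith
          · exact h1.2
    have hA := part a b ha hb hi₀
    have hB := part b a hb ha hi₀.symm
    have hcov : P ⊆ P.filter (fun c => ∀ i, (a i ≠ b i → (c i - a i) * (b i - a i) ≤ 0)) ∪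
        P.filter (fun c => ∀ i, (b i ≠ a i → (c i - b i) * (a i - b i) ≤ 0)) := by
      intro c hc
      rw [mem_union, mem_filter, mem_filter]
      rcases split hP ha hb hne' hmin' hc with h | h
      · left; exact ⟨hc, h⟩
      · right; exact ⟨hc, fun i hi => h i hi.symm⟩
    have hcard : (P.card : ℝ) ≤
        (P.filter (fun c => ∀ i, (a i ≠ b i → (c i - a i) * (b i - a i) ≤ 0))).card +
        (P.filter (fun c => ∀ i, (b i ≠ a i → (c i - b i) * (a i - b i) ≤ 0))).card := by
      exact_mod_cast (Finset.card_le_card hcov).trans (Finset.card_union_le _ _)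
    refine hcard.trans ((add_le_add hA hB).trans ?_)
    -- the inequality between the products
    set D := Finset.univ.filter (fun i => a i ≠ b i) with hD
    set p : Fin d → ℝ := fun i => (if a i < b i then a i - lo i else hi i - a i) / s with hp
    set q : Fin d → ℝ := fun i => (if a i < b i then hi i - b i else b i - lo i) / s with hq
    have hp0 : ∀ i, 0 ≤ p i := by
      intro i
      apply div_nonneg _ hs.le
      have := hbox a ha i
      split_ifs <;> linarith
    have hq0 : ∀ i, 0 ≤ q i := by
      intro i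
      apply div_nonneg _ hs.le
      have := hbox b hb i
      split_ifs <;> linarith
    have hg0 : ∀ i, 0 ≤ |a i - b i| / s := fun i => div_nonneg (abs_nonneg _) hs.le
    have hsum : 1 ≤ ∑ i ∈ D, |a i - b i| / s := by
      rw [← Finset.sum_div, le_div_iff₀ hs, one_mul]
      have h1 : s ^ 2 ≤ (∑ i ∈ D, |a i - b i|) ^ 2 := by
        calc s ^ 2 ≤ Sq a b := hsep a ha b hb hne'
          _ = ∑ i ∈ D, |a i - b i| ^ 2 := by
              unfold Sq
              rw [← Finset.sum_filter_add_sum_filter_not Finset.univ (fun i => a i ≠ b i)]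
              have h2 : ∑ i ∈ Finset.univ.filter (fun i => ¬ a i ≠ b i), (a i - b i) ^ 2 = 0 := by
                apply Finset.sum_eq_zero
                intro i hi
                rw [mem_filter] at hi
                have : a i = b i := not_not.1 hi.2
                rw [this]; simp
              rw [h2, add_zero]
              apply Finset.sum_congr rfl
              intro i _
              rw [sq_abs]
          _ ≤ (∑ i ∈ D, |a i - b i|) ^ 2 :=
              Finset.sum_sq_le_sq_sum_of_nonneg (fun i _ => abs_nonneg _)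
      exact le_of_sq_le_sq h1 (Finset.sum_nonneg (fun i _ => abs_nonneg _))
    have hmain := prod_ineq D p q (fun i => |a i - b i| / s) hp0 hq0 hg0
    have split_prod : ∀ g : Fin d → ℝ, ∏ i, g i =
        (∏ i ∈ D, g i) * ∏ i ∈ Finset.univ.filter (fun i => ¬ a i ≠ b i), g i := fun g =>
      (Finset.prod_filter_mul_prod_filter_not Finset.univ (fun i => a i ≠ b i) g).symm
    rw [split_prod (fun i => 1 + (hi i - lo i) / s), split_prod (fun i => 1 + ((if a i < b i then
      a i else hi i) - (if b i < a i then a i else lo i)) / s), split_prod (fun i => 1 + ((if b i < a i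
      then b i else hi i) - (if a i < b i then b i else lo i)) / s)]
    have e1 : ∏ i ∈ D, (1 + ((if a i < b i then a i else hi i) -
        (if b i < a i then a i else lo i)) / s) = ∏ i ∈ D, (1 + p i) := by
      apply Finset.prod_congr rfl
      intro i hi
      have hi' : a i ≠ b i := (mem_filter.1 hi).2
      rcases lt_or_gt_of_ne hi' with h | h
      · simp only [hp, if_pos h, if_neg (not_lt.2 h.le)]
      · simp only [hp, if_pos h, if_neg (not_lt.2 h.le)]
    have e2 : ∏ i ∈ D, (1 + ((if b i < a i then b i else hi i) -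
        (if a i < b i then b i else lo i)) / s) = ∏ i ∈ D, (1 + q i) := by
      apply Finset.prod_congr rfl
      intro i hi
      have hi' : a i ≠ b i := (mem_filter.1 hi).2
      rcases lt_or_gt_of_ne hi' with h | h
      · simp only [hq, if_pos h, if_neg (not_lt.2 h.le)]
      · simp only [hq, if_pos h, if_neg (not_lt.2 h.le)]
    have e3 : ∏ i ∈ D, (1 + (hi i - lo i) / s) =
        ∏ i ∈ D, (1 + (p i + q i + |a i - b i| / s)) := by
      apply Finset.prod_congr rfl
      intro i hi
      have hi' : a i ≠ b i := (mem_filter.1 hi).2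
      congr 1
      rw [hp, hq]
      dsimp only
      rw [← add_div, ← add_div]
      congr 1
      rcases lt_or_gt_of_ne hi' with h | h
      · rw [if_pos h, if_pos h, abs_of_neg (by linarith)]; ring
      · rw [if_neg (not_lt.2 h.le), if_neg (not_lt.2 h.le), abs_of_pos (by linarith)]; ring
    have e4 : ∏ i ∈ Finset.univ.filter (fun i => ¬ a i ≠ b i), (1 + ((if a i < b i then
        a i else hi i) - (if b i < a i then a i else lo i)) / s) =
        ∏ i ∈ Finset.univ.filter (fun i => ¬ a i ≠ b i), (1 + (hi i - lo i) / s) := by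
      apply Finset.prod_congr rfl
      intro i hi
      have hi' : a i = b i := not_not.1 (mem_filter.1 hi).2
      rw [if_neg (by rw [hi']; exact lt_irrefl _), if_neg (by rw [hi']; exact lt_irrefl _)]
    have e5 : ∏ i ∈ Finset.univ.filter (fun i => ¬ a i ≠ b i), (1 + ((if b i < a i then
        b i else hi i) - (if a i < b i then b i else lo i)) / s) =
        ∏ i ∈ Finset.univ.filter (fun i => ¬ a i ≠ b i), (1 + (hi i - lo i) / s) := by
      apply Finset.prod_congr rfl
      intro i hi
      have hi' : a i = b i := not_not.1 (mem_filter.1 hi).2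
      rw [if_neg (by rw [hi']; exact lt_irrefl _), if_neg (by rw [hi']; exact lt_irrefl _)]
    rw [e1, e2, e3, e4, e5, ← add_mul]
    apply mul_le_mul_of_nonneg_right
    · linarith
    · apply Finset.prod_nonneg
      intro i _
      linarith [hone i]

end Pool.Agent.Helper634ord
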