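import Mathlib
import Pool.Agent.Helper634ord.Count

/-!
# Separated sets closed under an order operation: balls (helper634)
-/

set_option autoImplicit false

namespace Pool.Agent.Helper634ord

open MeasureTheory Metric

variable {d : ℕ}

/-- closed under minima, or under maxima, or under medians (sets) -/
def LCS (P : Set (Fin d → ℝ)) : Prop :=
  (∀ x ∈ P, ∀ y ∈ P, (fun i => min (x i) (y i)) ∈ P) ∨
  (∀ x ∈ P, ∀ y ∈ P, (fun i => max (x i) (y i)) ∈ P) ∨
  (∀ x ∈ P, ∀ y ∈ P, ∀ z ∈ P, (fun i => med (x i) (y i) (z i)) ∈ P)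

/-- number of points in a box -/
theorem box_bound {P : Set (Fin d → ℝ)} (hP : LCS P) {s : ℝ} (hs : 0 < s)
    (hsep : ∀ x ∈ P, ∀ y ∈ P, x ≠ y → s ^ 2 ≤ Sq x y) (lo hi : Fin d → ℝ) (hlh : ∀ i, lo i ≤ hi i)
    (T : Finset (Fin d → ℝ)) (hT : ∀ x ∈ T, x ∈ P) (hbox : ∀ x ∈ T, ∀ i, lo i ≤ x i ∧ x i ≤ hi i) :
    (T.card : ℝ) ≤ ∏ i, (1 + (hi i - lo i) / s) := by
  classical
  rcases T.eq_empty_or_nonempty with h0 | hne
  · rw [h0]
    simp only [Finset.card_empty, Nat.cast_zero]
    apply Finset.prod_nonneg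
    intro i _
    have := div_nonneg (sub_nonneg.2 (hlh i)) hs.le
    linarith
  set G : Finset (Fin d → ℝ) :=
    (Fintype.piFinset (fun i => T.image (fun x => x i))).filter (fun x => x ∈ P) with hG
  have hTG : T ⊆ G := by
    intro x hx
    rw [hG, Finset.mem_filter, Fintype.mem_piFinset]
    exact ⟨fun i => Finset.mem_image_of_mem _ hx, hT x hx⟩
  have hLC : LC G := by
    rcases hP with h | h | h
    · left
      intro x hx y hy
      rw [hG, Finset.mem_filter, Fintype.mem_piFinset] at hx hy ⊢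
      refine ⟨fun i => ?_, h x hx.2 y hy.2⟩
      rcases min_choice (x i) (y i) with h1 | h1
      · show min (x i) (y i) ∈ _
        rw [h1]; exact hx.1 i
      · show min (x i) (y i) ∈ _
        rw [h1]; exact hy.1 i
    · right; left
      intro x hx y hy
      rw [hG, Finset.mem_filter, Fintype.mem_piFinset] at hx hy ⊢
      refine ⟨fun i => ?_, h x hx.2 y hy.2⟩
      rcases max_choice (x i) (y i) with h1 | h1
      · show max (x i) (y i) ∈ _
        rw [h1]; exact hx.1 i
      · show max (x i) (y i) ∈ _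
        rw [h1]; exact hy.1 i
    · right; right
      intro x hx y hy z hz
      rw [hG, Finset.mem_filter, Fintype.mem_piFinset] at hx hy hz ⊢
      refine ⟨fun i => ?_, h x hx.2 y hy.2 z hz.2⟩
      show med (x i) (y i) (z i) ∈ _
      rcases med_mem (x i) (y i) (z i) with h1 | h1 | h1
      · rw [h1]; exact hx.1 i
      · rw [h1]; exact hy.1 i
      · rw [h1]; exact hz.1 i
  have hGbox : ∀ x ∈ G, ∀ i, lo i ≤ x i ∧ x i ≤ hi i := by
    intro x hx i
    rw [hG, Finset.mem_filter, Fintype.mem_piFinset] at hx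
    obtain ⟨y, hy, hyx⟩ := Finset.mem_image.1 (hx.1 i)
    rw [← hyx]; exact hbox y hy i
  have h1 := count hs G.card G lo hi le_rfl (hne.mono hTG) hLC
    (fun x hx y hy hxy => hsep x (by
      rw [hG, Finset.mem_filter] at hx; exact hx.2) y (by
      rw [hG, Finset.mem_filter] at hy; exact hy.2) hxy) hGbox
  have h2 : (T.card : ℝ) ≤ G.card := by exact_mod_cast Finset.card_le_card hTG
  linarith

/-- the points of `EuclideanSpace` as functions -/
theorem sq_eq (x y : EuclideanSpace ℝ (Fin d)) : Sq (fun i => x i) (fun i => y i) = dist x y ^ 2 := by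
  rw [EuclideanSpace.dist_eq, Real.sq_sqrt (Finset.sum_nonneg (fun i _ => sq_nonneg _))]
  unfold Sq
  apply Finset.sum_congr rfl
  intro i _
  rw [Real.dist_eq, sq_abs]

/-- the volume of a cube -/
theorem cube_vol (a : Fin d → ℝ) (ℓ : ℝ) :
    volume {x : EuclideanSpace ℝ (Fin d) | ∀ i, x i ∈ Set.Ico (a i) (a i + ℓ)} =
      ENNReal.ofReal ℓ ^ d := by
  have h := (PiLp.volume_preserving_ofLp (Fin d)).measure_preimage
    (s := Set.univ.pi (fun i => Set.Ico (a i) (a i + ℓ)))
    (MeasurableSet.univ_pi (fun i => measurableSet_Ico)).nullMeasurableSet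
  have h2 : {x : EuclideanSpace ℝ (Fin d) | ∀ i, x i ∈ Set.Ico (a i) (a i + ℓ)} =
      (@WithLp.ofLp 2 (Fin d → ℝ)) ⁻¹' (Set.univ.pi (fun i => Set.Ico (a i) (a i + ℓ))) := by
    ext x; simp
  rw [h2, h, volume_pi_pi]
  simp [Real.volume_Ico]

theorem cube_meas (a : Fin d → ℝ) (ℓ : ℝ) :
    MeasurableSet {x : EuclideanSpace ℝ (Fin d) | ∀ i, x i ∈ Set.Ico (a i) (a i + ℓ)} := by
  have h2 : {x : EuclideanSpace ℝ (Fin d) | ∀ i, x i ∈ Set.Ico (a i) (a i + ℓ)} =
      (@WithLp.ofLp 2 (Fin d → ℝ)) ⁻¹' (Set.univ.pi (fun i => Set.Ico (a i) (a i + ℓ))) := by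
    ext x; simp
  rw [h2]
  exact (PiLp.volume_preserving_ofLp (Fin d)).measurable
    (MeasurableSet.univ_pi (fun i => measurableSet_Ico))

/-- points of a cube are at distance at most `√d ℓ` -/
theorem dist_cube {x y : EuclideanSpace ℝ (Fin d)} {ℓ : ℝ} (hℓ : 0 ≤ ℓ)
    (h : ∀ i, |x i - y i| ≤ ℓ) : dist x y ≤ Real.sqrt d * ℓ := by
  rw [EuclideanSpace.dist_eq]
  have h1 : ∑ i, dist (x i) (y i) ^ 2 ≤ (d : ℝ) * ℓ ^ 2 := by
    calc ∑ i, dist (x i) (y i) ^ 2 ≤ ∑ _i : Fin d, ℓ ^ 2 := by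
          apply Finset.sum_le_sum
          intro i _
          rw [Real.dist_eq]
          exact pow_le_pow_left₀ (abs_nonneg _) (h i) 2
      _ = (d : ℝ) * ℓ ^ 2 := by simp
  calc Real.sqrt (∑ i, dist (x i) (y i) ^ 2) ≤ Real.sqrt ((d : ℝ) * ℓ ^ 2) := Real.sqrt_le_sqrt h1
    _ = Real.sqrt d * ℓ := by
        rw [Real.sqrt_mul (Nat.cast_nonneg d), Real.sqrt_sq hℓ]

/-- **The number of points in a ball**, by averaging over cubes. -/
theorem ball_bound {P : Set (EuclideanSpace ℝ (Fin d))}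
    (hP : LCS ((fun x : EuclideanSpace ℝ (Fin d) => fun i => x i) '' P)) {s : ℝ} (hs : 0 < s)
    (hsep : ∀ x ∈ P, ∀ y ∈ P, x ≠ y → s ≤ dist x y) {R ℓ : ℝ} (hℓ : 0 < ℓ)
    (T : Finset (EuclideanSpace ℝ (Fin d))) (hT : ∀ x ∈ T, x ∈ P ∧ dist x 0 < R) :
    (T.card : ENNReal) * ENNReal.ofReal ℓ ^ d ≤
      ENNReal.ofReal ((1 + ℓ / s) ^ d) *
        volume (ball (0 : EuclideanSpace ℝ (Fin d)) (R + Real.sqrt d * ℓ)) := by
  classical
  set Q : EuclideanSpace ℝ (Fin d) → Set (EuclideanSpace ℝ (Fin d)) :=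
    fun p => {x | ∀ i, x i ∈ Set.Ico (p i - ℓ) (p i - ℓ + ℓ)} with hQ
  have hvol : ∀ p, volume (Q p) = ENNReal.ofReal ℓ ^ d := fun p => cube_vol (fun i => p i - ℓ) ℓ
  have hmeas : ∀ p, MeasurableSet (Q p) := fun p => cube_meas (fun i => p i - ℓ) ℓ
  have hpt : ∀ x : EuclideanSpace ℝ (Fin d),
      ∑ p ∈ T, (Q p).indicator (fun _ => (1 : ENNReal)) x ≤
        (ball (0 : EuclideanSpace ℝ (Fin d)) (R + Real.sqrt d * ℓ)).indicator
          (fun _ => ENNReal.ofReal ((1 + ℓ / s) ^ d)) x := by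
    intro x
    set T' := T.filter (fun p => x ∈ Q p) with hT'
    have h1 : ∑ p ∈ T, (Q p).indicator (fun _ => (1 : ENNReal)) x = (T'.card : ENNReal) := by
      rw [hT', Finset.card_filter]
      push_cast
      apply Finset.sum_congr rfl
      intro p _
      by_cases h : x ∈ Q p
      · rw [Set.indicator_of_mem h, if_pos h]
      · rw [Set.indicator_of_notMem h, if_neg h]
    rw [h1]
    rcases T'.eq_empty_or_nonempty with h0 | ⟨p, hp⟩
    · rw [h0]; simp
    have hxball : x ∈ ball (0 : EuclideanSpace ℝ (Fin d)) (R + Real.sqrt d * ℓ) := by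
      rw [hT', Finset.mem_filter] at hp
      rw [mem_ball]
      have h2 : dist x p ≤ Real.sqrt d * ℓ := by
        apply dist_cube hℓ.le
        intro i
        have := hp.2 i
        rw [Set.mem_Ico] at this
        rw [abs_le]
        constructor <;> linarith [this.1, this.2]
      have h3 := (hT p hp.1).2
      calc dist x 0 ≤ dist x p + dist p 0 := dist_triangle _ _ _
        _ < R + Real.sqrt d * ℓ := by linarith
    rw [Set.indicator_of_mem hxball]
    have hinj : Function.Injective (fun x : EuclideanSpace ℝ (Fin d) => fun i => x i) := by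
      intro a b hab
      ext i
      exact congrFun hab i
    have h4 := box_bound hP hs (by
        rintro _ ⟨a, ha, rfl⟩ _ ⟨b, hb, rfl⟩ hab
        rw [sq_eq]
        have hab' : a ≠ b := fun h => hab (by rw [h])
        exact pow_le_pow_left₀ hs.le (hsep a ha b hb hab') 2)
      (fun i => x i) (fun i => x i + ℓ) (fun i => by dsimp only; linarith)
      (T'.image (fun x : EuclideanSpace ℝ (Fin d) => fun i => x i)) (by
        intro y hy
        obtain ⟨a, ha, rfl⟩ := Finset.mem_image.1 hy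
        rw [hT', Finset.mem_filter] at ha
        exact ⟨a, (hT a ha.1).1, rfl⟩) (by
        intro y hy i
        obtain ⟨a, ha, rfl⟩ := Finset.mem_image.1 hy
        rw [hT', Finset.mem_filter] at ha
        have := ha.2 i
        rw [Set.mem_Ico] at this
        constructor <;> linarith [this.1, this.2])
    rw [Finset.card_image_of_injective _ hinj] at h4
    have h5 : ∏ i : Fin d, (1 + ((x i + ℓ) - x i) / s) = (1 + ℓ / s) ^ d := by
      simp
    rw [h5] at h4
    rw [← ENNReal.ofReal_natCast]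
    exact ENNReal.ofReal_le_ofReal h4
  calc (T.card : ENNReal) * ENNReal.ofReal ℓ ^ d = ∑ p ∈ T, volume (Q p) := by
        rw [Finset.sum_congr rfl (fun p _ => hvol p)]
        simp
    _ = ∑ p ∈ T, ∫⁻ x, (Q p).indicator (fun _ => (1 : ENNReal)) x := by
        apply Finset.sum_congr rfl
        intro p _
        rw [lintegral_indicator (hmeas p)]
        simp
    _ = ∫⁻ x, ∑ p ∈ T, (Q p).indicator (fun _ => (1 : ENNReal)) x := by
        rw [lintegral_finsetSum]
        intro p _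
        exact measurable_const.indicator (hmeas p)
    _ ≤ ∫⁻ x, (ball (0 : EuclideanSpace ℝ (Fin d)) (R + Real.sqrt d * ℓ)).indicator
          (fun _ => ENNReal.ofReal ((1 + ℓ / s) ^ d)) x := lintegral_mono hpt
    _ = _ := by
        rw [lintegral_indicator measurableSet_ball, setLIntegral_const]

end Pool.Agent.Helper634ord
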