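import Mathlib
import Pool.Agent.Helper634ord.Box

/-!
# Unions of order-closed packings: the density (helper634)
-/

set_option autoImplicit false

namespace Pool.Agent.Helper634ord

open MeasureTheory Metric Filter Topology

variable {d : ℕ}

/-- the union of the open balls of radius `r` centred at the points of `P` -/
def Balls (P : Set (EuclideanSpace ℝ (Fin d))) (r : ℝ) : Set (EuclideanSpace ℝ (Fin d)) :=
  ⋃ p ∈ P, ball p r

/-- `ball_bound` in an arbitrary orthonormal coordinate system -/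
theorem ball_bound_rot (e : EuclideanSpace ℝ (Fin d) ≃ₗᵢ[ℝ] EuclideanSpace ℝ (Fin d))
    {P : Set (EuclideanSpace ℝ (Fin d))}
    (hP : LCS ((fun x : EuclideanSpace ℝ (Fin d) => fun i => e x i) '' P)) {s : ℝ} (hs : 0 < s)
    (hsep : ∀ x ∈ P, ∀ y ∈ P, x ≠ y → s ≤ dist x y) {R ℓ : ℝ} (hℓ : 0 < ℓ)
    (T : Finset (EuclideanSpace ℝ (Fin d))) (hT : ∀ x ∈ T, x ∈ P ∧ dist x 0 < R) :
    (T.card : ENNReal) * ENNReal.ofReal ℓ ^ d ≤
      ENNReal.ofReal ((1 + ℓ / s) ^ d) *
        volume (ball (0 : EuclideanSpace ℝ (Fin d)) (R + Real.sqrt d * ℓ)) := by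
  classical
  have h := ball_bound (P := e '' P) (s := s) (R := R) (ℓ := ℓ) (by
      rw [Set.image_image]; exact hP) hs (by
      rintro _ ⟨x, hx, rfl⟩ _ ⟨y, hy, rfl⟩ hxy
      rw [e.dist_map]
      exact hsep x hx y hy (fun h => hxy (by rw [h]))) hℓ (T.image e) (by
      intro y hy
      obtain ⟨x, hx, rfl⟩ := Finset.mem_image.1 hy
      refine ⟨Set.mem_image_of_mem _ (hT x hx).1, ?_⟩
      have h1 := (hT x hx).2
      rw [dist_zero_right] at h1 ⊢
      rwa [e.norm_map])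
  rwa [Finset.card_image_of_injective _ e.injective] at h

/-- finiteness -/
theorem finite_ball (e : EuclideanSpace ℝ (Fin d) ≃ₗᵢ[ℝ] EuclideanSpace ℝ (Fin d))
    {P : Set (EuclideanSpace ℝ (Fin d))}
    (hP : LCS ((fun x : EuclideanSpace ℝ (Fin d) => fun i => e x i) '' P)) {s : ℝ} (hs : 0 < s)
    (hsep : ∀ x ∈ P, ∀ y ∈ P, x ≠ y → s ≤ dist x y) (R : ℝ) :
    {x | x ∈ P ∧ dist x 0 < R}.Finite := by
  by_contra hinf
  have hinf' : {x | x ∈ P ∧ dist x 0 < R}.Infinite := hinf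
  have hfin : volume (ball (0 : EuclideanSpace ℝ (Fin d)) (R + Real.sqrt d * 1)) ≠ ⊤ :=
    measure_ball_lt_top.ne
  set B := ENNReal.ofReal ((1 + 1 / s) ^ d) *
        volume (ball (0 : EuclideanSpace ℝ (Fin d)) (R + Real.sqrt d * 1)) with hB
  have hBt : B ≠ ⊤ := ENNReal.mul_ne_top ENNReal.ofReal_ne_top hfin
  obtain ⟨n, hn⟩ := ENNReal.exists_nat_gt hBt
  obtain ⟨T, hT, hTc⟩ := hinf'.exists_subset_card_eq n
  have h := ball_bound_rot e hP hs hsep (R := R) (ℓ := 1) one_pos T (fun x hx => hT hx)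
  rw [hTc] at h
  simp only [ENNReal.ofReal_one, one_pow, mul_one] at h
  rw [hB] at hn
  simp only [mul_one] at hn
  exact absurd h (not_le.2 hn)

/-- volume of a ball in terms of the unit ball -/
theorem vol_ball (x : EuclideanSpace ℝ (Fin d)) {t : ℝ} (ht : 0 < t) :
    volume (ball x t) = ENNReal.ofReal (t ^ d) * volume (ball (0 : EuclideanSpace ℝ (Fin d)) 1) := by
  rw [Measure.addHaar_ball_of_pos volume x ht]
  simp

/-- the upper bound for the proportion covered inside `ball 0 R` by the union of `N` closed packings -/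
theorem ratio_le {N : ℕ} {P : Fin N → Set (EuclideanSpace ℝ (Fin d))}
    (e : Fin N → (EuclideanSpace ℝ (Fin d) ≃ₗᵢ[ℝ] EuclideanSpace ℝ (Fin d)))
    (hP : ∀ j, LCS ((fun x : EuclideanSpace ℝ (Fin d) => fun i => e j x i) '' P j)) {r : ℝ} (hr : 0 < r)
    (hsep : ∀ j, ∀ x ∈ P j, ∀ y ∈ P j, x ≠ y → 2 * r ≤ dist x y) {R ℓ : ℝ} (hR : 0 < R)
    (hℓ : 0 < ℓ) {U : Set (EuclideanSpace ℝ (Fin d))} (hU : U ⊆ ⋃ j, P j) :
    volume (ball (0 : EuclideanSpace ℝ (Fin d)) R ∩ Balls U r) /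
        volume (ball (0 : EuclideanSpace ℝ (Fin d)) R) ≤
      (N : ENNReal) * (volume (ball (0 : EuclideanSpace ℝ (Fin d)) 1) *
        ENNReal.ofReal (((r / ℓ + 1 / 2) * (1 + (r + Real.sqrt d * ℓ) / R)) ^ d)) := by
  classical
  set ω := volume (ball (0 : EuclideanSpace ℝ (Fin d)) 1) with hω
  have hω0 : ω ≠ 0 := (measure_ball_pos volume _ one_pos).ne'
  have hωt : ω ≠ ⊤ := measure_ball_lt_top.ne
  have hfin : ∀ j, {x | x ∈ P j ∧ dist x 0 < R + r}.Finite := fun j =>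
    finite_ball (e j) (hP j) (by linarith : 0 < 2 * r) (hsep j) (R + r)
  set F : Fin N → Finset (EuclideanSpace ℝ (Fin d)) := fun j => (hfin j).toFinset with hF
  have hsq : 0 ≤ Real.sqrt d := Real.sqrt_nonneg _
  -- covering
  have hcov : ball (0 : EuclideanSpace ℝ (Fin d)) R ∩ Balls U r ⊆
      ⋃ j ∈ (Finset.univ : Finset (Fin N)), ⋃ p ∈ F j, ball p r := by
    rintro x ⟨hx, hxU⟩
    unfold Balls at hxU
    rw [Set.mem_iUnion₂] at hxU
    obtain ⟨p, hp, hxp⟩ := hxU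
    obtain ⟨j, hj⟩ := Set.mem_iUnion.1 (hU hp)
    rw [Set.mem_iUnion₂]
    refine ⟨j, Finset.mem_univ j, ?_⟩
    rw [Set.mem_iUnion₂]
    refine ⟨p, ?_, hxp⟩
    rw [hF, Set.Finite.mem_toFinset]
    refine ⟨hj, ?_⟩
    rw [mem_ball] at hx hxp
    calc dist p 0 ≤ dist p x + dist x 0 := dist_triangle _ _ _
      _ < r + R := by rw [dist_comm p x]; linarith
      _ = R + r := by ring
  have h1 : volume (ball (0 : EuclideanSpace ℝ (Fin d)) R ∩ Balls U r) ≤
      ∑ j : Fin N, ((F j).card : ENNReal) * (ENNReal.ofReal (r ^ d) * ω) := by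
    calc volume (ball (0 : EuclideanSpace ℝ (Fin d)) R ∩ Balls U r)
        ≤ volume (⋃ j ∈ (Finset.univ : Finset (Fin N)), ⋃ p ∈ F j, ball p r) := measure_mono hcov
      _ ≤ ∑ j : Fin N, volume (⋃ p ∈ F j, ball p r) := measure_biUnion_finset_le _ _
      _ ≤ ∑ j : Fin N, ∑ p ∈ F j, volume (ball p r) :=
          Finset.sum_le_sum (fun j _ => measure_biUnion_finset_le _ _)
      _ = _ := by
          apply Finset.sum_congr rfl
          intro j _
          rw [Finset.sum_congr rfl (fun p _ => vol_ball p hr)]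
          simp [hω]
  have h2 : ∀ j, ((F j).card : ENNReal) * (ENNReal.ofReal (r ^ d) * ω) ≤
      ω * ENNReal.ofReal (((r / ℓ + 1 / 2) * (1 + (r + Real.sqrt d * ℓ) / R)) ^ d) *
        volume (ball (0 : EuclideanSpace ℝ (Fin d)) R) := by
    intro j
    have h3 := ball_bound_rot (e j) (hP j) (by linarith : 0 < 2 * r) (hsep j) (R := R + r) hℓ (F j)
      (fun x hx => by
        rw [hF, Set.Finite.mem_toFinset] at hx
        exact hx)
    have hRr : 0 < R + r + Real.sqrt d * ℓ := by positivity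
    rw [vol_ball _ hRr] at h3
    rw [vol_ball _ hR]
    have hℓd : ENNReal.ofReal ℓ ^ d ≠ 0 := by
      apply pow_ne_zero
      rw [ne_eq, ENNReal.ofReal_eq_zero]
      linarith
    have hℓt : ENNReal.ofReal ℓ ^ d ≠ ⊤ := ENNReal.pow_ne_top ENNReal.ofReal_ne_top
    have h4 : ((F j).card : ENNReal) ≤ (ENNReal.ofReal ((1 + ℓ / (2 * r)) ^ d) *
        (ENNReal.ofReal ((R + r + Real.sqrt d * ℓ) ^ d) * ω)) / ENNReal.ofReal ℓ ^ d := by
      rw [ENNReal.le_div_iff_mul_le (Or.inl hℓd) (Or.inl hℓt)]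
      exact h3
    calc ((F j).card : ENNReal) * (ENNReal.ofReal (r ^ d) * ω)
        ≤ ((ENNReal.ofReal ((1 + ℓ / (2 * r)) ^ d) *
        (ENNReal.ofReal ((R + r + Real.sqrt d * ℓ) ^ d) * ω)) / ENNReal.ofReal ℓ ^ d) *
          (ENNReal.ofReal (r ^ d) * ω) := by gcongr
      _ = ω * (ENNReal.ofReal ((1 + ℓ / (2 * r)) ^ d) *
            ENNReal.ofReal ((R + r + Real.sqrt d * ℓ) ^ d) * (ENNReal.ofReal ℓ ^ d)⁻¹ *
              ENNReal.ofReal (r ^ d)) * ω := by
          rw [div_eq_mul_inv]; ring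
      _ = ω * (ENNReal.ofReal (((r / ℓ + 1 / 2) * (1 + (r + Real.sqrt d * ℓ) / R)) ^ d) *
            ENNReal.ofReal (R ^ d)) * ω := by
          congr 2
          rw [← ENNReal.ofReal_pow hℓ.le, ← ENNReal.ofReal_inv_of_pos (pow_pos hℓ d),
            ← ENNReal.ofReal_mul (by positivity), ← ENNReal.ofReal_mul (by positivity),
            ← ENNReal.ofReal_mul (by positivity), ← ENNReal.ofReal_mul (by positivity)]
          congr 1
          rw [← inv_pow, ← mul_pow, ← mul_pow, ← mul_pow, ← mul_pow]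
          congr 1
          field_simp
          ring
      _ = _ := by ring
  have hV0 : volume (ball (0 : EuclideanSpace ℝ (Fin d)) R) ≠ 0 := (measure_ball_pos volume _ hR).ne'
  have hVt : volume (ball (0 : EuclideanSpace ℝ (Fin d)) R) ≠ ⊤ := measure_ball_lt_top.ne
  rw [ENNReal.div_le_iff hV0 hVt]
  calc volume (ball (0 : EuclideanSpace ℝ (Fin d)) R ∩ Balls U r)
      ≤ ∑ j : Fin N, ((F j).card : ENNReal) * (ENNReal.ofReal (r ^ d) * ω) := h1
    _ ≤ ∑ _j : Fin N, ω * ENNReal.ofReal (((r / ℓ + 1 / 2) *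
          (1 + (r + Real.sqrt d * ℓ) / R)) ^ d) *
            volume (ball (0 : EuclideanSpace ℝ (Fin d)) R) := Finset.sum_le_sum (fun j _ => h2 j)
    _ = _ := by
        rw [Finset.sum_const, Finset.card_univ, Fintype.card_fin, nsmul_eq_mul]
        ring

/-- the upper density of the union of the balls of radius `r` centred at `P` -/
noncomputable def upperDensity (P : Set (EuclideanSpace ℝ (Fin d))) (r : ℝ) : ENNReal :=
  limsup (fun R : ℝ => volume (ball (0 : EuclideanSpace ℝ (Fin d)) R ∩ Balls P r) /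
    volume (ball (0 : EuclideanSpace ℝ (Fin d)) R)) atTop

theorem density_le {N : ℕ} {P : Fin N → Set (EuclideanSpace ℝ (Fin d))}
    (e : Fin N → (EuclideanSpace ℝ (Fin d) ≃ₗᵢ[ℝ] EuclideanSpace ℝ (Fin d)))
    (hP : ∀ j, LCS ((fun x : EuclideanSpace ℝ (Fin d) => fun i => e j x i) '' P j)) {r : ℝ} (hr : 0 < r)
    (hsep : ∀ j, ∀ x ∈ P j, ∀ y ∈ P j, x ≠ y → 2 * r ≤ dist x y)
    {U : Set (EuclideanSpace ℝ (Fin d))} (hU : U ⊆ ⋃ j, P j) :
    upperDensity U r ≤ (N : ENNReal) * (volume (ball (0 : EuclideanSpace ℝ (Fin d)) 1) *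
      ENNReal.ofReal ((1 / 2) ^ d)) := by
  have hlim : Tendsto (fun R : ℝ => ((r / Real.sqrt R + 1 / 2) *
      (1 + (r + Real.sqrt d * Real.sqrt R) / R)) ^ d) atTop (𝓝 ((1 / 2) ^ d)) := by
    have hs : Tendsto (fun R : ℝ => Real.sqrt R) atTop atTop := Real.tendsto_sqrt_atTop
    have h1 : Tendsto (fun R : ℝ => r / Real.sqrt R) atTop (𝓝 0) := Tendsto.const_div_atTop hs r
    have h2 : Tendsto (fun R : ℝ => r / R) atTop (𝓝 0) := Tendsto.const_div_atTop tendsto_id r
    have h3 : Tendsto (fun R : ℝ => Real.sqrt d / Real.sqrt R) atTop (𝓝 0) :=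
      Tendsto.const_div_atTop hs _
    have h4 : Tendsto (fun R : ℝ => (r + Real.sqrt d * Real.sqrt R) / R) atTop (𝓝 0) := by
      have h5 : Tendsto (fun R : ℝ => r / R + Real.sqrt d / Real.sqrt R) atTop (𝓝 (0 + 0)) :=
        h2.add h3
      rw [add_zero] at h5
      apply h5.congr'
      filter_upwards [eventually_gt_atTop 0] with R hR
      have hR2 : Real.sqrt R ≠ 0 := (Real.sqrt_pos.2 hR).ne'
      have hR3 : R ≠ 0 := hR.ne'
      have hRs : Real.sqrt R * Real.sqrt R = R := Real.mul_self_sqrt hR.le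
      rw [add_div]
      congr 1
      rw [div_eq_div_iff hR2 hR3, mul_assoc, hRs]
    have h6 : Tendsto (fun R : ℝ => (r / Real.sqrt R + 1 / 2) *
      (1 + (r + Real.sqrt d * Real.sqrt R) / R)) atTop (𝓝 ((0 + 1 / 2) * (1 + 0))) :=
      (h1.add_const _).mul (h4.const_add _)
    have h7 := h6.pow d
    simpa using h7
  have hlim2 : Tendsto (fun R : ℝ => (N : ENNReal) *
      (volume (ball (0 : EuclideanSpace ℝ (Fin d)) 1) *
        ENNReal.ofReal (((r / Real.sqrt R + 1 / 2) *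
          (1 + (r + Real.sqrt d * Real.sqrt R) / R)) ^ d))) atTop
      (𝓝 ((N : ENNReal) * (volume (ball (0 : EuclideanSpace ℝ (Fin d)) 1) *
        ENNReal.ofReal ((1 / 2) ^ d)))) := by
    apply ENNReal.Tendsto.const_mul _ (Or.inr (ENNReal.natCast_ne_top N))
    apply ENNReal.Tendsto.const_mul _ (Or.inr measure_ball_lt_top.ne)
    exact ENNReal.tendsto_ofReal hlim
  unfold upperDensity
  rw [← hlim2.limsup_eq]
  apply limsup_le_limsup
  · filter_upwards [eventually_gt_atTop 0] with R hR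
    exact ratio_le e hP hr hsep hR (Real.sqrt_pos.2 hR) hU
  · isBoundedDefault
  · isBoundedDefault

end Pool.Agent.Helper634ord
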