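import Mathlib

/-!
# Segments and coordinatewise minima: the selection lemma (helper634)
-/

set_option autoImplicit false

namespace Pool.Agent.Helper634ord.Kak

open Filter Topology

variable {n : ℕ}

/-- the point with parameter `t` of the line through `a` with direction `v` -/
def pt (a v : Fin n → ℝ) (t : ℝ) : Fin n → ℝ := fun i => a i + t * v i

/-- one line: it is below the base point in exactly one coordinate of `T` -/
theorem pick {T G : Finset (Fin n)} (hG : G.Nonempty) {s : ℝ} (hs : s = 1 ∨ s = -1)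
    {a v b : Fin n → ℝ} {A W : ℕ → Fin n → ℝ} (hA : ∀ i, Tendsto (fun k => A k i) atTop (𝓝 (a i)))
    (hW : ∀ i, Tendsto (fun k => W k i) atTop (𝓝 (v i))) (hv : ∀ i ∈ G, 0 < s * v i)
    {τ : ℝ} (h0 : 0 < τ) (h1 : τ < 1) (hb : ∀ i ∈ G, b i = a i + τ * v i)
    (hb' : ∀ i ∈ T, i ∉ G → b i < a i + τ * v i)
    (hdist : ∀ k, ∀ i ∈ G, ∀ j ∈ G, i ≠ j → (b i - A k i) * W k j ≠ (b j - A k j) * W k i)
    {ε : ℝ} (hε : 0 < ε) :
    ∃ k, ∃ c ∈ G, ∃ t, (0 < t ∧ t < 1) ∧ (∀ i, |pt (A k) (W k) t i - pt a v τ i| < ε) ∧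
      pt (A k) (W k) t c < b c ∧ ∀ i ∈ T, i ≠ c → b i < pt (A k) (W k) t i := by
  classical
  have hss : s * s = 1 := by rcases hs with h | h <;> rw [h] <;> norm_num
  -- continuity: for `k` large and `t` close to `τ` everything is close
  have hcont : ∀ i, Tendsto (fun p : ℕ × ℝ => pt (A p.1) (W p.1) p.2 i) (atTop ×ˢ 𝓝 τ)
      (𝓝 (pt a v τ i)) := by
    intro i
    unfold pt
    have e1 : Tendsto (fun p : ℕ × ℝ => A p.1 i) (atTop ×ˢ 𝓝 τ) (𝓝 (a i)) :=
      (hA i).comp tendsto_fst
    have e2 : Tendsto (fun p : ℕ × ℝ => W p.1 i) (atTop ×ˢ 𝓝 τ) (𝓝 (v i)) :=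
      (hW i).comp tendsto_fst
    have e3 : Tendsto (fun p : ℕ × ℝ => p.2) (atTop ×ˢ 𝓝 τ) (𝓝 τ) := tendsto_snd
    exact e1.add (e3.mul e2)
  have hE : ∀ᶠ p : ℕ × ℝ in atTop ×ˢ 𝓝 τ, (∀ i, |pt (A p.1) (W p.1) p.2 i - pt a v τ i| < ε) ∧
      (∀ i ∈ T, i ∉ G → b i < pt (A p.1) (W p.1) p.2 i) ∧ 0 < p.2 ∧ p.2 < 1 := by
    refine Eventually.and ?_ (Eventually.and ?_ ?_)
    · rw [eventually_all]
      intro i
      have := (hcont i).eventually (Metric.ball_mem_nhds (pt a v τ i) hε)
      filter_upwards [this] with p hp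
      rwa [Real.dist_eq] at hp
    · rw [Filter.eventually_all_finset]
      intro i hi
      by_cases hiG : i ∈ G
      · filter_upwards with p hp
        exact absurd hiG hp
      · have h2 : b i < pt a v τ i := hb' i hi hiG
        filter_upwards [(hcont i).eventually (lt_mem_nhds h2)] with p hp _
        exact hp
    · have e3 : Tendsto (fun p : ℕ × ℝ => p.2) (atTop ×ˢ 𝓝 τ) (𝓝 τ) := tendsto_snd
      exact (e3.eventually (lt_mem_nhds h0)).and (e3.eventually (gt_mem_nhds h1))
  rw [eventually_prod_iff] at hE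
  obtain ⟨pa, hpa, pb, hpb, hE2⟩ := hE
  obtain ⟨η, hη, hηb⟩ := Metric.eventually_nhds_iff.1 hpb
  -- the times at which the lines pass the base values
  have hθ : ∀ i ∈ G, Tendsto (fun k => (b i - A k i) / W k i) atTop (𝓝 τ) := by
    intro i hi
    have hvi : v i ≠ 0 := by
      intro h
      have := hv i hi
      rw [h, mul_zero] at this
      exact lt_irrefl _ this
    have h2 : Tendsto (fun k => (b i - A k i) / W k i) atTop (𝓝 ((b i - a i) / v i)) :=
      ((hA i).const_sub (b i)).div (hW i) hvi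
    rw [hb i hi] at h2
    have h3 : (a i + τ * v i - a i) / v i = τ := by field_simp; ring
    rw [h3] at h2
    rw [hb i hi]
    exact h2
  have hk : ∀ᶠ k in atTop, pa k ∧ (∀ i ∈ G, 0 < s * W k i) ∧
      ∀ i ∈ G, dist ((b i - A k i) / W k i) τ < η / 2 := by
    refine hpa.and (Eventually.and ?_ ?_)
    · rw [Filter.eventually_all_finset]
      intro i hi
      exact ((hW i).const_mul s).eventually (lt_mem_nhds (hv i hi))
    · rw [Filter.eventually_all_finset]
      intro i hi
      exact (hθ i hi).eventually (Metric.ball_mem_nhds τ (by linarith))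
  obtain ⟨k, hka, hkW, hkθ⟩ := hk.exists
  have hWne : ∀ i ∈ G, W k i ≠ 0 := by
    intro i hi h
    have := hkW i hi
    rw [h, mul_zero] at this
    exact lt_irrefl _ this
  obtain ⟨c, hc, hcmax⟩ := G.exists_max_image (fun i => s * ((b i - A k i) / W k i)) hG
  have hlt : ∀ i ∈ G, i ≠ c →
      s * ((b i - A k i) / W k i) < s * ((b c - A k c) / W k c) := by
    intro i hi hic
    apply lt_of_le_of_ne (hcmax i hi)
    intro heq
    have hs0 : s ≠ 0 := by intro h; rw [h] at hss; norm_num at hss
    have h2 := mul_left_cancel₀ hs0 heq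
    rw [div_eq_div_iff (hWne i hi) (hWne c hc)] at h2
    exact hdist k i hi c hc hic h2
  obtain ⟨x, hx⟩ : ∃ x, (∀ i ∈ G, i ≠ c → s * ((b i - A k i) / W k i) < x) ∧
      s * ((b c - A k c) / W k c) - η / 2 < x ∧ x < s * ((b c - A k c) / W k c) := by
    have hev : ∀ᶠ x in 𝓝[<] (s * ((b c - A k c) / W k c)),
        (∀ i ∈ G, i ≠ c → s * ((b i - A k i) / W k i) < x) ∧
        s * ((b c - A k c) / W k c) - η / 2 < x ∧ x < s * ((b c - A k c) / W k c) := by
      refine Eventually.and ?_ (Eventually.and ?_ ?_)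
      · rw [Filter.eventually_all_finset]
        intro i hi
        by_cases hic : i = c
        · filter_upwards with x hx
          exact absurd hic hx
        · filter_upwards [Ioo_mem_nhdsLT (hlt i hi hic)] with x hx _
          exact hx.1
      · filter_upwards [Ioo_mem_nhdsLT (show s * ((b c - A k c) / W k c) - η / 2 <
          s * ((b c - A k c) / W k c) by linarith)] with x hx
        exact hx.1
      · exact eventually_mem_nhdsWithin
    exact hev.exists
  obtain ⟨hx1, hx2, hx3⟩ := hx
  have hiff : ∀ i ∈ G, (pt (A k) (W k) (s * x) i < b i ↔ x < s * ((b i - A k i) / W k i)) := by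
    intro i hi
    have h2 : s * ((b i - A k i) / W k i) = (b i - A k i) / (s * W k i) := by
      rcases hs with h | h <;> rw [h] <;> field_simp
    rw [h2, lt_div_iff₀ (hkW i hi)]
    unfold pt
    constructor <;> intro h3 <;> nlinarith
  have hiff2 : ∀ i ∈ G, (b i < pt (A k) (W k) (s * x) i ↔ s * ((b i - A k i) / W k i) < x) := by
    intro i hi
    have h2 : s * ((b i - A k i) / W k i) = (b i - A k i) / (s * W k i) := by
      rcases hs with h | h <;> rw [h] <;> field_simp
    rw [h2, div_lt_iff₀ (hkW i hi)]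
    unfold pt
    constructor <;> intro h3 <;> nlinarith
  have htτ : dist (s * x) τ < η := by
    have h2 := hkθ c hc
    rw [Real.dist_eq, abs_lt] at h2 ⊢
    rcases hs with h | h <;> rw [h] at hx2 hx3 ⊢ <;> constructor <;> linarith
  have hfin := hE2 hka (hηb htτ)
  simp only at hfin
  refine ⟨k, c, hc, s * x, hfin.2.2, hfin.1, (hiff c hc).2 hx3, ?_⟩
  intro i hi hic
  by_cases hiG : i ∈ G
  · exact (hiff2 i hiG).2 (hx1 i hiG hic)
  · exact hfin.2.1 i hi hiG

/-- the base time of the coordinate `c` -/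
noncomputable def bt (v : Fin n → ℝ) (t₁ t₂ : ℝ) (c : Fin n) : ℝ := if 0 < v c then t₁ else t₂

theorem base_le {a v : Fin n → ℝ} (hv : ∀ i, v i ≠ 0) {t₁ t₂ : ℝ} (h12 : t₁ < t₂) (c c' : Fin n) :
    a c + bt v t₁ t₂ c * v c ≤ a c + bt v t₁ t₂ c' * v c := by
  unfold bt
  rcases lt_or_gt_of_ne (hv c) with h | h
  · rw [if_neg (not_lt.2 h.le)]
    split_ifs
    · nlinarith
    · exact le_rfl
  · rw [if_pos h]
    split_ifs
    · exact le_rfl
    · nlinarith

/-- **Selection**: a point on a line for every coordinate of `T`, which is below all the other points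
in this coordinate. -/
theorem select {a v : Fin n → ℝ} {A W : ℕ → Fin n → ℝ}
    (hA : ∀ i, Tendsto (fun k => A k i) atTop (𝓝 (a i)))
    (hW : ∀ i, Tendsto (fun k => W k i) atTop (𝓝 (v i))) (hv : ∀ i, v i ≠ 0)
    {t₁ t₂ : ℝ} (h0 : 0 < t₁) (h12 : t₁ < t₂) (h1 : t₂ < 1)
    (hd1 : ∀ k, ∀ i j, 0 < v i → 0 < v j → i ≠ j →
      (a i + t₁ * v i - A k i) * W k j ≠ (a j + t₁ * v j - A k j) * W k i)
    (hd2 : ∀ k, ∀ i j, v i < 0 → v j < 0 → i ≠ j →
      (a i + t₂ * v i - A k i) * W k j ≠ (a j + t₂ * v j - A k j) * W k i) :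
    ∀ (N : ℕ) (T : Finset (Fin n)), T.card = N → ∀ ε : ℝ, 0 < ε →
      ∃ (k : Fin n → ℕ) (t : Fin n → ℝ),
        (∀ c ∈ T, (0 < t c ∧ t c < 1) ∧
          ∀ i, |pt (A (k c)) (W (k c)) (t c) i - pt a v (bt v t₁ t₂ c) i| < ε) ∧
        ∀ c ∈ T, ∀ c' ∈ T, c ≠ c' →
          pt (A (k c)) (W (k c)) (t c) c < pt (A (k c')) (W (k c')) (t c') c := by
  classical
  intro N
  induction N with
  | zero =>
    intro T hT ε _
    rw [Finset.card_eq_zero] at hT
    rw [hT]
    exact ⟨fun _ => 0, fun _ => 0, by simp, by simp⟩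
  | succ N ih =>
    intro T hT ε hε
    have hTne : T.Nonempty := by
      rw [← Finset.card_pos, hT]; omega
    -- the first line
    have hfirst : ∃ k, ∃ c ∈ T, ∃ t, (0 < t ∧ t < 1) ∧
        (∀ i, |pt (A k) (W k) t i - pt a v (bt v t₁ t₂ c) i| < ε) ∧
        pt (A k) (W k) t c < a c + bt v t₁ t₂ c * v c ∧
        ∀ i ∈ T, i ≠ c → a i + bt v t₁ t₂ i * v i < pt (A k) (W k) t i := by
      by_cases hpos : (T.filter (fun i => 0 < v i)).Nonempty
      · obtain ⟨k, c, hc, t, ht, h2, h3, h4⟩ := pick (T := T) (G := T.filter (fun i => 0 < v i))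
          hpos (s := 1) (Or.inl rfl) (a := a) (v := v) (b := fun i => a i + bt v t₁ t₂ i * v i)
          (A := A) (W := W) hA hW (by
            intro i hi
            rw [one_mul]; exact (Finset.mem_filter.1 hi).2) (τ := t₁) h0 (h12.trans h1) (by
            intro i hi
            simp only [bt]
            rw [if_pos (Finset.mem_filter.1 hi).2]) (by
            intro i hiT hi
            have hvi : v i < 0 := by
              rcases lt_or_gt_of_ne (hv i) with h | h
              · exact h
              · exact absurd (Finset.mem_filter.2 ⟨hiT, h⟩) hi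
            simp only [bt]
            rw [if_neg (not_lt.2 hvi.le)]
            nlinarith) (by
            intro k i hi j hj hij
            have hi' := (Finset.mem_filter.1 hi).2
            have hj' := (Finset.mem_filter.1 hj).2
            simp only [bt]
            rw [if_pos hi', if_pos hj']
            exact hd1 k i j hi' hj' hij) hε
        have hc' := Finset.mem_filter.1 hc
        refine ⟨k, c, hc'.1, t, ht, ?_, h3, h4⟩
        simp only [bt]
        rw [if_pos hc'.2]
        exact h2
      · have hneg : ∀ i ∈ T, v i < 0 := by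
          intro i hi
          rcases lt_or_gt_of_ne (hv i) with h | h
          · exact h
          · exact absurd ⟨i, Finset.mem_filter.2 ⟨hi, h⟩⟩ hpos
        obtain ⟨k, c, hc, t, ht, h2, h3, h4⟩ := pick (T := T) (G := T)
          hTne (s := -1) (Or.inr rfl) (a := a) (v := v) (b := fun i => a i + bt v t₁ t₂ i * v i)
          (A := A) (W := W) hA hW (by
            intro i hi
            have := hneg i hi
            linarith) (τ := t₂) (h0.trans h12) h1 (by
            intro i hi
            simp only [bt]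
            rw [if_neg (not_lt.2 (hneg i hi).le)]) (by
            intro i hiT hi
            exact absurd hiT hi) (by
            intro k i hi j hj hij
            simp only [bt]
            rw [if_neg (not_lt.2 (hneg i hi).le), if_neg (not_lt.2 (hneg j hj).le)]
            exact hd2 k i j (hneg i hi) (hneg j hj) hij) hε
        refine ⟨k, c, hc, t, ht, ?_, h3, h4⟩
        simp only [bt]
        rw [if_neg (not_lt.2 (hneg c hc).le)]
        exact h2
    obtain ⟨k₀, c₀, hc₀, t₀, ht₀, hclose, hbelow, habove⟩ := hfirst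
    -- the margin
    obtain ⟨ε', hε', hε'1, hε'2, hε'3⟩ : ∃ ε' : ℝ, 0 < ε' ∧ ε' ≤ ε ∧
        ε' ≤ (a c₀ + bt v t₁ t₂ c₀ * v c₀) - pt (A k₀) (W k₀) t₀ c₀ ∧
        ∀ i ∈ T, i ≠ c₀ → ε' ≤ pt (A k₀) (W k₀) t₀ i - (a i + bt v t₁ t₂ i * v i) := by
      have hev : ∀ᶠ x in 𝓝[>] (0 : ℝ), 0 < x ∧ x ≤ ε ∧
          x ≤ (a c₀ + bt v t₁ t₂ c₀ * v c₀) - pt (A k₀) (W k₀) t₀ c₀ ∧
          ∀ i ∈ T, i ≠ c₀ → x ≤ pt (A k₀) (W k₀) t₀ i - (a i + bt v t₁ t₂ i * v i) := by
        refine Eventually.and eventually_mem_nhdsWithin (Eventually.and ?_ (Eventually.and ?_ ?_))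
        · filter_upwards [Ioo_mem_nhdsGT hε] with x hx
          exact hx.2.le
        · filter_upwards [Ioo_mem_nhdsGT (sub_pos.2 hbelow)] with x hx
          exact hx.2.le
        · rw [Filter.eventually_all_finset]
          intro i hi
          by_cases hic : i = c₀
          · filter_upwards with x hx
            exact absurd hic hx
          · filter_upwards [Ioo_mem_nhdsGT (sub_pos.2 (habove i hi hic))] with x hx _
            exact hx.2.le
      exact hev.exists
    obtain ⟨k, t, hkt, hstrict⟩ := ih (T.erase c₀) (by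
      rw [Finset.card_erase_of_mem hc₀, hT]; rfl) ε' hε'
    refine ⟨Function.update k c₀ k₀, Function.update t c₀ t₀, ?_, ?_⟩
    · intro c hc
      by_cases hcc : c = c₀
      · rw [hcc, Function.update_self, Function.update_self]
        exact ⟨ht₀, hclose⟩
      · rw [Function.update_of_ne hcc, Function.update_of_ne hcc]
        have h2 := hkt c (Finset.mem_erase.2 ⟨hcc, hc⟩)
        exact ⟨h2.1, fun i => (h2.2 i).trans_le hε'1⟩
    · intro c hc c' hc' hcc'
      by_cases h2 : c = c₀
      · have h3 : c' ≠ c₀ := fun h => hcc' (by rw [h2, h])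
        rw [h2, Function.update_self, Function.update_self, Function.update_of_ne h3,
          Function.update_of_ne h3]
        have h4 := (hkt c' (Finset.mem_erase.2 ⟨h3, hc'⟩)).2 c₀
        rw [abs_lt] at h4
        have h5 := base_le hv h12 (a := a) c₀ c'
        have h6 : pt a v (bt v t₁ t₂ c') c₀ = a c₀ + bt v t₁ t₂ c' * v c₀ := rfl
        linarith [h4.1]
      · by_cases h3 : c' = c₀
        · rw [h3, Function.update_self, Function.update_self, Function.update_of_ne h2,
            Function.update_of_ne h2]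
          have h4 := (hkt c (Finset.mem_erase.2 ⟨h2, hc⟩)).2 c
          rw [abs_lt] at h4
          have h5 := hε'3 c hc h2
          have h6 : pt a v (bt v t₁ t₂ c) c = a c + bt v t₁ t₂ c * v c := rfl
          linarith [h4.2]
        · rw [Function.update_of_ne h2, Function.update_of_ne h2, Function.update_of_ne h3,
            Function.update_of_ne h3]
          exact hstrict c (Finset.mem_erase.2 ⟨h2, hc⟩) c' (Finset.mem_erase.2 ⟨h3, hc'⟩) hcc'

end Pool.Agent.Helper634ord.Kak
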