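import Mathlib
import Pool.Agent.Helper634ord.OrdOp
import Pool.Agent.Helper634ord.Count
import Pool.Agent.Helper634ord.Kak1

/-!
# Segments in sets closed under an order operation: interior points (helper634)
-/

set_option autoImplicit false

namespace Pool.Agent.Helper634ord.Kak

open Filter Topology

variable {n : ℕ}

/-- minima of several points -/
theorem inf_mem {K : Set (Fin n → ℝ)} {z : Fin n → ℝ}
    (hK : ∀ x ∈ K, ∀ y ∈ K, (∀ i, z i < x i) → (∀ i, z i < y i) → (fun i => min (x i) (y i)) ∈ K)
    {p : Fin n → Fin n → ℝ} (hp : ∀ c, p c ∈ K) (hz : ∀ c i, z i < p c i)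
    (S : Finset (Fin n)) (hS : S.Nonempty) : (fun i => S.inf' hS (fun c => p c i)) ∈ K := by
  classical
  induction hS using Finset.Nonempty.cons_induction with
  | singleton c => simpa using hp c
  | cons c S hc hS ih =>
    have h1 : (fun i => (Finset.cons c S hc).inf' (Finset.cons_nonempty hc) (fun c => p c i)) =
        fun i => min (p c i) (S.inf' hS (fun c => p c i)) := by
      funext i
      rw [Finset.inf'_cons hS]
    rw [h1]
    apply hK _ (hp c) _ ih (hz c)
    intro i
    rw [Finset.lt_inf'_iff]
    exact fun c _ => hz c i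

/-- **Core**: interior points -/
theorem core (hn : 1 ≤ n) {K : Set (Fin n → ℝ)} {z : Fin n → ℝ}
    (hK : ∀ x ∈ K, ∀ y ∈ K, (∀ i, z i < x i) → (∀ i, z i < y i) → (fun i => min (x i) (y i)) ∈ K)
    {a v : Fin n → ℝ} {A W : ℕ → Fin n → ℝ}
    (hA : ∀ i, Tendsto (fun k => A k i) atTop (𝓝 (a i)))
    (hW : ∀ i, Tendsto (fun k => W k i) atTop (𝓝 (v i))) (hv : ∀ i, v i ≠ 0)
    (hWne : ∀ k i, W k i ≠ 0) (hdist : ∀ k, ∀ i j, i ≠ j → v i * W k j ≠ v j * W k i)
    (hseg : ∀ k, ∀ t, 0 ≤ t → t ≤ 1 → pt (A k) (W k) t ∈ K)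
    (hz : ∀ i, ∀ t ∈ Set.Icc (1 / 4 : ℝ) 1, z i < a i + t * v i) : (interior K).Nonempty := by
  classical
  -- generic times
  set bad : Set ℝ := ⋃ (k : ℕ) (i : Fin n) (j : Fin n),
    {t : ℝ | i ≠ j ∧ (a i + t * v i - A k i) * W k j = (a j + t * v j - A k j) * W k i} with hbad
  have hcount : bad.Countable := by
    rw [hbad]
    refine Set.countable_iUnion (fun k => Set.countable_iUnion (fun i => Set.countable_iUnion
      (fun j => Set.Subsingleton.countable ?_)))
    rintro t ⟨hij, ht⟩ t' ⟨_, ht'⟩
    have h2 : (t - t') * (v i * W k j - v j * W k i) = 0 := by linarith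
    rcases mul_eq_zero.1 h2 with h | h
    · linarith
    · exact absurd (sub_eq_zero.1 h) (hdist k i j hij)
  have hdense : Dense badᶜ := hcount.dense_compl ℝ
  obtain ⟨t₁, ht₁b, ht₁⟩ := hdense.exists_between (show (1 / 4 : ℝ) < 1 / 2 by norm_num)
  obtain ⟨t₂, ht₂b, ht₂⟩ := hdense.exists_between (show (1 / 2 : ℝ) < 1 by norm_num)
  have hgood : ∀ t ∈ badᶜ, ∀ k, ∀ i j, i ≠ j →
      (a i + t * v i - A k i) * W k j ≠ (a j + t * v j - A k j) * W k i := by
    intro t ht k i j hij h
    apply ht
    rw [hbad]
    simp only [Set.mem_iUnion]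
    exact ⟨k, i, j, hij, h⟩
  -- the accuracy
  have hbt : ∀ c, bt v t₁ t₂ c ∈ Set.Icc (1 / 4 : ℝ) 1 := by
    intro c
    unfold bt
    split_ifs
    · exact ⟨ht₁.1.le, by linarith [ht₁.2]⟩
    · exact ⟨by linarith [ht₂.1], ht₂.2.le⟩
  obtain ⟨ε, hε, hεz⟩ : ∃ ε : ℝ, 0 < ε ∧ ∀ c i, ε < pt a v (bt v t₁ t₂ c) i - z i := by
    have hev : ∀ᶠ x in 𝓝[>] (0 : ℝ), 0 < x ∧ ∀ c i, x < pt a v (bt v t₁ t₂ c) i - z i := by
      refine Eventually.and eventually_mem_nhdsWithin ?_
      rw [eventually_all]; intro c
      rw [eventually_all]; intro i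
      have h2 : 0 < pt a v (bt v t₁ t₂ c) i - z i := sub_pos.2 (hz i _ (hbt c))
      filter_upwards [Ioo_mem_nhdsGT h2] with x hx
      exact hx.2
    exact hev.exists
  obtain ⟨k, t, hkt, hstrict⟩ := select hA hW hv (show 0 < t₁ by linarith [ht₁.1])
    (show t₁ < t₂ by linarith [ht₁.2, ht₂.1]) ht₂.2
    (fun k i j _ _ hij => hgood t₁ ht₁b k i j hij) (fun k i j _ _ hij => hgood t₂ ht₂b k i j hij)
    n Finset.univ (by simp) ε hε
  -- the open conditions
  have hcont : ∀ (c i : Fin n), Continuous (fun s : Fin n → ℝ => pt (A (k c)) (W (k c)) (s c) i) := by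
    intro c i
    unfold pt
    exact continuous_const.add ((continuous_apply c).mul continuous_const)
  have hopen : ∀ᶠ s in 𝓝 t, (∀ c, 0 < s c ∧ s c < 1) ∧
      (∀ c i, z i < pt (A (k c)) (W (k c)) (s c) i) ∧
      ∀ c c', c ≠ c' → pt (A (k c)) (W (k c)) (s c) c < pt (A (k c')) (W (k c')) (s c') c := by
    refine Eventually.and ?_ (Eventually.and ?_ ?_)
    · rw [eventually_all]; intro c
      have h2 := (hkt c (Finset.mem_univ c)).1
      have h3 : Tendsto (fun s : Fin n → ℝ => s c) (𝓝 t) (𝓝 (t c)) :=
        (continuous_apply c).tendsto t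
      exact (h3.eventually (lt_mem_nhds h2.1)).and (h3.eventually (gt_mem_nhds h2.2))
    · rw [eventually_all]; intro c
      rw [eventually_all]; intro i
      have h2 := (hkt c (Finset.mem_univ c)).2 i
      rw [abs_lt] at h2
      have h3 := hεz c i
      have h4 : z i < pt (A (k c)) (W (k c)) (t c) i := by linarith [h2.1]
      exact ((hcont c i).tendsto t).eventually (lt_mem_nhds h4)
    · rw [eventually_all]; intro c
      rw [eventually_all]; intro c'
      by_cases hcc : c = c'
      · filter_upwards with s hs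
        exact absurd hcc hs
      · have h2 := hstrict c (Finset.mem_univ c) c' (Finset.mem_univ c') hcc
        filter_upwards [(((hcont c c).prodMk (hcont c' c)).tendsto t).eventually
          ((isOpen_lt continuous_fst continuous_snd).mem_nhds h2)] with s hs _
        exact hs
  -- the chart
  set Ψ : (Fin n → ℝ) → Fin n → ℝ := fun y c => (y c - A (k c) c) / W (k c) c with hΨ
  have hΨc : Continuous Ψ := by
    rw [hΨ]
    exact continuous_pi (fun c => ((continuous_apply c).sub continuous_const).div_const _)
  set y₀ : Fin n → ℝ := fun c => pt (A (k c)) (W (k c)) (t c) c with hy₀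
  have hΨy : Ψ y₀ = t := by
    funext c
    rw [hΨ, hy₀]
    simp only [pt]
    have := hWne (k c) c
    field_simp
    ring
  have hev : ∀ᶠ y in 𝓝 y₀, y ∈ K := by
    have h2 : Tendsto Ψ (𝓝 y₀) (𝓝 t) := by
      have := hΨc.tendsto y₀
      rwa [hΨy] at this
    filter_upwards [h2.eventually hopen] with y hy
    obtain ⟨hy1, hy2, hy3⟩ := hy
    have h4 := inf_mem hK (p := fun c => pt (A (k c)) (W (k c)) (Ψ y c))
      (fun c => hseg (k c) _ (hy1 c).1.le (hy1 c).2.le) hy2 Finset.univ ⟨⟨0, hn⟩, Finset.mem_univ _⟩
    have h5 : (fun i => Finset.univ.inf' ⟨⟨0, hn⟩, Finset.mem_univ _⟩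
        (fun c => pt (A (k c)) (W (k c)) (Ψ y c) i)) = y := by
      funext i
      apply le_antisymm
      · refine (Finset.inf'_le _ (Finset.mem_univ i)).trans (le_of_eq ?_)
        rw [hΨ]
        simp only [pt]
        have := hWne (k i) i
        field_simp
        ring
      · have h6 : y i = pt (A (k i)) (W (k i)) (Ψ y i) i := by
          rw [hΨ]
          simp only [pt]
          have := hWne (k i) i
          field_simp
          ring
        rw [h6]
        apply Finset.le_inf'
        intro c _
        by_cases hci : i = c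
        · rw [hci]
        · exact (hy3 i c hci).le
    rw [h5] at h4
    exact h4
  exact ⟨y₀, mem_interior_iff_mem_nhds.2 hev⟩

theorem med_neg (a b c : ℝ) : med (-a) (-b) (-c) = -med a b c := by
  unfold med
  rcases le_total a b with h1 | h1 <;> rcases le_total a c with h2 | h2 <;>
    rcases le_total b c with h3 | h3 <;> simp [h1, h2, h3] <;> grind

theorem med_low {a b c : ℝ} (h1 : c ≤ a) (h2 : c ≤ b) : med a b c = min a b := by
  unfold med
  have e1 : min a c = c := min_eq_right h1
  have e2 : min b c = c := min_eq_right h2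
  have e3 : c ≤ min a b := le_min h1 h2
  rw [e1, e2, max_eq_left e3, max_eq_left e3]

/-- changing signs of coordinates -/
theorem flip {K : Set (Fin n → ℝ)} {s : Fin n → ℝ} (hs : ∀ i, s i * s i = 1)
    (h : (interior {x : Fin n → ℝ | (fun i => s i * x i) ∈ K}).Nonempty) :
    (interior K).Nonempty := by
  obtain ⟨x, hx⟩ := h
  rw [mem_interior_iff_mem_nhds] at hx
  have hc : Continuous (fun y : Fin n → ℝ => fun i => s i * y i) :=
    continuous_pi (fun i => continuous_const.mul (continuous_apply i))
  have h2 : Tendsto (fun y : Fin n → ℝ => fun i => s i * y i) (𝓝 (fun i => s i * x i)) (𝓝 x) := by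
    have h3 := hc.tendsto (fun i => s i * x i)
    have h4 : (fun i => s i * (s i * x i)) = x := by
      funext i
      rw [← mul_assoc, hs i, one_mul]
    simpa [h4] using h3
  refine ⟨fun i => s i * x i, mem_interior_iff_mem_nhds.2 ?_⟩
  filter_upwards [h2.eventually hx] with y hy
  have h5 : (fun i => s i * (s i * y i)) = y := by
    funext i
    rw [← mul_assoc, hs i, one_mul]
  have h6 : (fun i => s i * (s i * y i)) ∈ K := hy
  rwa [h5] at h6

/-- **Interior points of closed sets with many segments.** -/
theorem interior_of (hn : 1 ≤ n) {K : Set (Fin n → ℝ)}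
    (hK : (∀ x ∈ K, ∀ y ∈ K, (fun i => min (x i) (y i)) ∈ K) ∨
      (∀ x ∈ K, ∀ y ∈ K, (fun i => max (x i) (y i)) ∈ K) ∨
      (∀ x ∈ K, ∀ y ∈ K, ∀ z ∈ K, (fun i => med (x i) (y i) (z i)) ∈ K))
    {a v : Fin n → ℝ} {A W : ℕ → Fin n → ℝ}
    (hA : ∀ i, Tendsto (fun k => A k i) atTop (𝓝 (a i)))
    (hW : ∀ i, Tendsto (fun k => W k i) atTop (𝓝 (v i))) (hv : ∀ i, v i ≠ 0)
    (hWne : ∀ k i, W k i ≠ 0) (hdist : ∀ k, ∀ i j, i ≠ j → v i * W k j ≠ v j * W k i)
    (hseg : ∀ k, ∀ t, 0 ≤ t → t ≤ 1 → pt (A k) (W k) t ∈ K) : (interior K).Nonempty := by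
  classical
  rcases hK with h | h | h
  · apply core hn (K := K) (z := fun i => a i - |v i| - 1) (fun x hx y hy _ _ => h x hx y hy) hA hW hv
      hWne hdist hseg
    intro i t ht
    have h1 : |t * v i| ≤ |v i| := by
      rw [abs_mul, abs_of_nonneg (by linarith [ht.1])]
      calc t * |v i| ≤ 1 * |v i| := mul_le_mul_of_nonneg_right ht.2 (abs_nonneg _)
        _ = |v i| := one_mul _
    have h2 := neg_abs_le (t * v i)
    show a i - |v i| - 1 < a i + t * v i
    linarith
  · apply flip (s := fun _ => (-1 : ℝ)) (fun _ => by norm_num)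
    apply core hn (K := {x : Fin n → ℝ | (fun i => (-1 : ℝ) * x i) ∈ K})
      (z := fun i => -a i - |v i| - 1) (a := fun i => -a i) (v := fun i => -v i)
      (A := fun k i => -A k i) (W := fun k i => -W k i)
    · intro x hx y hy _ _
      have h2 := h _ hx _ hy
      have h3 : (fun i => (-1 : ℝ) * min (x i) (y i)) =
          fun i => max ((-1 : ℝ) * x i) ((-1 : ℝ) * y i) := by
        funext i
        rcases le_total (x i) (y i) with h4 | h4
        · rw [min_eq_left h4, max_eq_left (by linarith)]
        · rw [min_eq_right h4, max_eq_right (by linarith)]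
      show (fun i => (-1 : ℝ) * min (x i) (y i)) ∈ K
      rw [h3]
      exact h2
    · intro i; exact (hA i).neg
    · intro i; exact (hW i).neg
    · intro i; exact neg_ne_zero.2 (hv i)
    · intro k i; exact neg_ne_zero.2 (hWne k i)
    · intro k i j hij
      have := hdist k i j hij
      simpa using this
    · intro k t ht0 ht1
      have h2 := hseg k t ht0 ht1
      show (fun i => (-1 : ℝ) * pt (fun i => -A k i) (fun i => -W k i) t i) ∈ K
      have h3 : (fun i => (-1 : ℝ) * pt (fun i => -A k i) (fun i => -W k i) t i) =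
          pt (A k) (W k) t := by
        funext i
        simp only [pt]
        ring
      rw [h3]
      exact h2
    · intro i t ht
      have h1 : |t * v i| ≤ |v i| := by
        rw [abs_mul, abs_of_nonneg (by linarith [ht.1])]
        calc t * |v i| ≤ 1 * |v i| := mul_le_mul_of_nonneg_right ht.2 (abs_nonneg _)
          _ = |v i| := one_mul _
      have h2 := le_abs_self (t * v i)
      show -a i - |v i| - 1 < -a i + t * -v i
      linarith
  · -- medians: make the direction positive
    set s : Fin n → ℝ := fun i => if 0 < v i then 1 else -1 with hs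
    have hss : ∀ i, s i * s i = 1 := by
      intro i
      rw [hs]
      simp only
      split_ifs <;> norm_num
    have hspos : ∀ i, 0 < s i * v i := by
      intro i
      rw [hs]
      simp only
      rcases lt_or_gt_of_ne (hv i) with h2 | h2
      · rw [if_neg (not_lt.2 h2.le)]; linarith
      · rw [if_pos h2]; linarith
    have hs0 : ∀ i, s i ≠ 0 := by
      intro i hi
      have := hss i
      rw [hi] at this
      norm_num at this
    apply flip (s := s) hss
    -- the low point
    have hAs : ∀ i, Tendsto (fun k => s i * A k i) atTop (𝓝 (s i * a i)) := fun i =>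
      (hA i).const_mul (s i)
    obtain ⟨k₀, hk₀⟩ : ∃ k, ∀ i, s i * A k i < s i * a i + 1 / 4 * (s i * v i) := by
      have hev : ∀ᶠ k in atTop, ∀ i, s i * A k i < s i * a i + 1 / 4 * (s i * v i) := by
        rw [eventually_all]
        intro i
        exact (hAs i).eventually (gt_mem_nhds (by linarith [hspos i]))
      exact hev.exists
    apply core hn (K := {x : Fin n → ℝ | (fun i => s i * x i) ∈ K})
      (z := fun i => s i * A k₀ i) (a := fun i => s i * a i) (v := fun i => s i * v i)
      (A := fun k i => s i * A k i) (W := fun k i => s i * W k i)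
    · intro x hx y hy hzx hzy
      have hzK : A k₀ ∈ K := by
        have := hseg k₀ 0 le_rfl zero_le_one
        have h2 : pt (A k₀) (W k₀) 0 = A k₀ := by
          funext i; simp [pt]
        rwa [h2] at this
      have h2 := h _ hx _ hy _ hzK
      have h3 : (fun i => s i * min (x i) (y i)) = fun i => med (s i * x i) (s i * y i) (A k₀ i) := by
        funext i
        have h4 : A k₀ i = s i * (s i * A k₀ i) := by rw [← mul_assoc, hss i, one_mul]
        have h5 : med (x i) (y i) (s i * A k₀ i) = min (x i) (y i) :=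
          med_low (hzx i).le (hzy i).le
        rw [h4, ← h5]
        rcases (show s i = 1 ∨ s i = -1 by rw [hs]; simp only; split_ifs <;> simp) with h6 | h6
        · rw [h6]; simp
        · rw [h6]
          have h7 := med_neg (x i) (y i) (-1 * A k₀ i)
          simp only [neg_mul, one_mul, neg_neg] at h7 ⊢
          linarith
      show (fun i => s i * min (x i) (y i)) ∈ K
      rw [h3]
      exact h2
    · exact hAs
    · intro i; exact (hW i).const_mul (s i)
    · intro i; exact (hspos i).ne'
    · intro k i; exact mul_ne_zero (hs0 i) (hWne k i)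
    · intro k i j hij h2
      apply hdist k i j hij
      have h3 : s i * s j ≠ 0 := mul_ne_zero (hs0 i) (hs0 j)
      apply mul_left_cancel₀ h3
      linarith
    · intro k t ht0 ht1
      have h2 := hseg k t ht0 ht1
      show (fun i => s i * pt (fun i => s i * A k i) (fun i => s i * W k i) t i) ∈ K
      have h3 : (fun i => s i * pt (fun i => s i * A k i) (fun i => s i * W k i) t i) =
          pt (A k) (W k) t := by
        funext i
        simp only [pt]
        have := hss i
        calc s i * (s i * A k i + t * (s i * W k i)) = (s i * s i) * (A k i + t * W k i) := by ring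
          _ = A k i + t * W k i := by rw [this, one_mul]
      rw [h3]
      exact h2
    · intro i t ht
      have h1 := hk₀ i
      have h2 := hspos i
      have h3 : 1 / 4 * (s i * v i) ≤ t * (s i * v i) := mul_le_mul_of_nonneg_right ht.1 h2.le
      show s i * A k₀ i < s i * a i + t * (s i * v i)
      linarith

end Pool.Agent.Helper634ord.Kak
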