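import Mathlib
import Pool.Agent.Helper634ord.Box
import Pool.Agent.Helper634ord.Kak2

/-!
# Sets of directions of positive measure (helper634)
-/

set_option autoImplicit false

namespace Pool.Agent.Helper634ord.Kak

open Filter Topology MeasureTheory Metric

variable {n : ℕ}

/-- a nonzero linear functional vanishes on a null set only -/
theorem null_ker (L : EuclideanSpace ℝ (Fin n) →ₗ[ℝ] ℝ) (hL : L ≠ 0) :
    volume {x : EuclideanSpace ℝ (Fin n) | L x = 0} = 0 := by
  have h := Measure.addHaar_submodule (volume : Measure (EuclideanSpace ℝ (Fin n)))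
    (LinearMap.ker L) (by
      intro h
      exact hL (LinearMap.ker_eq_top.1 h))
  exact h

/-- the coordinate functional of a basis -/
noncomputable def coordL (b : OrthonormalBasis (Fin n) ℝ (EuclideanSpace ℝ (Fin n))) (i : Fin n) :
    EuclideanSpace ℝ (Fin n) →ₗ[ℝ] ℝ where
  toFun x := b.repr x i
  map_add' x y := by simp
  map_smul' c x := by simp

theorem coordL_apply (b : OrthonormalBasis (Fin n) ℝ (EuclideanSpace ℝ (Fin n))) (i : Fin n)
    (x : EuclideanSpace ℝ (Fin n)) : coordL b i x = b.repr x i := rfl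

theorem coordL_self (b : OrthonormalBasis (Fin n) ℝ (EuclideanSpace ℝ (Fin n))) (i j : Fin n) :
    coordL b i (b j) = if i = j then 1 else 0 := by
  rw [coordL_apply, b.repr_self]
  simp

/-- the core for a sequence of sets -/
theorem family (hn : 1 ≤ n) {K : ℕ → Set (EuclideanSpace ℝ (Fin n))}
    (b : ℕ → OrthonormalBasis (Fin n) ℝ (EuclideanSpace ℝ (Fin n)))
    (hK : ∀ j, LCS ((fun x : EuclideanSpace ℝ (Fin n) => fun i => (b j).repr x i) '' K j))
    {S : Set (EuclideanSpace ℝ (Fin n))} (hS : volume S ≠ 0)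
    (hseg : ∀ e ∈ S, ∃ j, ∃ a : EuclideanSpace ℝ (Fin n), ∃ ρ : ℝ, 0 < ρ ∧
      ∀ t ∈ Set.Icc (0 : ℝ) ρ, a + t • e ∈ K j) : ∃ j, (interior (K j)).Nonempty := by
  classical
  -- one class of positive measure
  set C : ℕ → ℕ → Set (EuclideanSpace ℝ (Fin n)) := fun j N =>
    {e | e ∈ S ∧ ∃ a : EuclideanSpace ℝ (Fin n), ‖a‖ ≤ N ∧
      ∀ t ∈ Set.Icc (0 : ℝ) (1 / ((N : ℝ) + 1)), a + t • e ∈ K j} with hC
  have hcov : S ⊆ ⋃ (j : ℕ) (N : ℕ), C j N := by
    intro e he
    obtain ⟨j, a, ρ, hρ, h⟩ := hseg e he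
    obtain ⟨N₁, hN₁⟩ := exists_nat_ge ‖a‖
    obtain ⟨N₂, hN₂⟩ := exists_nat_one_div_lt hρ
    simp only [Set.mem_iUnion]
    refine ⟨j, max N₁ N₂, he, a, ?_, ?_⟩
    · exact hN₁.trans (by exact_mod_cast le_max_left N₁ N₂)
    · intro t ht
      apply h t
      refine ⟨ht.1, ht.2.trans ?_⟩
      have h2 : ((N₂ : ℝ) + 1) ≤ ((max N₁ N₂ : ℕ) : ℝ) + 1 := by
        have : (N₂ : ℝ) ≤ ((max N₁ N₂ : ℕ) : ℝ) := by exact_mod_cast le_max_right N₁ N₂
        linarith
      exact (one_div_le_one_div_of_le (by positivity) h2).trans hN₂.le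
  obtain ⟨j, N, hjN⟩ : ∃ j N, volume (C j N) ≠ 0 := by
    by_contra hcon
    push Not at hcon
    apply hS
    apply measure_mono_null hcov
    rw [measure_iUnion_null_iff]
    intro j
    rw [measure_iUnion_null_iff]
    intro N
    exact hcon j N
  refine ⟨j, ?_⟩
  set β := b j with hβ
  set ρ : ℝ := 1 / ((N : ℝ) + 1) with hρ
  have hρ0 : 0 < ρ := by positivity
  -- remove the coordinate hyperplanes
  set Z : Set (EuclideanSpace ℝ (Fin n)) := ⋃ i, {x | coordL β i x = 0} with hZ
  have hZ0 : volume Z = 0 := by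
    rw [hZ, measure_iUnion_null_iff]
    intro i
    apply null_ker
    intro h
    have h2 := coordL_self β i i
    rw [h] at h2
    simp at h2
  have hS' : volume (C j N \ Z) ≠ 0 := by
    intro h
    apply hjN
    have h2 : C j N ⊆ (C j N \ Z) ∪ Z := by
      intro x hx
      by_cases hxZ : x ∈ Z
      · exact Or.inr hxZ
      · exact Or.inl ⟨hx, hxZ⟩
    exact measure_mono_null h2 (measure_union_null h hZ0)
  obtain ⟨e, heS, he⟩ := exists_mem_forall_mem_nhdsWithin_pos_measure hS'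
  have hene : ∀ i, β.repr e i ≠ 0 := by
    intro i hi
    apply heS.2
    rw [hZ]
    exact Set.mem_iUnion.2 ⟨i, hi⟩
  -- the generic nearby directions
  set Y : Set (EuclideanSpace ℝ (Fin n)) :=
    ⋃ (i : Fin n) (i' : Fin n), {x | i ≠ i' ∧
      (β.repr e i • coordL β i' - β.repr e i' • coordL β i) x = 0} with hY
  have hY0 : volume Y = 0 := by
    rw [hY, measure_iUnion_null_iff]
    intro i
    rw [measure_iUnion_null_iff]
    intro i'
    by_cases hii : i = i'
    · have h2 : {x : EuclideanSpace ℝ (Fin n) | i ≠ i' ∧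
          (β.repr e i • coordL β i' - β.repr e i' • coordL β i) x = 0} = ∅ := by
        ext x
        simp only [Set.mem_ofPred_eq, Set.mem_empty_iff_false, iff_false]
        exact fun h => h.1 hii
      rw [h2, measure_empty]
    · apply measure_mono_null (t := {x : EuclideanSpace ℝ (Fin n) |
          (β.repr e i • coordL β i' - β.repr e i' • coordL β i) x = 0}) (fun x hx => hx.2)
      apply null_ker
      intro h
      have h2 : (β.repr e i • coordL β i' - β.repr e i' • coordL β i) (β i') = 0 := by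
        rw [h]; rfl
      rw [LinearMap.sub_apply, LinearMap.smul_apply, LinearMap.smul_apply, coordL_self,
        coordL_self, if_pos rfl, if_neg hii] at h2
      simp at h2
      exact hene i h2
  have hpick : ∀ k : ℕ, ∃ x, x ∈ C j N \ Z ∧ x ∉ Y ∧ dist x e < 1 / ((k : ℝ) + 1) := by
    intro k
    have hk0 : (0 : ℝ) < 1 / ((k : ℝ) + 1) := by positivity
    have h2 : (C j N \ Z) ∩ ball e (1 / ((k : ℝ) + 1)) ∈ 𝓝[C j N \ Z] e :=
      inter_mem self_mem_nhdsWithin (mem_nhdsWithin_of_mem_nhds (ball_mem_nhds e hk0))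
    have h3 := he _ h2
    by_contra hcon
    push Not at hcon
    have h4 : (C j N \ Z) ∩ ball e (1 / ((k : ℝ) + 1)) ⊆ Y := by
      intro x hx
      by_contra hxY
      exact absurd (mem_ball.1 hx.2) (not_lt.2 (hcon x hx.1 hxY))
    exact h3.ne' (measure_mono_null h4 hY0)
  choose w hwS hwY hwd using hpick
  have hwC : ∀ k, w k ∈ C j N := fun k => (hwS k).1
  choose α hαN hα using fun k => (hwC k).2
  obtain ⟨a, _, φ, hφ, hφa⟩ := tendsto_subseq_of_bounded (s := closedBall
    (0 : EuclideanSpace ℝ (Fin n)) N) isBounded_closedBall (x := α)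
    (fun k => by rw [mem_closedBall, dist_zero_right]; exact hαN k)
  have hwe : Tendsto w atTop (𝓝 e) := by
    rw [tendsto_iff_dist_tendsto_zero]
    exact squeeze_zero (fun k => dist_nonneg) (fun k => (hwd k).le)
      tendsto_one_div_add_atTop_nhds_zero_nat
  have hwφ : Tendsto (fun k => w (φ k)) atTop (𝓝 e) := hwe.comp hφ.tendsto_atTop
  have hcoord : ∀ i, Continuous (fun x : EuclideanSpace ℝ (Fin n) => β.repr x i) := by
    intro i
    have h2 : Continuous (fun x : EuclideanSpace ℝ (Fin n) => x i) := by fun_prop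
    exact h2.comp β.repr.continuous
  set Θ : EuclideanSpace ℝ (Fin n) → Fin n → ℝ := fun x i => β.repr x i with hΘ
  have hΘc : Continuous Θ := continuous_pi hcoord
  have hΘi : Function.Injective Θ := by
    intro x y hxy
    apply β.repr.injective
    ext i
    exact congrFun hxy i
  have hint := interior_of hn (K := Θ '' K j) (hK j)
    (a := fun i => β.repr a i) (v := fun i => ρ * β.repr e i)
    (A := fun k i => β.repr (α (φ k)) i) (W := fun k i => ρ * β.repr (w (φ k)) i)
    (fun i => ((hcoord i).tendsto a).comp hφa)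
    (fun i => (((hcoord i).tendsto e).comp hwφ).const_mul ρ)
    (fun i => mul_ne_zero hρ0.ne' (hene i))
    (fun k i => mul_ne_zero hρ0.ne' (by
      intro h
      apply (hwS (φ k)).2
      rw [hZ]
      exact Set.mem_iUnion.2 ⟨i, h⟩))
    (by
      intro k i i' hii h
      apply hwY (φ k)
      rw [hY]
      simp only [Set.mem_iUnion]
      refine ⟨i, i', hii, ?_⟩
      rw [LinearMap.sub_apply, LinearMap.smul_apply, LinearMap.smul_apply, coordL_apply,
        coordL_apply, smul_eq_mul, smul_eq_mul, sub_eq_zero]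
      have hρ2 : ρ * ρ ≠ 0 := mul_ne_zero hρ0.ne' hρ0.ne'
      apply mul_left_cancel₀ hρ2
      linarith)
    (by
      intro k t ht0 ht1
      refine ⟨α (φ k) + (t * ρ) • w (φ k), hα (φ k) (t * ρ) ⟨by positivity, ?_⟩, ?_⟩
      · calc t * ρ ≤ 1 * ρ := mul_le_mul_of_nonneg_right ht1 hρ0.le
          _ = 1 / ((N : ℝ) + 1) := by rw [one_mul, hρ]
      · funext i
        rw [hΘ]
        simp only [pt, map_add, map_smul, PiLp.add_apply, PiLp.smul_apply, smul_eq_mul]
        ring)
  obtain ⟨y, hy⟩ := hint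
  obtain ⟨x, hx, hxy⟩ := interior_subset hy
  refine ⟨x, mem_interior_iff_mem_nhds.2 ?_⟩
  rw [mem_interior_iff_mem_nhds, ← hxy] at hy
  filter_upwards [(hΘc.tendsto x).eventually hy] with x' hx'
  obtain ⟨x'', hx'', he'⟩ := hx'
  rwa [← hΘi he']

/-- a segment covered by countably many closed sets has a subsegment in one of them -/
theorem baire_segment {K : ℕ → Set (EuclideanSpace ℝ (Fin n))} (hK : ∀ j, IsClosed (K j))
    {e a : EuclideanSpace ℝ (Fin n)} {ρ : ℝ} (hρ : 0 < ρ)
    (h : ∀ t ∈ Set.Icc (0 : ℝ) ρ, a + t • e ∈ ⋃ j, K j) :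
    ∃ j, ∃ a' : EuclideanSpace ℝ (Fin n), ∃ ρ' : ℝ, 0 < ρ' ∧
      ∀ t ∈ Set.Icc (0 : ℝ) ρ', a' + t • e ∈ K j := by
  have hcomp : CompleteSpace (Set.Icc (0 : ℝ) ρ) := isClosed_Icc.completeSpace_coe
  have hne : Nonempty (Set.Icc (0 : ℝ) ρ) := ⟨⟨0, le_rfl, hρ.le⟩⟩
  have hcont : Continuous (fun t : Set.Icc (0 : ℝ) ρ => a + (t : ℝ) • e) := by fun_prop
  obtain ⟨j, u, hu⟩ := nonempty_interior_of_iUnion_of_closed
    (f := fun j => {t : Set.Icc (0 : ℝ) ρ | a + (t : ℝ) • e ∈ K j})
    (fun j => (hK j).preimage hcont) (by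
      ext t
      simp only [Set.mem_iUnion, Set.mem_ofPred_eq, Set.mem_univ, iff_true]
      exact Set.mem_iUnion.1 (h t t.2))
  rw [mem_interior_iff_mem_nhds, Metric.mem_nhds_iff] at hu
  obtain ⟨δ, hδ, hball⟩ := hu
  have hin : ∀ s : ℝ, 0 ≤ s → s ≤ ρ → |s - u| < δ → a + s • e ∈ K j := by
    intro s hs0 hs1 hs
    have h2 : (⟨s, hs0, hs1⟩ : Set.Icc (0 : ℝ) ρ) ∈ ball u δ := by
      rw [mem_ball, Subtype.dist_eq, Real.dist_eq]
      exact hs
    exact hball h2
  have hu0 := u.2.1
  have hu1 := u.2.2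
  refine ⟨j, ?_⟩
  rcases lt_or_ge (u : ℝ) ρ with hlt | hge
  · refine ⟨a + (u : ℝ) • e, min (δ / 2) (ρ - u), lt_min (by linarith) (by linarith), ?_⟩
    intro t ht
    have h3 : a + (u : ℝ) • e + t • e = a + ((u : ℝ) + t) • e := by rw [add_smul, add_assoc]
    rw [h3]
    have h4 := ht.2.trans (min_le_left _ _)
    have h5 := ht.2.trans (min_le_right _ _)
    apply hin _ (by linarith [ht.1]) (by linarith)
    rw [abs_lt]
    constructor <;> linarith [ht.1]
  · have hmin : 0 < min (δ / 2) ρ := lt_min (by linarith) hρ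
    refine ⟨a + ((u : ℝ) - min (δ / 2) ρ) • e, min (δ / 2) ρ, hmin, ?_⟩
    intro t ht
    have h3 : a + ((u : ℝ) - min (δ / 2) ρ) • e + t • e =
        a + ((u : ℝ) - min (δ / 2) ρ + t) • e := by rw [add_smul _ t, add_assoc]
    rw [h3]
    have h4 := min_le_left (δ / 2) ρ
    have h5 := min_le_right (δ / 2) ρ
    apply hin _ (by linarith [ht.1]) (by linarith [ht.2])
    rw [abs_lt]
    constructor <;> linarith [ht.1, ht.2]

end Pool.Agent.Helper634ord.Kak
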