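import Mathlib
import Pool.Agent.Helper634ord.Kak3

/-!
# Minima of `n` points of an arbitrary set with many segments (helper634)
-/

set_option autoImplicit false

namespace Pool.Agent.Helper634ord.Kak

open Filter Topology MeasureTheory Metric

variable {n : ℕ}

/-- **Core without closure**: minima of `n` points fill a box -/
theorem core0 {K : Set (Fin n → ℝ)}
    {a v : Fin n → ℝ} {A W : ℕ → Fin n → ℝ}
    (hA : ∀ i, Tendsto (fun k => A k i) atTop (𝓝 (a i)))
    (hW : ∀ i, Tendsto (fun k => W k i) atTop (𝓝 (v i))) (hv : ∀ i, v i ≠ 0)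
    (hWne : ∀ k i, W k i ≠ 0) (hdist : ∀ k, ∀ i j, i ≠ j → v i * W k j ≠ v j * W k i)
    (hseg : ∀ k, ∀ t, 0 ≤ t → t ≤ 1 → pt (A k) (W k) t ∈ K) :
    ∃ y₀ : Fin n → ℝ, ∀ᶠ y in 𝓝 y₀, ∃ p : Fin n → Fin n → ℝ, (∀ c, p c ∈ K) ∧
      ∀ i, y i = p i i ∧ ∀ c, y i ≤ p c i := by
  classical
  -- generic times
  set bad : Set ℝ := ⋃ (k : ℕ) (i : Fin n) (j : Fin n),
    {t : ℝ | i ≠ j ∧ (a i + t * v i - A k i) * W k j = (a j + t * v j - A k j) * W k i} with hbad
  have hcount : bad.Countable := by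
    rw [hbad]
    refine Set.countable_iUnion (fun k => Set.countable_iUnion (fun i => Set.countable_iUnion
      (fun j => Set.Subsingleton.countable ?_)))
    rintro t ⟨hij, ht⟩ t' ⟨_, ht'⟩
    have h2 : (t - t') * (v i * W k j - v j * W k i) = 0 := by linarith
    rcases mul_eq_zero.1 h2 with h | h
    · linarith
    · exact absurd (sub_eq_zero.1 h) (hdist k i j hij)
  have hdense : Dense badᶜ := hcount.dense_compl ℝ
  obtain ⟨t₁, ht₁b, ht₁⟩ := hdense.exists_between (show (1 / 4 : ℝ) < 1 / 2 by norm_num)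
  obtain ⟨t₂, ht₂b, ht₂⟩ := hdense.exists_between (show (1 / 2 : ℝ) < 1 by norm_num)
  have hgood : ∀ t ∈ badᶜ, ∀ k, ∀ i j, i ≠ j →
      (a i + t * v i - A k i) * W k j ≠ (a j + t * v j - A k j) * W k i := by
    intro t ht k i j hij h
    apply ht
    rw [hbad]
    simp only [Set.mem_iUnion]
    exact ⟨k, i, j, hij, h⟩
  obtain ⟨k, t, hkt, hstrict⟩ := select hA hW hv (show 0 < t₁ by linarith [ht₁.1])
    (show t₁ < t₂ by linarith [ht₁.2, ht₂.1]) ht₂.2
    (fun k i j _ _ hij => hgood t₁ ht₁b k i j hij) (fun k i j _ _ hij => hgood t₂ ht₂b k i j hij)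
    n Finset.univ (by simp) 1 one_pos
  -- the open conditions
  have hcont : ∀ (c i : Fin n), Continuous (fun s : Fin n → ℝ => pt (A (k c)) (W (k c)) (s c) i) := by
    intro c i
    unfold pt
    exact continuous_const.add ((continuous_apply c).mul continuous_const)
  have hopen : ∀ᶠ s in 𝓝 t, (∀ c, 0 < s c ∧ s c < 1) ∧
      ∀ c c', c ≠ c' → pt (A (k c)) (W (k c)) (s c) c < pt (A (k c')) (W (k c')) (s c') c := by
    refine Eventually.and ?_ ?_
    · rw [eventually_all]; intro c
      have h2 := (hkt c (Finset.mem_univ c)).1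
      have h3 : Tendsto (fun s : Fin n → ℝ => s c) (𝓝 t) (𝓝 (t c)) :=
        (continuous_apply c).tendsto t
      exact (h3.eventually (lt_mem_nhds h2.1)).and (h3.eventually (gt_mem_nhds h2.2))
    · rw [eventually_all]; intro c
      rw [eventually_all]; intro c'
      by_cases hcc : c = c'
      · filter_upwards with s hs
        exact absurd hcc hs
      · have h2 := hstrict c (Finset.mem_univ c) c' (Finset.mem_univ c') hcc
        filter_upwards [(((hcont c c).prodMk (hcont c' c)).tendsto t).eventually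
          ((isOpen_lt continuous_fst continuous_snd).mem_nhds h2)] with s hs _
        exact hs
  -- the chart
  set Ψ : (Fin n → ℝ) → Fin n → ℝ := fun y c => (y c - A (k c) c) / W (k c) c with hΨ
  have hΨc : Continuous Ψ := by
    rw [hΨ]
    exact continuous_pi (fun c => ((continuous_apply c).sub continuous_const).div_const _)
  set y₀ : Fin n → ℝ := fun c => pt (A (k c)) (W (k c)) (t c) c with hy₀
  have hΨy : Ψ y₀ = t := by
    funext c
    rw [hΨ, hy₀]
    simp only [pt]
    have := hWne (k c) c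
    field_simp
    ring
  have h2 : Tendsto Ψ (𝓝 y₀) (𝓝 t) := by
    have := hΨc.tendsto y₀
    rwa [hΨy] at this
  have hdiag : ∀ (y : Fin n → ℝ) (i : Fin n), y i = pt (A (k i)) (W (k i)) (Ψ y i) i := by
    intro y i
    rw [hΨ]
    simp only [pt]
    have := hWne (k i) i
    field_simp
    ring
  refine ⟨y₀, ?_⟩
  filter_upwards [h2.eventually hopen] with y hy
  obtain ⟨hy1, hy3⟩ := hy
  refine ⟨fun c => pt (A (k c)) (W (k c)) (Ψ y c),
    fun c => hseg (k c) _ (hy1 c).1.le (hy1 c).2.le, fun i => ⟨hdiag y i, fun c => ?_⟩⟩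
  rw [hdiag y i]
  by_cases hci : i = c
  · rw [hci]
  · exact (hy3 i c hci).le

/-- limits of segments in one set of a sequence -/
theorem family0 {K : ℕ → Set (EuclideanSpace ℝ (Fin n))}
    (b : ℕ → OrthonormalBasis (Fin n) ℝ (EuclideanSpace ℝ (Fin n)))
    {S : Set (EuclideanSpace ℝ (Fin n))} (hS : volume S ≠ 0)
    (hseg : ∀ e ∈ S, ∃ j, ∃ a : EuclideanSpace ℝ (Fin n), ∃ ρ : ℝ, 0 < ρ ∧
      ∀ t ∈ Set.Icc (0 : ℝ) ρ, a + t • e ∈ K j) :
    ∃ j, ∃ (a v : Fin n → ℝ) (A W : ℕ → Fin n → ℝ),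
      (∀ i, Tendsto (fun k => A k i) atTop (𝓝 (a i))) ∧
      (∀ i, Tendsto (fun k => W k i) atTop (𝓝 (v i))) ∧ (∀ i, v i ≠ 0) ∧
      (∀ k i, W k i ≠ 0) ∧ (∀ k, ∀ i j, i ≠ j → v i * W k j ≠ v j * W k i) ∧
      ∀ k, ∀ t, 0 ≤ t → t ≤ 1 → pt (A k) (W k) t ∈
        (fun x : EuclideanSpace ℝ (Fin n) => fun i => (b j).repr x i) '' K j := by
  classical
  -- one class of positive measure
  set C : ℕ → ℕ → Set (EuclideanSpace ℝ (Fin n)) := fun j N =>
    {e | e ∈ S ∧ ∃ a : EuclideanSpace ℝ (Fin n), ‖a‖ ≤ N ∧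
      ∀ t ∈ Set.Icc (0 : ℝ) (1 / ((N : ℝ) + 1)), a + t • e ∈ K j} with hC
  have hcov : S ⊆ ⋃ (j : ℕ) (N : ℕ), C j N := by
    intro e he
    obtain ⟨j, a, ρ, hρ, h⟩ := hseg e he
    obtain ⟨N₁, hN₁⟩ := exists_nat_ge ‖a‖
    obtain ⟨N₂, hN₂⟩ := exists_nat_one_div_lt hρ
    simp only [Set.mem_iUnion]
    refine ⟨j, max N₁ N₂, he, a, ?_, ?_⟩
    · exact hN₁.trans (by exact_mod_cast le_max_left N₁ N₂)
    · intro t ht
      apply h t
      refine ⟨ht.1, ht.2.trans ?_⟩
      have h2 : ((N₂ : ℝ) + 1) ≤ ((max N₁ N₂ : ℕ) : ℝ) + 1 := by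
        have : (N₂ : ℝ) ≤ ((max N₁ N₂ : ℕ) : ℝ) := by exact_mod_cast le_max_right N₁ N₂
        linarith
      exact (one_div_le_one_div_of_le (by positivity) h2).trans hN₂.le
  obtain ⟨j, N, hjN⟩ : ∃ j N, volume (C j N) ≠ 0 := by
    by_contra hcon
    push Not at hcon
    apply hS
    apply measure_mono_null hcov
    rw [measure_iUnion_null_iff]
    intro j
    rw [measure_iUnion_null_iff]
    intro N
    exact hcon j N
  refine ⟨j, ?_⟩
  set β := b j with hβ
  set ρ : ℝ := 1 / ((N : ℝ) + 1) with hρ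
  have hρ0 : 0 < ρ := by positivity
  -- remove the coordinate hyperplanes
  set Z : Set (EuclideanSpace ℝ (Fin n)) := ⋃ i, {x | coordL β i x = 0} with hZ
  have hZ0 : volume Z = 0 := by
    rw [hZ, measure_iUnion_null_iff]
    intro i
    apply null_ker
    intro h
    have h2 := coordL_self β i i
    rw [h] at h2
    simp at h2
  have hS' : volume (C j N \ Z) ≠ 0 := by
    intro h
    apply hjN
    have h2 : C j N ⊆ (C j N \ Z) ∪ Z := by
      intro x hx
      by_cases hxZ : x ∈ Z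
      · exact Or.inr hxZ
      · exact Or.inl ⟨hx, hxZ⟩
    exact measure_mono_null h2 (measure_union_null h hZ0)
  obtain ⟨e, heS, he⟩ := exists_mem_forall_mem_nhdsWithin_pos_measure hS'
  have hene : ∀ i, β.repr e i ≠ 0 := by
    intro i hi
    apply heS.2
    rw [hZ]
    exact Set.mem_iUnion.2 ⟨i, hi⟩
  -- the generic nearby directions
  set Y : Set (EuclideanSpace ℝ (Fin n)) :=
    ⋃ (i : Fin n) (i' : Fin n), {x | i ≠ i' ∧
      (β.repr e i • coordL β i' - β.repr e i' • coordL β i) x = 0} with hY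
  have hY0 : volume Y = 0 := by
    rw [hY, measure_iUnion_null_iff]
    intro i
    rw [measure_iUnion_null_iff]
    intro i'
    by_cases hii : i = i'
    · have h2 : {x : EuclideanSpace ℝ (Fin n) | i ≠ i' ∧
          (β.repr e i • coordL β i' - β.repr e i' • coordL β i) x = 0} = ∅ := by
        ext x
        simp only [Set.mem_ofPred_eq, Set.mem_empty_iff_false, iff_false]
        exact fun h => h.1 hii
      rw [h2, measure_empty]
    · apply measure_mono_null (t := {x : EuclideanSpace ℝ (Fin n) |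
          (β.repr e i • coordL β i' - β.repr e i' • coordL β i) x = 0}) (fun x hx => hx.2)
      apply null_ker
      intro h
      have h2 : (β.repr e i • coordL β i' - β.repr e i' • coordL β i) (β i') = 0 := by
        rw [h]; rfl
      rw [LinearMap.sub_apply, LinearMap.smul_apply, LinearMap.smul_apply, coordL_self,
        coordL_self, if_pos rfl, if_neg hii] at h2
      simp at h2
      exact hene i h2
  have hpick : ∀ k : ℕ, ∃ x, x ∈ C j N \ Z ∧ x ∉ Y ∧ dist x e < 1 / ((k : ℝ) + 1) := by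
    intro k
    have hk0 : (0 : ℝ) < 1 / ((k : ℝ) + 1) := by positivity
    have h2 : (C j N \ Z) ∩ ball e (1 / ((k : ℝ) + 1)) ∈ 𝓝[C j N \ Z] e :=
      inter_mem self_mem_nhdsWithin (mem_nhdsWithin_of_mem_nhds (ball_mem_nhds e hk0))
    have h3 := he _ h2
    by_contra hcon
    push Not at hcon
    have h4 : (C j N \ Z) ∩ ball e (1 / ((k : ℝ) + 1)) ⊆ Y := by
      intro x hx
      by_contra hxY
      exact absurd (mem_ball.1 hx.2) (not_lt.2 (hcon x hx.1 hxY))
    exact h3.ne' (measure_mono_null h4 hY0)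
  choose w hwS hwY hwd using hpick
  have hwC : ∀ k, w k ∈ C j N := fun k => (hwS k).1
  choose α hαN hα using fun k => (hwC k).2
  obtain ⟨a, _, φ, hφ, hφa⟩ := tendsto_subseq_of_bounded (s := closedBall
    (0 : EuclideanSpace ℝ (Fin n)) N) isBounded_closedBall (x := α)
    (fun k => by rw [mem_closedBall, dist_zero_right]; exact hαN k)
  have hwe : Tendsto w atTop (𝓝 e) := by
    rw [tendsto_iff_dist_tendsto_zero]
    exact squeeze_zero (fun k => dist_nonneg) (fun k => (hwd k).le)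
      tendsto_one_div_add_atTop_nhds_zero_nat
  have hwφ : Tendsto (fun k => w (φ k)) atTop (𝓝 e) := hwe.comp hφ.tendsto_atTop
  have hcoord : ∀ i, Continuous (fun x : EuclideanSpace ℝ (Fin n) => β.repr x i) := by
    intro i
    have h2 : Continuous (fun x : EuclideanSpace ℝ (Fin n) => x i) := by fun_prop
    exact h2.comp β.repr.continuous
  set Θ : EuclideanSpace ℝ (Fin n) → Fin n → ℝ := fun x i => β.repr x i with hΘ
  have hΘc : Continuous Θ := continuous_pi hcoord
  have hΘi : Function.Injective Θ := by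
    intro x y hxy
    apply β.repr.injective
    ext i
    exact congrFun hxy i
  refine ⟨fun i => β.repr a i, fun i => ρ * β.repr e i,
    fun k i => β.repr (α (φ k)) i, fun k i => ρ * β.repr (w (φ k)) i,
    (fun i => ((hcoord i).tendsto a).comp hφa),
    (fun i => (((hcoord i).tendsto e).comp hwφ).const_mul ρ),
    (fun i => mul_ne_zero hρ0.ne' (hene i)),
    (fun k i => mul_ne_zero hρ0.ne' (by
      intro h
      apply (hwS (φ k)).2
      rw [hZ]
      exact Set.mem_iUnion.2 ⟨i, h⟩)), ?_, ?_⟩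
  · (
      intro k i i' hii h
      apply hwY (φ k)
      rw [hY]
      simp only [Set.mem_iUnion]
      refine ⟨i, i', hii, ?_⟩
      rw [LinearMap.sub_apply, LinearMap.smul_apply, LinearMap.smul_apply, coordL_apply,
        coordL_apply, smul_eq_mul, smul_eq_mul, sub_eq_zero]
      have hρ2 : ρ * ρ ≠ 0 := mul_ne_zero hρ0.ne' hρ0.ne'
      apply mul_left_cancel₀ hρ2
      linarith)
  · (
      intro k t ht0 ht1
      refine ⟨α (φ k) + (t * ρ) • w (φ k), hα (φ k) (t * ρ) ⟨by positivity, ?_⟩, ?_⟩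
      · calc t * ρ ≤ 1 * ρ := mul_le_mul_of_nonneg_right ht1 hρ0.le
          _ = 1 / ((N : ℝ) + 1) := by rw [one_mul, hρ]
      · funext i
        rw [hΘ]
        simp only [pt, map_add, map_smul, PiLp.add_apply, PiLp.smul_apply, smul_eq_mul]
        ring)


end Pool.Agent.Helper634ord.Kak
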