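import Mathlib
import Pool.Agent.Helper634ord.Kak4

/-!
# Direction sets which are not covered by countably many hyperplanes (helper634)
-/

set_option autoImplicit false

namespace Pool.Agent.Helper634ord.Kak

open Filter Topology MeasureTheory Metric

variable {n : ℕ}

/-- covered by countably many proper subspaces -/
def Small (A : Set (EuclideanSpace ℝ (Fin n))) : Prop :=
  ∃ H : ℕ → Submodule ℝ (EuclideanSpace ℝ (Fin n)), (∀ k, H k ≠ ⊤) ∧
    A ⊆ ⋃ k, (H k : Set (EuclideanSpace ℝ (Fin n)))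

theorem small_mono {A B : Set (EuclideanSpace ℝ (Fin n))} (h : A ⊆ B) (hB : Small B) : Small A := by
  obtain ⟨H, h1, h2⟩ := hB
  exact ⟨H, h1, h.trans h2⟩

theorem small_iUnion {A : ℕ → Set (EuclideanSpace ℝ (Fin n))} (h : ∀ k, Small (A k)) :
    Small (⋃ k, A k) := by
  choose H h1 h2 using h
  refine ⟨fun m => H (Nat.unpair m).1 (Nat.unpair m).2, fun m => h1 _ _, ?_⟩
  intro x hx
  obtain ⟨k, hk⟩ := Set.mem_iUnion.1 hx
  obtain ⟨l, hl⟩ := Set.mem_iUnion.1 (h2 k hk)
  refine Set.mem_iUnion.2 ⟨Nat.pair k l, ?_⟩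
  simpa using hl

theorem small_empty (hn : 1 ≤ n) : Small (∅ : Set (EuclideanSpace ℝ (Fin n))) := by
  refine ⟨fun _ => ⊥, fun _ => ?_, Set.empty_subset _⟩
  have hpos : 0 < Module.finrank ℝ (EuclideanSpace ℝ (Fin n)) := by
    rw [finrank_euclideanSpace, Fintype.card_fin]; omega
  have hnt : Nontrivial (EuclideanSpace ℝ (Fin n)) := Module.finrank_pos_iff.1 hpos
  exact bot_ne_top

theorem small_union {A B : Set (EuclideanSpace ℝ (Fin n))} (hA : Small A) (hB : Small B) :
    Small (A ∪ B) := by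
  have h : A ∪ B ⊆ ⋃ k : ℕ, (if k = 0 then A else B) := by
    rintro x (hx | hx)
    · exact Set.mem_iUnion.2 ⟨0, by simpa using hx⟩
    · exact Set.mem_iUnion.2 ⟨1, by simpa using hx⟩
  apply small_mono h
  apply small_iUnion
  intro k
  split_ifs
  · exact hA
  · exact hB

theorem small_countable (hn : 1 ≤ n) {ι : Type*} {t : Set ι} (ht : t.Countable)
    {A : ι → Set (EuclideanSpace ℝ (Fin n))} (h : ∀ i ∈ t, Small (A i)) :
    Small (⋃ i ∈ t, A i) := by
  rcases t.eq_empty_or_nonempty with h0 | hne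
  · rw [h0]
    simpa using small_empty hn
  · obtain ⟨f, hf⟩ := ht.exists_eq_range hne
    apply small_mono (B := ⋃ k : ℕ, A (f k))
    · intro x hx
      rw [Set.mem_iUnion₂] at hx
      obtain ⟨i, hi, hx⟩ := hx
      rw [hf] at hi
      obtain ⟨k, rfl⟩ := hi
      exact Set.mem_iUnion.2 ⟨k, hx⟩
    · apply small_iUnion
      intro k
      apply h
      rw [hf]
      exact ⟨k, rfl⟩

theorem small_finUnion (hn : 1 ≤ n) {A : Fin n → Set (EuclideanSpace ℝ (Fin n))}
    (h : ∀ i, Small (A i)) : Small (⋃ i, A i) := by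
  have h2 := small_countable hn (Set.countable_univ (α := Fin n)) (A := A) (fun i _ => h i)
  simpa using h2

theorem small_ker {L : EuclideanSpace ℝ (Fin n) →ₗ[ℝ] ℝ} (hL : L ≠ 0) :
    Small {x : EuclideanSpace ℝ (Fin n) | L x = 0} := by
  refine ⟨fun _ => LinearMap.ker L, fun _ h => hL (LinearMap.ker_eq_top.1 h), ?_⟩
  intro x hx
  exact Set.mem_iUnion.2 ⟨0, hx⟩

theorem small_point (hn : 1 ≤ n) {C : Set (EuclideanSpace ℝ (Fin n))} (hC : ¬ Small C) :
    ∃ e ∈ C, ∀ U ∈ 𝓝[C] e, ¬ Small U := by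
  by_contra hcon
  push Not at hcon
  choose! f hf hfs using hcon
  obtain ⟨t, htC, ht, hcov⟩ := TopologicalSpace.countable_cover_nhdsWithin (f := f) hf
  exact hC (small_mono hcov (small_countable hn ht (fun x hx => hfs x (htC hx))))

/-- small sets are null sets -/
theorem small_null {A : Set (EuclideanSpace ℝ (Fin n))} (hA : Small A) : volume A = 0 := by
  obtain ⟨H, h1, h2⟩ := hA
  apply measure_mono_null h2
  rw [measure_iUnion_null_iff]
  intro k
  exact Measure.addHaar_submodule volume (H k) (h1 k)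

/-- limits of segments in one set of a sequence; directions not covered by countably many proper
subspaces -/
theorem family1 (hn : 1 ≤ n) {K : ℕ → Set (EuclideanSpace ℝ (Fin n))}
    (b : ℕ → OrthonormalBasis (Fin n) ℝ (EuclideanSpace ℝ (Fin n)))
    {S : Set (EuclideanSpace ℝ (Fin n))} (hS : ¬ Small S)
    (hseg : ∀ e ∈ S, ∃ j, ∃ a : EuclideanSpace ℝ (Fin n), ∃ ρ : ℝ, 0 < ρ ∧
      ∀ t ∈ Set.Icc (0 : ℝ) ρ, a + t • e ∈ K j) :
    ∃ j, ∃ (a v : Fin n → ℝ) (A W : ℕ → Fin n → ℝ),
      (∀ i, Tendsto (fun k => A k i) atTop (𝓝 (a i))) ∧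
      (∀ i, Tendsto (fun k => W k i) atTop (𝓝 (v i))) ∧ (∀ i, v i ≠ 0) ∧
      (∀ k i, W k i ≠ 0) ∧ (∀ k, ∀ i j, i ≠ j → v i * W k j ≠ v j * W k i) ∧
      ∀ k, ∀ t, 0 ≤ t → t ≤ 1 → pt (A k) (W k) t ∈
        (fun x : EuclideanSpace ℝ (Fin n) => fun i => (b j).repr x i) '' K j := by
  classical
  -- one class of positive measure
  set C : ℕ → ℕ → Set (EuclideanSpace ℝ (Fin n)) := fun j N =>
    {e | e ∈ S ∧ ∃ a : EuclideanSpace ℝ (Fin n), ‖a‖ ≤ N ∧
      ∀ t ∈ Set.Icc (0 : ℝ) (1 / ((N : ℝ) + 1)), a + t • e ∈ K j} with hC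
  have hcov : S ⊆ ⋃ (j : ℕ) (N : ℕ), C j N := by
    intro e he
    obtain ⟨j, a, ρ, hρ, h⟩ := hseg e he
    obtain ⟨N₁, hN₁⟩ := exists_nat_ge ‖a‖
    obtain ⟨N₂, hN₂⟩ := exists_nat_one_div_lt hρ
    simp only [Set.mem_iUnion]
    refine ⟨j, max N₁ N₂, he, a, ?_, ?_⟩
    · exact hN₁.trans (by exact_mod_cast le_max_left N₁ N₂)
    · intro t ht
      apply h t
      refine ⟨ht.1, ht.2.trans ?_⟩
      have h2 : ((N₂ : ℝ) + 1) ≤ ((max N₁ N₂ : ℕ) : ℝ) + 1 := by
        have : (N₂ : ℝ) ≤ ((max N₁ N₂ : ℕ) : ℝ) := by exact_mod_cast le_max_right N₁ N₂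
        linarith
      exact (one_div_le_one_div_of_le (by positivity) h2).trans hN₂.le
  obtain ⟨j, N, hjN⟩ : ∃ j N, ¬ Small (C j N) := by
    by_contra hcon
    push Not at hcon
    apply hS
    exact small_mono hcov (small_iUnion (fun j => small_iUnion (fun N => hcon j N)))
  refine ⟨j, ?_⟩
  set β := b j with hβ
  set ρ : ℝ := 1 / ((N : ℝ) + 1) with hρ
  have hρ0 : 0 < ρ := by positivity
  -- remove the coordinate hyperplanes
  set Z : Set (EuclideanSpace ℝ (Fin n)) := ⋃ i, {x | coordL β i x = 0} with hZ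
  have hZ0 : Small Z := by
    rw [hZ]
    apply small_finUnion hn
    intro i
    apply small_ker
    intro h
    have h2 := coordL_self β i i
    rw [h] at h2
    simp at h2
  have hS' : ¬ Small (C j N \ Z) := by
    intro h
    apply hjN
    have h2 : C j N ⊆ (C j N \ Z) ∪ Z := by
      intro x hx
      by_cases hxZ : x ∈ Z
      · exact Or.inr hxZ
      · exact Or.inl ⟨hx, hxZ⟩
    exact small_mono h2 (small_union h hZ0)
  obtain ⟨e, heS, he⟩ := small_point hn hS'
  have hene : ∀ i, β.repr e i ≠ 0 := by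
    intro i hi
    apply heS.2
    rw [hZ]
    exact Set.mem_iUnion.2 ⟨i, hi⟩
  -- the generic nearby directions
  set Y : Set (EuclideanSpace ℝ (Fin n)) :=
    ⋃ (i : Fin n) (i' : Fin n), {x | i ≠ i' ∧
      (β.repr e i • coordL β i' - β.repr e i' • coordL β i) x = 0} with hY
  have hY0 : Small Y := by
    rw [hY]
    apply small_finUnion hn
    intro i
    apply small_finUnion hn
    intro i'
    by_cases hii : i = i'
    · have h2 : {x : EuclideanSpace ℝ (Fin n) | i ≠ i' ∧
          (β.repr e i • coordL β i' - β.repr e i' • coordL β i) x = 0} = ∅ := by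
        ext x
        simp only [Set.mem_ofPred_eq, Set.mem_empty_iff_false, iff_false]
        exact fun h => h.1 hii
      rw [h2]
      exact small_empty hn
    · apply small_mono (B := {x : EuclideanSpace ℝ (Fin n) |
          (β.repr e i • coordL β i' - β.repr e i' • coordL β i) x = 0}) (fun x hx => hx.2)
      apply small_ker
      intro h
      have h2 : (β.repr e i • coordL β i' - β.repr e i' • coordL β i) (β i') = 0 := by
        rw [h]; rfl
      rw [LinearMap.sub_apply, LinearMap.smul_apply, LinearMap.smul_apply, coordL_self,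
        coordL_self, if_pos rfl, if_neg hii] at h2
      simp at h2
      exact hene i h2
  have hpick : ∀ k : ℕ, ∃ x, x ∈ C j N \ Z ∧ x ∉ Y ∧ dist x e < 1 / ((k : ℝ) + 1) := by
    intro k
    have hk0 : (0 : ℝ) < 1 / ((k : ℝ) + 1) := by positivity
    have h2 : (C j N \ Z) ∩ ball e (1 / ((k : ℝ) + 1)) ∈ 𝓝[C j N \ Z] e :=
      inter_mem self_mem_nhdsWithin (mem_nhdsWithin_of_mem_nhds (ball_mem_nhds e hk0))
    have h3 := he _ h2
    by_contra hcon
    push Not at hcon
    have h4 : (C j N \ Z) ∩ ball e (1 / ((k : ℝ) + 1)) ⊆ Y := by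
      intro x hx
      by_contra hxY
      exact absurd (mem_ball.1 hx.2) (not_lt.2 (hcon x hx.1 hxY))
    exact h3 (small_mono h4 hY0)
  choose w hwS hwY hwd using hpick
  have hwC : ∀ k, w k ∈ C j N := fun k => (hwS k).1
  choose α hαN hα using fun k => (hwC k).2
  obtain ⟨a, _, φ, hφ, hφa⟩ := tendsto_subseq_of_bounded (s := closedBall
    (0 : EuclideanSpace ℝ (Fin n)) N) isBounded_closedBall (x := α)
    (fun k => by rw [mem_closedBall, dist_zero_right]; exact hαN k)
  have hwe : Tendsto w atTop (𝓝 e) := by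
    rw [tendsto_iff_dist_tendsto_zero]
    exact squeeze_zero (fun k => dist_nonneg) (fun k => (hwd k).le)
      tendsto_one_div_add_atTop_nhds_zero_nat
  have hwφ : Tendsto (fun k => w (φ k)) atTop (𝓝 e) := hwe.comp hφ.tendsto_atTop
  have hcoord : ∀ i, Continuous (fun x : EuclideanSpace ℝ (Fin n) => β.repr x i) := by
    intro i
    have h2 : Continuous (fun x : EuclideanSpace ℝ (Fin n) => x i) := by fun_prop
    exact h2.comp β.repr.continuous
  set Θ : EuclideanSpace ℝ (Fin n) → Fin n → ℝ := fun x i => β.repr x i with hΘ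
  have hΘc : Continuous Θ := continuous_pi hcoord
  have hΘi : Function.Injective Θ := by
    intro x y hxy
    apply β.repr.injective
    ext i
    exact congrFun hxy i
  refine ⟨fun i => β.repr a i, fun i => ρ * β.repr e i,
    fun k i => β.repr (α (φ k)) i, fun k i => ρ * β.repr (w (φ k)) i,
    (fun i => ((hcoord i).tendsto a).comp hφa),
    (fun i => (((hcoord i).tendsto e).comp hwφ).const_mul ρ),
    (fun i => mul_ne_zero hρ0.ne' (hene i)),
    (fun k i => mul_ne_zero hρ0.ne' (by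
      intro h
      apply (hwS (φ k)).2
      rw [hZ]
      exact Set.mem_iUnion.2 ⟨i, h⟩)), ?_, ?_⟩
  · (
      intro k i i' hii h
      apply hwY (φ k)
      rw [hY]
      simp only [Set.mem_iUnion]
      refine ⟨i, i', hii, ?_⟩
      rw [LinearMap.sub_apply, LinearMap.smul_apply, LinearMap.smul_apply, coordL_apply,
        coordL_apply, smul_eq_mul, smul_eq_mul, sub_eq_zero]
      have hρ2 : ρ * ρ ≠ 0 := mul_ne_zero hρ0.ne' hρ0.ne'
      apply mul_left_cancel₀ hρ2
      linarith)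
  · (
      intro k t ht0 ht1
      refine ⟨α (φ k) + (t * ρ) • w (φ k), hα (φ k) (t * ρ) ⟨by positivity, ?_⟩, ?_⟩
      · calc t * ρ ≤ 1 * ρ := mul_le_mul_of_nonneg_right ht1 hρ0.le
          _ = 1 / ((N : ℝ) + 1) := by rw [one_mul, hρ]
      · funext i
        rw [hΘ]
        simp only [pt, map_add, map_smul, PiLp.add_apply, PiLp.smul_apply, smul_eq_mul]
        ring)



end Pool.Agent.Helper634ord.Kak
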