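import Mathlib
import Pool.Agent.Helper634ord.Density

/-!
# Packings which are closed locally (helper634)
-/

set_option autoImplicit false

namespace Pool.Agent.Helper634ord

open MeasureTheory Metric Filter Topology

variable {d : ℕ}

/-- in every cube of side `ℓ` the set is closed under minima, or under maxima, or under medians -/
def BoxLCS (P : Set (Fin d → ℝ)) (ℓ : ℝ) : Prop :=
  ∀ a : Fin d → ℝ, LCS (P ∩ {y | ∀ i, a i ≤ y i ∧ y i ≤ a i + ℓ})

/-- **The number of points in a ball**, by averaging over cubes. -/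
theorem ball_bound_loc {P : Set (EuclideanSpace ℝ (Fin d))}
    {ℓ : ℝ} (hℓ : 0 < ℓ)
    (hP : BoxLCS ((fun x : EuclideanSpace ℝ (Fin d) => fun i => x i) '' P) ℓ) {s : ℝ} (hs : 0 < s)
    (hsep : ∀ x ∈ P, ∀ y ∈ P, x ≠ y → s ≤ dist x y) {R : ℝ}
    (T : Finset (EuclideanSpace ℝ (Fin d))) (hT : ∀ x ∈ T, x ∈ P ∧ dist x 0 < R) :
    (T.card : ENNReal) * ENNReal.ofReal ℓ ^ d ≤
      ENNReal.ofReal ((1 + ℓ / s) ^ d) *
        volume (ball (0 : EuclideanSpace ℝ (Fin d)) (R + Real.sqrt d * ℓ)) := by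
  classical
  set Q : EuclideanSpace ℝ (Fin d) → Set (EuclideanSpace ℝ (Fin d)) :=
    fun p => {x | ∀ i, x i ∈ Set.Ico (p i - ℓ) (p i - ℓ + ℓ)} with hQ
  have hvol : ∀ p, volume (Q p) = ENNReal.ofReal ℓ ^ d := fun p => cube_vol (fun i => p i - ℓ) ℓ
  have hmeas : ∀ p, MeasurableSet (Q p) := fun p => cube_meas (fun i => p i - ℓ) ℓ
  have hpt : ∀ x : EuclideanSpace ℝ (Fin d),
      ∑ p ∈ T, (Q p).indicator (fun _ => (1 : ENNReal)) x ≤
        (ball (0 : EuclideanSpace ℝ (Fin d)) (R + Real.sqrt d * ℓ)).indicator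
          (fun _ => ENNReal.ofReal ((1 + ℓ / s) ^ d)) x := by
    intro x
    set T' := T.filter (fun p => x ∈ Q p) with hT'
    have h1 : ∑ p ∈ T, (Q p).indicator (fun _ => (1 : ENNReal)) x = (T'.card : ENNReal) := by
      rw [hT', Finset.card_filter]
      push_cast
      apply Finset.sum_congr rfl
      intro p _
      by_cases h : x ∈ Q p
      · rw [Set.indicator_of_mem h, if_pos h]
      · rw [Set.indicator_of_notMem h, if_neg h]
    rw [h1]
    rcases T'.eq_empty_or_nonempty with h0 | ⟨p, hp⟩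
    · rw [h0]; simp
    have hxball : x ∈ ball (0 : EuclideanSpace ℝ (Fin d)) (R + Real.sqrt d * ℓ) := by
      rw [hT', Finset.mem_filter] at hp
      rw [mem_ball]
      have h2 : dist x p ≤ Real.sqrt d * ℓ := by
        apply dist_cube hℓ.le
        intro i
        have := hp.2 i
        rw [Set.mem_Ico] at this
        rw [abs_le]
        constructor <;> linarith [this.1, this.2]
      have h3 := (hT p hp.1).2
      calc dist x 0 ≤ dist x p + dist p 0 := dist_triangle _ _ _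
        _ < R + Real.sqrt d * ℓ := by linarith
    rw [Set.indicator_of_mem hxball]
    have hinj : Function.Injective (fun x : EuclideanSpace ℝ (Fin d) => fun i => x i) := by
      intro a b hab
      ext i
      exact congrFun hab i
    have h4 := box_bound (hP (fun i => x i)) hs (by
        rintro _ ⟨⟨a, ha, rfl⟩, -⟩ _ ⟨⟨b, hb, rfl⟩, -⟩ hab
        rw [sq_eq]
        have hab' : a ≠ b := fun h => hab (by rw [h])
        exact pow_le_pow_left₀ hs.le (hsep a ha b hb hab') 2)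
      (fun i => x i) (fun i => x i + ℓ) (fun i => by dsimp only; linarith)
      (T'.image (fun x : EuclideanSpace ℝ (Fin d) => fun i => x i)) (by
        intro y hy
        obtain ⟨a, ha, rfl⟩ := Finset.mem_image.1 hy
        rw [hT', Finset.mem_filter] at ha
        refine ⟨⟨a, (hT a ha.1).1, rfl⟩, fun i => ?_⟩
        have := ha.2 i
        rw [Set.mem_Ico] at this
        constructor <;> linarith [this.1, this.2]) (by
        intro y hy i
        obtain ⟨a, ha, rfl⟩ := Finset.mem_image.1 hy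
        rw [hT', Finset.mem_filter] at ha
        have := ha.2 i
        rw [Set.mem_Ico] at this
        constructor <;> linarith [this.1, this.2])
    rw [Finset.card_image_of_injective _ hinj] at h4
    have h5 : ∏ i : Fin d, (1 + ((x i + ℓ) - x i) / s) = (1 + ℓ / s) ^ d := by
      simp
    rw [h5] at h4
    rw [← ENNReal.ofReal_natCast]
    exact ENNReal.ofReal_le_ofReal h4
  calc (T.card : ENNReal) * ENNReal.ofReal ℓ ^ d = ∑ p ∈ T, volume (Q p) := by
        rw [Finset.sum_congr rfl (fun p _ => hvol p)]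
        simp
    _ = ∑ p ∈ T, ∫⁻ x, (Q p).indicator (fun _ => (1 : ENNReal)) x := by
        apply Finset.sum_congr rfl
        intro p _
        rw [lintegral_indicator (hmeas p)]
        simp
    _ = ∫⁻ x, ∑ p ∈ T, (Q p).indicator (fun _ => (1 : ENNReal)) x := by
        rw [lintegral_finsetSum]
        intro p _
        exact measurable_const.indicator (hmeas p)
    _ ≤ ∫⁻ x, (ball (0 : EuclideanSpace ℝ (Fin d)) (R + Real.sqrt d * ℓ)).indicator
          (fun _ => ENNReal.ofReal ((1 + ℓ / s) ^ d)) x := lintegral_mono hpt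
    _ = _ := by
        rw [lintegral_indicator measurableSet_ball, setLIntegral_const]

/-- `ball_bound` in an arbitrary orthonormal coordinate system -/
theorem ball_bound_rot_loc (e : EuclideanSpace ℝ (Fin d) ≃ₗᵢ[ℝ] EuclideanSpace ℝ (Fin d))
    {P : Set (EuclideanSpace ℝ (Fin d))}
    {ℓ : ℝ} (hℓ : 0 < ℓ)
    (hP : BoxLCS ((fun x : EuclideanSpace ℝ (Fin d) => fun i => e x i) '' P) ℓ) {s : ℝ} (hs : 0 < s)
    (hsep : ∀ x ∈ P, ∀ y ∈ P, x ≠ y → s ≤ dist x y) {R : ℝ}
    (T : Finset (EuclideanSpace ℝ (Fin d))) (hT : ∀ x ∈ T, x ∈ P ∧ dist x 0 < R) :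
    (T.card : ENNReal) * ENNReal.ofReal ℓ ^ d ≤
      ENNReal.ofReal ((1 + ℓ / s) ^ d) *
        volume (ball (0 : EuclideanSpace ℝ (Fin d)) (R + Real.sqrt d * ℓ)) := by
  classical
  have h := ball_bound_loc (P := e '' P) (s := s) (R := R) hℓ (by
      rw [Set.image_image]; exact hP) hs (by
      rintro _ ⟨x, hx, rfl⟩ _ ⟨y, hy, rfl⟩ hxy
      rw [e.dist_map]
      exact hsep x hx y hy (fun h => hxy (by rw [h]))) (T.image e) (by
      intro y hy
      obtain ⟨x, hx, rfl⟩ := Finset.mem_image.1 hy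
      refine ⟨Set.mem_image_of_mem _ (hT x hx).1, ?_⟩
      have h1 := (hT x hx).2
      rw [dist_zero_right] at h1 ⊢
      rwa [e.norm_map])
  rwa [Finset.card_image_of_injective _ e.injective] at h

/-- finiteness -/
theorem finite_ball_loc (e : EuclideanSpace ℝ (Fin d) ≃ₗᵢ[ℝ] EuclideanSpace ℝ (Fin d))
    {P : Set (EuclideanSpace ℝ (Fin d))}
    {ℓ : ℝ} (hℓ : 0 < ℓ)
    (hP : BoxLCS ((fun x : EuclideanSpace ℝ (Fin d) => fun i => e x i) '' P) ℓ) {s : ℝ} (hs : 0 < s)
    (hsep : ∀ x ∈ P, ∀ y ∈ P, x ≠ y → s ≤ dist x y) (R : ℝ) :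
    {x | x ∈ P ∧ dist x 0 < R}.Finite := by
  by_contra hinf
  have hinf' : {x | x ∈ P ∧ dist x 0 < R}.Infinite := hinf
  have hfin : volume (ball (0 : EuclideanSpace ℝ (Fin d)) (R + Real.sqrt d * ℓ)) ≠ ⊤ :=
    measure_ball_lt_top.ne
  set B := ENNReal.ofReal ((1 + ℓ / s) ^ d) *
        volume (ball (0 : EuclideanSpace ℝ (Fin d)) (R + Real.sqrt d * ℓ)) with hB
  have hℓd : ENNReal.ofReal ℓ ^ d ≠ 0 := by
    apply pow_ne_zero
    rw [ne_eq, ENNReal.ofReal_eq_zero]
    linarith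
  have hℓt : ENNReal.ofReal ℓ ^ d ≠ ⊤ := ENNReal.pow_ne_top ENNReal.ofReal_ne_top
  have hBt : B / ENNReal.ofReal ℓ ^ d ≠ ⊤ :=
    ENNReal.div_ne_top (ENNReal.mul_ne_top ENNReal.ofReal_ne_top hfin) hℓd
  obtain ⟨n, hn⟩ := ENNReal.exists_nat_gt hBt
  obtain ⟨T, hT, hTc⟩ := hinf'.exists_subset_card_eq n
  have h := ball_bound_rot_loc e hℓ hP hs hsep (R := R) T (fun x hx => hT hx)
  rw [hTc] at h
  have h2 : (n : ENNReal) ≤ B / ENNReal.ofReal ℓ ^ d := by
    rw [ENNReal.le_div_iff_mul_le (Or.inl hℓd) (Or.inl hℓt)]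
    exact h
  exact absurd h2 (not_le.2 hn)

/-- the upper bound for the proportion covered inside `ball 0 R` by the union of `N` closed packings -/
theorem ratio_le_loc {N : ℕ} {P : Fin N → Set (EuclideanSpace ℝ (Fin d))}
    (e : Fin N → (EuclideanSpace ℝ (Fin d) ≃ₗᵢ[ℝ] EuclideanSpace ℝ (Fin d)))
    {ℓ : ℝ} (hℓ : 0 < ℓ)
    (hP : ∀ j, BoxLCS ((fun x : EuclideanSpace ℝ (Fin d) => fun i => e j x i) '' P j) ℓ)
    {r : ℝ} (hr : 0 < r)
    (hsep : ∀ j, ∀ x ∈ P j, ∀ y ∈ P j, x ≠ y → 2 * r ≤ dist x y) {R : ℝ} (hR : 0 < R) {U : Set (EuclideanSpace ℝ (Fin d))} (hU : U ⊆ ⋃ j, P j) :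
    volume (ball (0 : EuclideanSpace ℝ (Fin d)) R ∩ Balls U r) /
        volume (ball (0 : EuclideanSpace ℝ (Fin d)) R) ≤
      (N : ENNReal) * (volume (ball (0 : EuclideanSpace ℝ (Fin d)) 1) *
        ENNReal.ofReal (((r / ℓ + 1 / 2) * (1 + (r + Real.sqrt d * ℓ) / R)) ^ d)) := by
  classical
  set ω := volume (ball (0 : EuclideanSpace ℝ (Fin d)) 1) with hω
  have hω0 : ω ≠ 0 := (measure_ball_pos volume _ one_pos).ne'
  have hωt : ω ≠ ⊤ := measure_ball_lt_top.ne
  have hfin : ∀ j, {x | x ∈ P j ∧ dist x 0 < R + r}.Finite := fun j =>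
    finite_ball_loc (e j) hℓ (hP j) (by linarith : 0 < 2 * r) (hsep j) (R + r)
  set F : Fin N → Finset (EuclideanSpace ℝ (Fin d)) := fun j => (hfin j).toFinset with hF
  have hsq : 0 ≤ Real.sqrt d := Real.sqrt_nonneg _
  -- covering
  have hcov : ball (0 : EuclideanSpace ℝ (Fin d)) R ∩ Balls U r ⊆
      ⋃ j ∈ (Finset.univ : Finset (Fin N)), ⋃ p ∈ F j, ball p r := by
    rintro x ⟨hx, hxU⟩
    unfold Balls at hxU
    rw [Set.mem_iUnion₂] at hxU
    obtain ⟨p, hp, hxp⟩ := hxU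
    obtain ⟨j, hj⟩ := Set.mem_iUnion.1 (hU hp)
    rw [Set.mem_iUnion₂]
    refine ⟨j, Finset.mem_univ j, ?_⟩
    rw [Set.mem_iUnion₂]
    refine ⟨p, ?_, hxp⟩
    rw [hF, Set.Finite.mem_toFinset]
    refine ⟨hj, ?_⟩
    rw [mem_ball] at hx hxp
    calc dist p 0 ≤ dist p x + dist x 0 := dist_triangle _ _ _
      _ < r + R := by rw [dist_comm p x]; linarith
      _ = R + r := by ring
  have h1 : volume (ball (0 : EuclideanSpace ℝ (Fin d)) R ∩ Balls U r) ≤
      ∑ j : Fin N, ((F j).card : ENNReal) * (ENNReal.ofReal (r ^ d) * ω) := by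
    calc volume (ball (0 : EuclideanSpace ℝ (Fin d)) R ∩ Balls U r)
        ≤ volume (⋃ j ∈ (Finset.univ : Finset (Fin N)), ⋃ p ∈ F j, ball p r) := measure_mono hcov
      _ ≤ ∑ j : Fin N, volume (⋃ p ∈ F j, ball p r) := measure_biUnion_finset_le _ _
      _ ≤ ∑ j : Fin N, ∑ p ∈ F j, volume (ball p r) :=
          Finset.sum_le_sum (fun j _ => measure_biUnion_finset_le _ _)
      _ = _ := by
          apply Finset.sum_congr rfl
          intro j _
          rw [Finset.sum_congr rfl (fun p _ => vol_ball p hr)]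
          simp [hω]
  have h2 : ∀ j, ((F j).card : ENNReal) * (ENNReal.ofReal (r ^ d) * ω) ≤
      ω * ENNReal.ofReal (((r / ℓ + 1 / 2) * (1 + (r + Real.sqrt d * ℓ) / R)) ^ d) *
        volume (ball (0 : EuclideanSpace ℝ (Fin d)) R) := by
    intro j
    have h3 := ball_bound_rot_loc (e j) hℓ (hP j) (by linarith : 0 < 2 * r) (hsep j) (R := R + r) (F j)
      (fun x hx => by
        rw [hF, Set.Finite.mem_toFinset] at hx
        exact hx)
    have hRr : 0 < R + r + Real.sqrt d * ℓ := by positivity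
    rw [vol_ball _ hRr] at h3
    rw [vol_ball _ hR]
    have hℓd : ENNReal.ofReal ℓ ^ d ≠ 0 := by
      apply pow_ne_zero
      rw [ne_eq, ENNReal.ofReal_eq_zero]
      linarith
    have hℓt : ENNReal.ofReal ℓ ^ d ≠ ⊤ := ENNReal.pow_ne_top ENNReal.ofReal_ne_top
    have h4 : ((F j).card : ENNReal) ≤ (ENNReal.ofReal ((1 + ℓ / (2 * r)) ^ d) *
        (ENNReal.ofReal ((R + r + Real.sqrt d * ℓ) ^ d) * ω)) / ENNReal.ofReal ℓ ^ d := by
      rw [ENNReal.le_div_iff_mul_le (Or.inl hℓd) (Or.inl hℓt)]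
      exact h3
    calc ((F j).card : ENNReal) * (ENNReal.ofReal (r ^ d) * ω)
        ≤ ((ENNReal.ofReal ((1 + ℓ / (2 * r)) ^ d) *
        (ENNReal.ofReal ((R + r + Real.sqrt d * ℓ) ^ d) * ω)) / ENNReal.ofReal ℓ ^ d) *
          (ENNReal.ofReal (r ^ d) * ω) := by gcongr
      _ = ω * (ENNReal.ofReal ((1 + ℓ / (2 * r)) ^ d) *
            ENNReal.ofReal ((R + r + Real.sqrt d * ℓ) ^ d) * (ENNReal.ofReal ℓ ^ d)⁻¹ *
              ENNReal.ofReal (r ^ d)) * ω := by
          rw [div_eq_mul_inv]; ring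
      _ = ω * (ENNReal.ofReal (((r / ℓ + 1 / 2) * (1 + (r + Real.sqrt d * ℓ) / R)) ^ d) *
            ENNReal.ofReal (R ^ d)) * ω := by
          congr 2
          rw [← ENNReal.ofReal_pow hℓ.le, ← ENNReal.ofReal_inv_of_pos (pow_pos hℓ d),
            ← ENNReal.ofReal_mul (by positivity), ← ENNReal.ofReal_mul (by positivity),
            ← ENNReal.ofReal_mul (by positivity), ← ENNReal.ofReal_mul (by positivity)]
          congr 1
          rw [← inv_pow, ← mul_pow, ← mul_pow, ← mul_pow, ← mul_pow]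
          congr 1
          field_simp
          ring
      _ = _ := by ring
  have hV0 : volume (ball (0 : EuclideanSpace ℝ (Fin d)) R) ≠ 0 := (measure_ball_pos volume _ hR).ne'
  have hVt : volume (ball (0 : EuclideanSpace ℝ (Fin d)) R) ≠ ⊤ := measure_ball_lt_top.ne
  rw [ENNReal.div_le_iff hV0 hVt]
  calc volume (ball (0 : EuclideanSpace ℝ (Fin d)) R ∩ Balls U r)
      ≤ ∑ j : Fin N, ((F j).card : ENNReal) * (ENNReal.ofReal (r ^ d) * ω) := h1
    _ ≤ ∑ _j : Fin N, ω * ENNReal.ofReal (((r / ℓ + 1 / 2) *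
          (1 + (r + Real.sqrt d * ℓ) / R)) ^ d) *
            volume (ball (0 : EuclideanSpace ℝ (Fin d)) R) := Finset.sum_le_sum (fun j _ => h2 j)
    _ = _ := by
        rw [Finset.sum_const, Finset.card_univ, Fintype.card_fin, nsmul_eq_mul]
        ring

theorem density_le_loc {N : ℕ} {P : Fin N → Set (EuclideanSpace ℝ (Fin d))}
    (e : Fin N → (EuclideanSpace ℝ (Fin d) ≃ₗᵢ[ℝ] EuclideanSpace ℝ (Fin d)))
    {ℓ : ℝ} (hℓ : 0 < ℓ)
    (hP : ∀ j, BoxLCS ((fun x : EuclideanSpace ℝ (Fin d) => fun i => e j x i) '' P j) ℓ)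
    {r : ℝ} (hr : 0 < r)
    (hsep : ∀ j, ∀ x ∈ P j, ∀ y ∈ P j, x ≠ y → 2 * r ≤ dist x y)
    {U : Set (EuclideanSpace ℝ (Fin d))} (hU : U ⊆ ⋃ j, P j) :
    upperDensity U r ≤ (N : ENNReal) * (volume (ball (0 : EuclideanSpace ℝ (Fin d)) 1) *
      ENNReal.ofReal ((r / ℓ + 1 / 2) ^ d)) := by
  have hlim : Tendsto (fun R : ℝ => ((r / ℓ + 1 / 2) *
      (1 + (r + Real.sqrt d * ℓ) / R)) ^ d) atTop (𝓝 ((r / ℓ + 1 / 2) ^ d)) := by
    have h4 : Tendsto (fun R : ℝ => (r + Real.sqrt d * ℓ) / R) atTop (𝓝 0) :=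
      Tendsto.const_div_atTop tendsto_id _
    have h6 : Tendsto (fun R : ℝ => (r / ℓ + 1 / 2) *
      (1 + (r + Real.sqrt d * ℓ) / R)) atTop (𝓝 ((r / ℓ + 1 / 2) * (1 + 0))) :=
      (h4.const_add _).const_mul _
    have h7 := h6.pow d
    simpa using h7
  have hlim2 : Tendsto (fun R : ℝ => (N : ENNReal) *
      (volume (ball (0 : EuclideanSpace ℝ (Fin d)) 1) *
        ENNReal.ofReal (((r / ℓ + 1 / 2) *
          (1 + (r + Real.sqrt d * ℓ) / R)) ^ d))) atTop
      (𝓝 ((N : ENNReal) * (volume (ball (0 : EuclideanSpace ℝ (Fin d)) 1) *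
        ENNReal.ofReal ((r / ℓ + 1 / 2) ^ d)))) := by
    apply ENNReal.Tendsto.const_mul _ (Or.inr (ENNReal.natCast_ne_top N))
    apply ENNReal.Tendsto.const_mul _ (Or.inr measure_ball_lt_top.ne)
    exact ENNReal.tendsto_ofReal hlim
  unfold upperDensity
  rw [← hlim2.limsup_eq]
  apply limsup_le_limsup
  · filter_upwards [eventually_gt_atTop 0] with R hR
    exact ratio_le_loc e hℓ hP hr hsep hR hU
  · isBoundedDefault
  · isBoundedDefault


/-- a lower bound for the Gamma function -/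
theorem gamma_lower {x : ℝ} (hx : 0 ≤ x) : x ^ x * Real.exp (-x) ≤ Real.Gamma (x + 1) := by
  have hint : IntegrableOn (fun t : ℝ => Real.exp (-t) * t ^ (x + 1 - 1)) (Set.Ioi 0) :=
    Real.GammaIntegral_convergent (by linarith)
  rw [Real.Gamma_eq_integral (by linarith)]
  have h1 : ∫ t in Set.Ioi x, Real.exp (-t) * t ^ (x + 1 - 1) ≤
      ∫ t in Set.Ioi (0 : ℝ), Real.exp (-t) * t ^ (x + 1 - 1) := by
    apply setIntegral_mono_set hint
    · filter_upwards [self_mem_ae_restrict measurableSet_Ioi] with t ht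
      have ht0 : (0 : ℝ) < t := ht
      have := Real.rpow_nonneg ht0.le (x + 1 - 1)
      positivity
    · exact (Set.Ioi_subset_Ioi hx).eventuallyLE
  have h2 : ∫ t in Set.Ioi x, Real.exp (-t) * x ^ x ≤
      ∫ t in Set.Ioi x, Real.exp (-t) * t ^ (x + 1 - 1) := by
    apply setIntegral_mono_on
    · exact (integrableOn_exp_neg_Ioi x).mul_const _
    · exact hint.mono_set (Set.Ioi_subset_Ioi hx)
    · exact measurableSet_Ioi
    · intro t ht
      have ht0 : x < t := ht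
      rw [add_sub_cancel_right]
      exact mul_le_mul_of_nonneg_left (Real.rpow_le_rpow hx ht0.le hx) (Real.exp_pos _).le
  have h3 : ∫ t in Set.Ioi x, Real.exp (-t) * x ^ x = x ^ x * Real.exp (-x) := by
    rw [integral_mul_const, integral_exp_neg_Ioi, mul_comm]
  linarith

end Pool.Agent.Helper634ord
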