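import Mathlib

/-!
# Clusters of segments with generic directions at several scales (helper634)
-/

set_option autoImplicit false

namespace Pool.Agent.Helper634ord.Tub

open MeasureTheory Set

variable {n : ℕ}

/-- the vectors of a set of pairs (position, vector) -/
def dirs (P : Set ((Fin n → ℝ) × (Fin n → ℝ))) : Set (Fin n → ℝ) := {w | ∃ a, (a, w) ∈ P}

/-- **Cells**: one of polynomially many cells carries its share of the vectors. -/
theorem cells {P : Set ((Fin n → ℝ) × (Fin n → ℝ))} {R : ℝ} (hR : 1 ≤ R)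
    (hP : ∀ p ∈ P, (∀ i, |p.1 i| ≤ R) ∧ ∀ i, |p.2 i| ≤ 1) {x r : ℝ} (hr : 0 < r) (hr1 : r ≤ 1)
    (hx : 0 < x) (hv : ENNReal.ofReal x ≤ volume (dirs P)) :
    ∃ P' ⊆ P, (∀ p ∈ P', ∀ q ∈ P', ∀ i, |p.1 i - q.1 i| ≤ r ∧ |p.2 i - q.2 i| ≤ r) ∧
      ENNReal.ofReal (x * (r / (5 * R)) ^ (2 * n)) ≤ volume (dirs P') := by
  classical
  set m : ℕ := ⌈R / r⌉₊ with hm
  have hRr : 1 ≤ R / r := (one_le_div hr).2 (hr1.trans hR)
  have hm1 : R / r ≤ m := Nat.le_ceil _
  have hm2 : (m : ℝ) < R / r + 1 := Nat.ceil_lt_add_one (by linarith)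
  have hm3 : (2 * m + 1 : ℝ) ≤ 5 * R / r := by
    have : 5 * R / r = 5 * (R / r) := by ring
    rw [this]; linarith
  set cell : (Fin n → ℤ) × (Fin n → ℤ) → Set ((Fin n → ℝ) × (Fin n → ℝ)) := fun κ =>
    {p | p ∈ P ∧ (∀ i, ⌊p.1 i / r⌋ = κ.1 i) ∧ ∀ i, ⌊p.2 i / r⌋ = κ.2 i} with hcell
  set S : Finset (Fin n → ℤ) := Fintype.piFinset (fun _ => Finset.Icc (-(m : ℤ)) m) with hS
  have hfl : ∀ t : ℝ, |t| ≤ R → ⌊t / r⌋ ∈ Finset.Icc (-(m : ℤ)) m := by
    intro t ht
    have h1 : |t / r| ≤ m := by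
      rw [abs_div, abs_of_pos hr]
      exact (div_le_div_of_nonneg_right ht hr.le).trans hm1
    rw [abs_le] at h1
    rw [Finset.mem_Icc]
    constructor
    · apply Int.le_floor.2
      push_cast
      exact h1.1
    · have h2 : ((⌊t / r⌋ : ℤ) : ℝ) ≤ (m : ℝ) := (Int.floor_le _).trans h1.2
      exact_mod_cast h2
  have hcov : dirs P ⊆ ⋃ κ ∈ S ×ˢ S, dirs (cell κ) := by
    rintro w ⟨a, ha⟩
    have h1 := hP _ ha
    rw [mem_iUnion₂]
    refine ⟨(fun i => ⌊a i / r⌋, fun i => ⌊w i / r⌋), ?_, a, ha, fun i => rfl, fun i => rfl⟩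
    rw [Finset.mem_product, hS, Fintype.mem_piFinset, Fintype.mem_piFinset]
    exact ⟨fun i => hfl _ (h1.1 i), fun i => hfl _ ((h1.2 i).trans hR)⟩
  have hcard : ((S ×ˢ S).card : ℝ) ≤ (5 * R / r) ^ (2 * n) := by
    have h1 : S.card = (2 * m + 1) ^ n := by
      rw [hS, Fintype.card_piFinset]
      simp only [Int.card_Icc, Finset.prod_const, Finset.card_univ, Fintype.card_fin]
      congr 1
      omega
    rw [Finset.card_product, h1]
    push_cast
    rw [← pow_add, ← two_mul]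
    exact pow_le_pow_left₀ (by positivity) hm3 _
  have hne : (S ×ˢ S).Nonempty := by
    refine ⟨(0, 0), ?_⟩
    rw [Finset.mem_product, hS, Fintype.mem_piFinset]
    simp
  obtain ⟨κ, hκ, hκv⟩ : ∃ κ ∈ S ×ˢ S,
      ENNReal.ofReal (x * (r / (5 * R)) ^ (2 * n)) ≤ volume (dirs (cell κ)) := by
    by_contra hcon
    push Not at hcon
    have h1 : volume (dirs P) < ∑ κ ∈ S ×ˢ S, ENNReal.ofReal (x * (r / (5 * R)) ^ (2 * n)) :=
      ((measure_mono hcov).trans (measure_biUnion_finset_le _ _)).trans_lt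
        (ENNReal.sum_lt_sum_of_nonempty hne hcon)
    rw [Finset.sum_const, nsmul_eq_mul, ← ENNReal.ofReal_natCast, ← ENNReal.ofReal_mul (by positivity)]
      at h1
    have h2 : ((S ×ˢ S).card : ℝ) * (x * (r / (5 * R)) ^ (2 * n)) ≤ x := by
      have h3 : (5 * R / r) ^ (2 * n) * (r / (5 * R)) ^ (2 * n) = 1 := by
        rw [← mul_pow]
        have h4 : 5 * R / r * (r / (5 * R)) = 1 := by
          have : R ≠ 0 := by linarith
          field_simp
        rw [h4, one_pow]
      calc ((S ×ˢ S).card : ℝ) * (x * (r / (5 * R)) ^ (2 * n))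
          ≤ (5 * R / r) ^ (2 * n) * (x * (r / (5 * R)) ^ (2 * n)) :=
            mul_le_mul_of_nonneg_right hcard (by positivity)
        _ = ((5 * R / r) ^ (2 * n) * (r / (5 * R)) ^ (2 * n)) * x := by ring
        _ = x := by rw [h3, one_mul]
    exact absurd (hv.trans_lt h1) (not_lt.2 (ENNReal.ofReal_le_ofReal h2))
  refine ⟨cell κ, fun p hp => hp.1, ?_, hκv⟩
  have hclose : ∀ s t : ℝ, ⌊s / r⌋ = ⌊t / r⌋ → |s - t| ≤ r := by
    intro s t hst
    have h1 := Int.abs_sub_lt_one_of_floor_eq_floor hst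
    rw [← sub_div, abs_div, abs_of_pos hr, div_lt_one hr] at h1
    exact h1.le
  intro p hp q hq i
  exact ⟨hclose _ _ ((hp.2.1 i).trans (hq.2.1 i).symm), hclose _ _ ((hp.2.2 i).trans (hq.2.2 i).symm)⟩

/-- **Slabs** -/
theorem slab {v : Fin n → ℝ} {η ρ : ℝ} (hη : 0 < η) (hρ : 0 < ρ) {i j : Fin n} (hij : i ≠ j)
    (hv : η ≤ |v i|) :
    volume {w : Fin n → ℝ | (∀ k, |w k| ≤ 1) ∧ |v i * w j - v j * w i| < ρ} ≤
      ENNReal.ofReal (2 ^ n * (ρ / η)) := by
  classical
  set e : Fin n → ℝ := Pi.single j 1 with he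
  set u : Fin n → ℝ := fun k => (if k = j then v i - 1 else 0) + (if k = i then -v j else 0) with hu
  set M : Matrix (Fin n) (Fin n) ℝ :=
    1 + Matrix.replicateCol (Fin 1) e * Matrix.replicateRow (Fin 1) u with hM
  have hdet : M.det = v i := by
    have h1 : M.det = 1 + u ⬝ᵥ e := by
      have hF : Fin.fintype 1 = @Unique.fintype (Fin 1) inferInstance := Subsingleton.elim _ _
      rw [hM, hF]
      exact Matrix.det_one_add_replicateCol_mul_replicateRow (ι := Fin 1) e u
    rw [h1, he, dotProduct_single_one, hu]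
    simp [Ne.symm hij]
  have hvi : v i ≠ 0 := by
    intro h
    rw [h, abs_zero] at hv
    linarith
  have happ : ∀ w : Fin n → ℝ, ∀ k, Matrix.toLin' M w k =
      w k + e k * (v i * w j - w j - v j * w i) := by
    intro w k
    rw [Matrix.toLin'_apply, hM, Matrix.add_mulVec, Matrix.one_mulVec, Pi.add_apply]
    congr 1
    rw [← Matrix.mulVec_mulVec]
    simp only [Matrix.mulVec, dotProduct, Matrix.replicateCol_apply, Matrix.replicateRow_apply,
      Finset.univ_unique, Finset.sum_singleton]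
    congr 1
    have h1 : ∀ l, u l * w l = (if l = j then (v i - 1) * w l else 0) +
        (if l = i then -v j * w l else 0) := by
      intro l
      rw [hu]
      simp only
      split_ifs <;> ring
    simp_rw [h1]
    rw [Finset.sum_add_distrib, Finset.sum_ite_eq' Finset.univ j, Finset.sum_ite_eq' Finset.univ i]
    simp only [Finset.mem_univ, if_true]
    ring
  set A : Fin n → ℝ := fun k => if k = j then -ρ else -1 with hA
  set B : Fin n → ℝ := fun k => if k = j then ρ else 1 with hB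
  have hsub : {w : Fin n → ℝ | (∀ k, |w k| ≤ 1) ∧ |v i * w j - v j * w i| < ρ} ⊆
      (Matrix.toLin' M) ⁻¹' (Set.Icc A B) := by
    rintro w ⟨hw1, hw2⟩
    rw [Set.mem_preimage, Set.mem_Icc]
    constructor
    · intro k
      rw [happ, hA, he]
      simp only
      by_cases hk : k = j
      · rw [if_pos hk, hk, Pi.single_eq_same, one_mul]
        have := (abs_lt.1 hw2).1
        linarith
      · rw [if_neg hk, Pi.single_eq_of_ne hk, zero_mul, add_zero]
        exact (abs_le.1 (hw1 k)).1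
    · intro k
      rw [happ, hB, he]
      simp only
      by_cases hk : k = j
      · rw [if_pos hk, hk, Pi.single_eq_same, one_mul]
        have := (abs_lt.1 hw2).2
        linarith
      · rw [if_neg hk, Pi.single_eq_of_ne hk, zero_mul, add_zero]
        exact (abs_le.1 (hw1 k)).2
  have hvol : volume (Set.Icc A B) = ENNReal.ofReal (2 ^ n * ρ) := by
    rw [Real.volume_Icc_pi, ← ENNReal.ofReal_prod_of_nonneg]
    · congr 1
      have h1 : ∀ k, B k - A k = 2 * (if k = j then ρ else 1) := by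
        intro k
        rw [hA, hB]
        simp only
        split_ifs <;> ring
      simp_rw [h1]
      rw [Finset.prod_mul_distrib, Finset.prod_const, Finset.card_univ, Fintype.card_fin,
        Finset.prod_ite_eq' Finset.univ j]
      simp
    · intro k _
      rw [hA, hB]
      simp only
      split_ifs <;> linarith
  refine (measure_mono hsub).trans ?_
  rw [Measure.addHaar_preimage_linearMap _ (by rw [LinearMap.det_toLin', hdet]; exact hvi),
    LinearMap.det_toLin', hdet, hvol, ← ENNReal.ofReal_mul (abs_nonneg _)]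
  apply ENNReal.ofReal_le_ofReal
  rw [abs_inv]
  have h1 : |v i|⁻¹ ≤ η⁻¹ := inv_anti₀ hη hv
  calc |v i|⁻¹ * (2 ^ n * ρ) ≤ η⁻¹ * (2 ^ n * ρ) := mul_le_mul_of_nonneg_right h1 (by positivity)
    _ = 2 ^ n * (ρ / η) := by ring

/-- a vector in general position -/
theorem exists_generic (hn : 1 ≤ n) {v : Fin n → ℝ} {η ρ y : ℝ} (hη : 0 < η) (hρ : 0 < ρ)
    (hv : ∀ i, η ≤ |v i|) {D : Set (Fin n → ℝ)} (hD : ∀ w ∈ D, ∀ k, |w k| ≤ 1)
    (hvol : ENNReal.ofReal y ≤ volume D) (hy : (n : ℝ) ^ 2 * 2 ^ n * (ρ / η) < y) :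
    ∃ w ∈ D, ∀ i j, i ≠ j → ρ ≤ |v i * w j - v j * w i| := by
  classical
  by_contra hcon
  push Not at hcon
  have hcov : D ⊆ ⋃ i : Fin n, ⋃ j : Fin n,
      {w : Fin n → ℝ | i ≠ j ∧ (∀ k, |w k| ≤ 1) ∧ |v i * w j - v j * w i| < ρ} := by
    intro w hw
    obtain ⟨i, j, hij, h⟩ := hcon w hw
    rw [mem_iUnion]
    refine ⟨i, ?_⟩
    rw [mem_iUnion]
    exact ⟨j, hij, hD w hw, h⟩
  have h1 : volume D ≤ ∑ i : Fin n, ∑ j : Fin n, ENNReal.ofReal (2 ^ n * (ρ / η)) := by
    refine (measure_mono hcov).trans ((measure_iUnion_fintype_le _ _).trans ?_)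
    apply Finset.sum_le_sum
    intro i _
    refine (measure_iUnion_fintype_le _ _).trans ?_
    apply Finset.sum_le_sum
    intro j _
    by_cases hij : i = j
    · have h2 : {w : Fin n → ℝ | i ≠ j ∧ (∀ k, |w k| ≤ 1) ∧ |v i * w j - v j * w i| < ρ} = ∅ := by
        ext w
        simp only [Set.mem_ofPred_eq, Set.mem_empty_iff_false, iff_false]
        exact fun h => h.1 hij
      rw [h2, measure_empty]
      exact zero_le
    · refine (measure_mono ?_).trans (slab hη hρ hij (hv i))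
      intro w hw
      exact hw.2
  have h2 : ∑ i : Fin n, ∑ j : Fin n, ENNReal.ofReal (2 ^ n * (ρ / η)) =
      ENNReal.ofReal ((n : ℝ) ^ 2 * 2 ^ n * (ρ / η)) := by
    simp only [Finset.sum_const, Finset.card_univ, Fintype.card_fin, nsmul_eq_mul]
    rw [← ENNReal.ofReal_natCast, ← ENNReal.ofReal_mul (by positivity),
      ← ENNReal.ofReal_mul (by positivity)]
    congr 1
    ring
  rw [h2] at h1
  have hy0 : 0 < y := lt_of_le_of_lt (by positivity) hy
  exact absurd (hvol.trans h1) (not_le.2 ((ENNReal.ofReal_lt_ofReal_iff hy0).2 hy))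

end Pool.Agent.Helper634ord.Tub
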