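import Mathlib
import Pool.Agent.Helper634ord.Tub1

/-!
# Clusters of segments, continued (helper634)
-/

set_option autoImplicit false

namespace Pool.Agent.Helper634ord.Tub

open MeasureTheory Set

variable {n : ℕ}

/-- **Clusters at several scales** -/
theorem cluster (hn : 1 ≤ n) {R : ℝ} (hR : 1 ≤ R) {κ : ℝ} (hκ : 0 < κ) (hκ1 : κ ≤ 1) (N : ℕ) :
    ∃ c : ℝ, 0 < c ∧ c ≤ 1 ∧ ∃ C : ℕ, ∀ η : ℝ, 0 < η → η ≤ 1 → ∀ x : ℝ, 0 < x → x ≤ η →
      ∀ P : Set ((Fin n → ℝ) × (Fin n → ℝ)),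
        (∀ p ∈ P, (∀ i, |p.1 i| ≤ R) ∧ (∀ i, η ≤ |p.2 i|) ∧ ∀ i, |p.2 i| ≤ 1) →
        ENNReal.ofReal x ≤ volume (dirs P) →
        ∃ a v : Fin n → ℝ, (a, v) ∈ P ∧ ∃ (A W : ℕ → Fin n → ℝ) (ρ r : ℕ → ℝ),
          (∀ m, m < N → (A m, W m) ∈ P ∧ (∀ i, |A m i - a i| ≤ r m ∧ |W m i - v i| ≤ r m) ∧
            (∀ i j, i ≠ j → ρ m ≤ |v i * W m j - v j * W m i|) ∧ c * x ^ C ≤ ρ m ∧ r m ≤ x ∧
            ρ m ≤ r m) ∧
          ∀ m, m + 1 < N → r m ≤ κ * η ^ 2 * ρ (m + 1) := by
  classical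
  induction N with
  | zero =>
    refine ⟨1, one_pos, le_rfl, 0, ?_⟩
    intro η _ _ x hx _ P _ hv
    have hne : (dirs P).Nonempty := by
      by_contra hcon
      rw [not_nonempty_iff_eq_empty] at hcon
      rw [hcon, measure_empty] at hv
      exact absurd hv (not_le.2 (ENNReal.ofReal_pos.2 hx))
    obtain ⟨v, a, hav⟩ := hne
    exact ⟨a, v, hav, fun _ => 0, fun _ => 0, fun _ => 0, fun _ => 0,
      fun m hm => absurd hm (Nat.not_lt_zero m), fun m hm => absurd hm (Nat.not_lt_zero _)⟩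
  | succ N ih =>
    obtain ⟨c, hc, hc1, C, hC⟩ := ih
    have hn0 : (0 : ℝ) < n := by exact_mod_cast hn
    have hn1 : (1 : ℝ) ≤ n := by exact_mod_cast hn
    have hR5 : (0 : ℝ) < 5 * R := by linarith
    set D : ℝ := (n : ℝ) ^ 2 * 2 ^ (n + 1) with hD
    have hD1 : 1 ≤ D := by
      rw [hD]
      have h1 : (1 : ℝ) ≤ (n : ℝ) ^ 2 := one_le_pow₀ hn1
      have h2 : (1 : ℝ) ≤ 2 ^ (n + 1) := one_le_pow₀ (by norm_num)
      nlinarith
    have hD0 : 0 < D := by linarith
    set K : ℝ := κ / (D * (5 * R) ^ (2 * n)) with hK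
    have hK0 : 0 < K := by positivity
    have hR1 : 1 ≤ (5 * R) ^ (2 * n) := one_le_pow₀ (by linarith)
    have hK1 : K ≤ 1 := by
      rw [hK, div_le_one (by positivity)]
      nlinarith
    refine ⟨c * K ^ (C + 1), by positivity, ?_, (2 * n + 4) * (C + 1), ?_⟩
    · have : K ^ (C + 1) ≤ 1 := pow_le_one₀ hK0.le hK1
      have h2 : 0 < K ^ (C + 1) := by positivity
      nlinarith
    intro η hη hη1 x hx hxη P hP hv
    have hx1 : x ≤ 1 := hxη.trans hη1
    set y : ℝ := x * (x / (5 * R)) ^ (2 * n) with hy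
    have hy0 : 0 < y := by positivity
    have hyx : y ≤ x := by
      have h1 : x / (5 * R) ≤ 1 := (div_le_one hR5).2 (by linarith)
      have h2 : (x / (5 * R)) ^ (2 * n) ≤ 1 := pow_le_one₀ (by positivity) h1
      rw [hy]
      nlinarith
    obtain ⟨P', hP', hclose, hv'⟩ := cells hR (fun p hp => ⟨(hP p hp).1, (hP p hp).2.2⟩) hx hx1 hx hv
    set ρN : ℝ := η * y / D with hρN
    have hρ0 : 0 < ρN := by positivity
    have hρy : ρN ≤ y := by
      rw [hρN, div_le_iff₀ hD0]
      calc η * y ≤ 1 * y := mul_le_mul_of_nonneg_right hη1 hy0.le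
        _ = y * 1 := by ring
        _ ≤ y * D := mul_le_mul_of_nonneg_left hD1 hy0.le
    set z : ℝ := κ * η ^ 2 * ρN with hz
    have hz0 : 0 < z := by positivity
    have hκη : κ * η ^ 2 ≤ 1 := by
      have : η ^ 2 ≤ 1 := pow_le_one₀ hη.le hη1
      calc κ * η ^ 2 ≤ 1 * 1 := mul_le_mul hκ1 this (by positivity) zero_le_one
        _ = 1 := one_mul 1
    have hzρ : z ≤ ρN := by
      rw [hz]
      calc κ * η ^ 2 * ρN ≤ 1 * ρN := mul_le_mul_of_nonneg_right hκη hρ0.le
        _ = ρN := one_mul _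
    set q : ℝ := K * x ^ (2 * n + 4) with hq
    have hq0 : 0 < q := by positivity
    have hqz : q ≤ z := by
      have h1 : q = κ * x ^ 2 * (x * y / D) := by
        rw [hq, hK, hy, div_pow]
        field_simp
        ring
      have h2 : x ^ 2 ≤ η ^ 2 := pow_le_pow_left₀ hx.le hxη 2
      have h3 : x * y / D ≤ ρN := by
        rw [hρN]
        apply div_le_div_of_nonneg_right _ hD0.le
        nlinarith
      rw [h1, hz]
      have h4 : κ * x ^ 2 ≤ κ * η ^ 2 := mul_le_mul_of_nonneg_left h2 hκ.le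
      have h5 : 0 ≤ x * y / D := by positivity
      exact mul_le_mul h4 h3 h5 (by positivity)
    have hq1 : q ≤ 1 := by linarith
    obtain ⟨a, v, hav, A, W, ρ, r, h1, h2⟩ := hC η hη hη1 z hz0 (by linarith) P'
      (fun p hp => hP p (hP' hp)) ((ENNReal.ofReal_le_ofReal (by linarith)).trans hv')
    obtain ⟨w, hw, hwg⟩ := exists_generic hn (v := v) (η := η) (ρ := ρN) (y := y) hη hρ0
      (hP _ (hP' hav)).2.1 (D := dirs P') (by
        rintro w ⟨b, hb⟩ k
        exact (hP _ (hP' hb)).2.2 k) hv' (by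
        have h3 : (n : ℝ) ^ 2 * 2 ^ n * (ρN / η) = y / 2 := by
          rw [hρN, hD]
          field_simp
          ring
        rw [h3]
        linarith)
    obtain ⟨b, hb⟩ := hw
    have hcx : c * K ^ (C + 1) * x ^ ((2 * n + 4) * (C + 1)) = c * q ^ (C + 1) := by
      rw [hq, mul_pow, ← pow_mul]
      ring
    refine ⟨a, v, hP' hav, Function.update A N b, Function.update W N w, Function.update ρ N ρN,
      Function.update r N x, ?_, ?_⟩
    · intro m hm
      rw [hcx]
      by_cases hmN : m = N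
      · rw [hmN]
        simp only [Function.update_self]
        refine ⟨hP' hb, fun i => hclose _ hb _ hav i, hwg, ?_, le_rfl, by linarith⟩
        have h3 : q ^ C ≤ 1 := pow_le_one₀ hq0.le hq1
        calc c * q ^ (C + 1) ≤ 1 * q ^ (C + 1) := mul_le_mul_of_nonneg_right hc1 (by positivity)
          _ = q ^ C * q := by rw [one_mul, pow_succ]
          _ ≤ 1 * q := mul_le_mul_of_nonneg_right h3 hq0.le
          _ ≤ ρN := by linarith
      · have hm' : m < N := by omega
        rw [Function.update_of_ne hmN, Function.update_of_ne hmN, Function.update_of_ne hmN,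
          Function.update_of_ne hmN]
        obtain ⟨g1, g2, g3, g4, g5, g6⟩ := h1 m hm'
        refine ⟨hP' g1, g2, g3, le_trans ?_ g4, by linarith, g6⟩
        have h3 : q ^ C ≤ z ^ C := pow_le_pow_left₀ hq0.le hqz C
        apply mul_le_mul_of_nonneg_left _ hc.le
        calc q ^ (C + 1) = q ^ C * q := pow_succ _ _
          _ ≤ q ^ C * 1 := mul_le_mul_of_nonneg_left hq1 (by positivity)
          _ ≤ z ^ C := by rw [mul_one]; exact h3
    · intro m hm
      have hmN : m ≠ N := by omega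
      rw [Function.update_of_ne hmN]
      by_cases hm1 : m + 1 = N
      · rw [hm1, Function.update_self]
        exact (h1 m (by omega)).2.2.2.2.1
      · rw [Function.update_of_ne hm1]
        exact h2 m (by omega)

end Pool.Agent.Helper634ord.Tub
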