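import Mathlib
import Pool.Agent.Helper634ord.Kak2
import Pool.Agent.Helper634ord.Tub3

/-!
# Quantitative selection: the box (helper634)
-/

set_option autoImplicit false

namespace Pool.Agent.Helper634ord.Tub

open MeasureTheory Set Kak

variable {n : ℕ}

/-- **Clusters, times and selection together** -/
theorem boxQ (hn : 1 ≤ n) {R : ℝ} (hR : 1 ≤ R) :
    ∃ c : ℝ, 0 < c ∧ c ≤ 1 ∧ ∃ C : ℕ, ∀ η : ℝ, 0 < η → η ≤ 1 → ∀ x : ℝ, 0 < x → x ≤ η →
      ∀ P : Set ((Fin n → ℝ) × (Fin n → ℝ)),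
        (∀ p ∈ P, (∀ i, |p.1 i| ≤ R) ∧ (∀ i, η ≤ |p.2 i|) ∧ ∀ i, |p.2 i| ≤ 1) →
        ENNReal.ofReal x ≤ volume (dirs P) →
        ∃ d : ℝ, c * x ^ C ≤ d ∧ 0 < d ∧ d ≤ 1 / 8 ∧
        ∃ a v : Fin n → ℝ, (a, v) ∈ P ∧ ∃ A W : ℕ → Fin n → ℝ,
          (∀ m, m < n → (A m, W m) ∈ P ∧ ∀ i, 64 * |A m i - a i| ≤ η ^ 2 ∧
            64 * |W m i - v i| ≤ η ^ 2) ∧
          ∀ s : Fin n → ℝ, (∀ i, s i = 1 ∨ s i = -1) → ∃ (k : Fin n → ℕ) (t : Fin n → ℝ),
            (∀ c, k c < n ∧ (1 / 8 ≤ t c ∧ t c ≤ 15 / 16)) ∧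
            ∀ c c', c ≠ c' → s c * pt (A (k c)) (W (k c)) (t c) c + d ≤
              s c * pt (A (k c')) (W (k c')) (t c') c := by
  classical
  have hn0 : (0 : ℝ) < n := by exact_mod_cast hn
  have hn1 : (1 : ℝ) ≤ n := by exact_mod_cast hn
  set θ : ℝ := 1 / (16 * (n : ℝ) ^ 3) with hθ
  have hθ0 : 0 < θ := by positivity
  have hn3 : (1 : ℝ) ≤ (n : ℝ) ^ 3 := one_le_pow₀ hn1
  have hθ1 : θ ≤ 1 := by
    rw [hθ, div_le_one (by positivity)]
    linarith
  obtain ⟨c, hc, hc1, C, hC⟩ := cluster hn hR (κ := θ / 20) (by positivity) (by linarith) n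
  refine ⟨c * (1 / 64) ^ C * θ / 4, by positivity, ?_, 3 * C + 1, ?_⟩
  · have h1 : (1 / 64 : ℝ) ^ C ≤ 1 := pow_le_one₀ (by norm_num) (by norm_num)
    have h2 : c * (1 / 64 : ℝ) ^ C ≤ 1 * 1 := mul_le_mul hc1 h1 (by positivity) zero_le_one
    have h3 : c * (1 / 64 : ℝ) ^ C * θ ≤ 1 * 1 * 1 :=
      mul_le_mul h2 hθ1 hθ0.le (by norm_num)
    linarith
  intro η hη hη1 x hx hxη P hP hv
  have hη2 : η ^ 2 ≤ 1 := pow_le_one₀ hη.le hη1
  set x' : ℝ := x * η ^ 2 / 64 with hx'
  have hx'0 : 0 < x' := by positivity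
  have hx'x : x' ≤ x := by
    rw [hx', div_le_iff₀ (by norm_num)]
    nlinarith
  have hx'η : 64 * x' ≤ η ^ 2 := by
    have h1 : 64 * x' = x * η ^ 2 := by rw [hx']; ring
    rw [h1]
    have h2 : x ≤ 1 := hxη.trans hη1
    have h3 : 0 < η ^ 2 := by positivity
    nlinarith
  obtain ⟨a, v, hav, A, W, ρ, r, h1, h2⟩ := hC η hη hη1 x' hx'0 (by linarith) P hP
    ((ENNReal.ofReal_le_ofReal hx'x).trans hv)
  set q : ℝ := c * x' ^ C with hq
  have hq0 : 0 < q := by positivity
  have hρ0 : ∀ m, m < n → 0 < ρ m := fun m hm => hq0.trans_le (h1 m hm).2.2.2.1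
  -- the good times
  set S : Finset (ℕ × Fin n × Fin n) :=
    (Finset.range n ×ˢ (Finset.univ ×ˢ Finset.univ)).filter (fun k => k.2.1 ≠ k.2.2) with hS
  have hScard : (S.card : ℝ) ≤ (n : ℝ) ^ 3 := by
    have h3 : S.card ≤ n * (n * n) := by
      refine (Finset.card_filter_le _ _).trans (le_of_eq ?_)
      rw [Finset.card_product, Finset.card_product, Finset.card_range, Finset.card_univ,
        Fintype.card_fin]
    calc (S.card : ℝ) ≤ ((n * (n * n) : ℕ) : ℝ) := by exact_mod_cast h3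
      _ = (n : ℝ) ^ 3 := by push_cast; ring
  have hSθ : (S.card : ℝ) * (2 * θ) ≤ 1 / 8 := by
    calc (S.card : ℝ) * (2 * θ) ≤ (n : ℝ) ^ 3 * (2 * θ) :=
          mul_le_mul_of_nonneg_right hScard (by positivity)
      _ = 1 / 8 := by
          rw [hθ]
          field_simp
          norm_num
  have hSm : ∀ k ∈ S, k.1 < n ∧ k.2.1 ≠ k.2.2 := by
    intro k hk
    rw [hS, Finset.mem_filter, Finset.mem_product, Finset.mem_range] at hk
    exact ⟨hk.1.1, hk.2⟩
  have htime : ∀ u w : ℝ, 1 / 8 < w - u → ∃ τ, u < τ ∧ τ < w ∧ ∀ m, m < n → ∀ i j, i ≠ j →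
      ρ m * θ ≤ |(a i + τ * v i - A m i) * W m j - (a j + τ * v j - A m j) * W m i| := by
    intro u w huw
    obtain ⟨τ, hτ1, hτ2, hτ⟩ := time_exists S
      (α := fun k => (a k.2.1 - A k.1 k.2.1) * W k.1 k.2.2 - (a k.2.2 - A k.1 k.2.2) * W k.1 k.2.1)
      (β := fun k => v k.2.1 * W k.1 k.2.2 - v k.2.2 * W k.1 k.2.1) (ρ := fun k => ρ k.1)
      (fun k hk => hρ0 _ (hSm k hk).1)
      (fun k hk => (h1 _ (hSm k hk).1).2.2.1 _ _ (hSm k hk).2) (u := u) (w := w) hθ0
      (lt_of_le_of_lt hSθ huw)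
    refine ⟨τ, hτ1, hτ2, ?_⟩
    intro m hm i j hij
    have h3 := hτ (m, i, j) (by
      rw [hS, Finset.mem_filter, Finset.mem_product, Finset.mem_range]
      exact ⟨⟨hm, by simp⟩, hij⟩)
    simp only at h3
    have h4 : (a i + τ * v i - A m i) * W m j - (a j + τ * v j - A m j) * W m i =
        (a i - A m i) * W m j - (a j - A m j) * W m i + τ * (v i * W m j - v j * W m i) := by ring
    rw [h4]
    exact h3
  obtain ⟨t₁, ht₁a, ht₁b, ht₁⟩ := htime (1 / 4) (1 / 2) (by norm_num)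
  obtain ⟨t₂, ht₂a, ht₂b, ht₂⟩ := htime (5 / 8) (7 / 8) (by norm_num)
  -- scales
  have hscale : ∀ m', m' < n → ∀ m, m < m' → 20 * r m ≤ η ^ 2 * (ρ m' * θ) := by
    intro m'
    induction m' with
    | zero => intro _ m hm; omega
    | succ m' ih =>
      intro hm' m hm
      have h3 := h2 m' hm'
      have h4 : 20 * r m' ≤ η ^ 2 * (ρ (m' + 1) * θ) := by
        calc 20 * r m' ≤ 20 * (θ / 20 * η ^ 2 * ρ (m' + 1)) := by linarith
          _ = η ^ 2 * (ρ (m' + 1) * θ) := by ring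
      rcases Nat.lt_succ_iff_lt_or_eq.1 hm with h5 | h5
      · have h6 := ih (by omega) m h5
        have h7 : ρ m' * θ ≤ r m' := by
          have h8 := (h1 m' (by omega)).2.2.2.2.2
          have h9 := hρ0 m' (by omega)
          nlinarith
        have h10 : 0 < ρ m' * θ := mul_pos (hρ0 m' (by omega)) hθ0
        have h11 : η ^ 2 * (ρ m' * θ) ≤ 1 * (ρ m' * θ) := mul_le_mul_of_nonneg_right hη2 h10.le
        linarith
      · rw [h5]; exact h4
  set d : ℝ := q * θ * η / 4 with hd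
  have hd0 : 0 < d := by positivity
  have hdg : ∀ m, m < n → d ≤ ρ m * θ * η / 4 := by
    intro m hm
    have h3 := (h1 m hm).2.2.2.1
    rw [hd]
    have h4 : 0 ≤ θ * η / 4 := by positivity
    nlinarith
  have hd8 : d ≤ 1 / 8 := by
    have h3 : x' ^ C ≤ 1 := pow_le_one₀ hx'0.le (by linarith)
    have h4 : q ≤ 1 * 1 := mul_le_mul hc1 h3 (by positivity) zero_le_one
    have h5 : q ≤ ρ 0 := (h1 0 (by omega)).2.2.2.1
    have h6 : ρ 0 ≤ r 0 := (h1 0 (by omega)).2.2.2.2.2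
    have h7 : r 0 ≤ x' := (h1 0 (by omega)).2.2.2.2.1
    have h8 : q ≤ 1 / 64 := by linarith
    have h9 : q * θ ≤ 1 / 64 * 1 := mul_le_mul h8 hθ1 hθ0.le (by norm_num)
    have h10 : q * θ * η ≤ 1 / 64 * 1 * 1 := mul_le_mul h9 hη1 hη.le (by norm_num)
    rw [hd]
    linarith
  have hclose : ∀ m, m < n → ∀ i, 64 * |A m i - a i| ≤ η ^ 2 ∧ 64 * |W m i - v i| ≤ η ^ 2 := by
    intro m hm i
    have h3 := (h1 m hm).2.1 i
    have h4 := (h1 m hm).2.2.2.2.1
    constructor <;> linarith [h3.1, h3.2]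
  refine ⟨d, ?_, hd0, hd8, a, v, hav, A, W, fun m hm => ⟨(h1 m hm).1, hclose m hm⟩, ?_⟩
  · have h3 : x ^ 3 / 64 ≤ x' := by
      rw [hx']
      have h4 : x ^ 2 ≤ η ^ 2 := pow_le_pow_left₀ hx.le hxη 2
      have h5 : x ^ 3 = x * x ^ 2 := by ring
      rw [h5]
      apply div_le_div_of_nonneg_right _ (by norm_num)
      exact mul_le_mul_of_nonneg_left h4 hx.le
    have h4 : (x ^ 3 / 64) ^ C ≤ x' ^ C := pow_le_pow_left₀ (by positivity) h3 C
    have h5 : c * (x ^ 3 / 64) ^ C ≤ q := mul_le_mul_of_nonneg_left h4 hc.le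
    have h6 : c * (1 / 64) ^ C * θ / 4 * x ^ (3 * C + 1) = c * (x ^ 3 / 64) ^ C * θ * x / 4 := by
      rw [show x ^ 3 / 64 = x ^ 3 * (1 / 64) by ring, mul_pow, ← pow_mul, pow_succ]
      ring
    rw [h6, hd]
    have h7 : c * (x ^ 3 / 64) ^ C * θ ≤ q * θ := mul_le_mul_of_nonneg_right h5 hθ0.le
    have h8 : c * (x ^ 3 / 64) ^ C * θ * x ≤ q * θ * η := mul_le_mul h7 hxη hx.le (by positivity)
    linarith
  · intro s hs
    have hss : ∀ i, s i * s i = 1 := by
      intro i
      rcases hs i with h | h <;> rw [h] <;> norm_num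
    have habs : ∀ i, |s i| = 1 := by
      intro i
      rcases hs i with h | h <;> rw [h] <;> norm_num
    have hsm : ∀ i (y : ℝ), |s i * y| = |y| := by
      intro i y
      rw [abs_mul, habs, one_mul]
    have hsign : ∀ m, m < n → ∀ i, (0 < s i * v i → η ≤ s i * W m i) ∧
        (s i * v i < 0 → s i * W m i ≤ -η) := by
      intro m hm i
      have h3 := (hP _ (h1 m hm).1).2.1 i
      have h4 := (hP _ hav).2.1 i
      simp only at h3 h4
      have h5 := (hclose m hm i).2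
      rw [← hsm i (W m i)] at h3
      rw [← hsm i (v i)] at h4
      rw [← hsm i (W m i - v i), mul_sub] at h5
      have h6 : |s i * W m i - s i * v i| ≤ η / 64 := by nlinarith
      rw [abs_le] at h6
      constructor
      · intro h7
        rw [abs_of_pos h7] at h4
        have h8 : 0 < s i * W m i := by linarith [h6.1]
        rwa [abs_of_pos h8] at h3
      · intro h7
        rw [abs_of_neg h7] at h4
        have h8 : s i * W m i < 0 := by linarith [h6.2]
        rw [abs_of_neg h8] at h3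
        linarith
    have hflip : ∀ (t : ℝ) m i j, |(s i * a i + t * (s i * v i) - s i * A m i) * (s j * W m j) -
        (s j * a j + t * (s j * v j) - s j * A m j) * (s i * W m i)| =
        |(a i + t * v i - A m i) * W m j - (a j + t * v j - A m j) * W m i| := by
      intro t m i j
      have h3 : (s i * a i + t * (s i * v i) - s i * A m i) * (s j * W m j) -
        (s j * a j + t * (s j * v j) - s j * A m j) * (s i * W m i) =
        s i * (s j * ((a i + t * v i - A m i) * W m j - (a j + t * v j - A m j) * W m i)) := by ring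
      rw [h3, hsm, hsm]
    obtain ⟨k, t, hkt, hst⟩ := selectQ (a := fun i => s i * a i) (v := fun i => s i * v i)
      (A := fun m i => s i * A m i) (W := fun m i => s i * W m i) (g := fun m => ρ m * θ) (r := r)
      (d := d) (t₁ := t₁) (t₂ := t₂) hη hη1 (fun i => by
        rw [hsm]; exact (hP _ hav).2.1 i) ht₁a.le (by linarith) ht₂b.le n (by
        intro m hm
        obtain ⟨g1, g2, g3, g4, g5, g6⟩ := h1 m hm
        refine ⟨mul_pos (hρ0 m hm) hθ0, ?_, by linarith, hdg m hm, ?_, ?_, ?_, ?_, ?_, ?_, ?_⟩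
        · have := hρ0 m hm
          nlinarith
        · intro i
          rw [← mul_sub, hsm]
          exact (g2 i).1
        · intro i
          rw [← mul_sub, hsm]
          exact (g2 i).2
        · intro i
          rw [hsm]
          exact (hP _ g1).2.2 i
        · intro i hi
          exact (hsign m hm i).1 hi
        · intro i hi
          exact (hsign m hm i).2 hi
        · intro i j hij
          rw [hflip]
          exact ht₁ m hm i j hij
        · intro i j hij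
          rw [hflip]
          exact ht₂ m hm i j hij) (fun m m' hm hm' => hscale m' hm' m hm) Finset.univ (by simp)
    have hpt : ∀ m τ i, pt (fun i => s i * A m i) (fun i => s i * W m i) τ i =
        s i * pt (A m) (W m) τ i := by
      intro m τ i
      unfold pt
      ring
    refine ⟨k, t, fun c' => ⟨(hkt c' (Finset.mem_univ _)).1, (hkt c' (Finset.mem_univ _)).2.1⟩, ?_⟩
    intro c₁ c₂ hcc
    have h3 := hst c₁ (Finset.mem_univ _) c₂ (Finset.mem_univ _) hcc
    rw [hpt, hpt] at h3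
    exact h3

end Pool.Agent.Helper634ord.Tub
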