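import Mathlib
import Pool.Agent.Helper634ord.Local
import Pool.Agent.Helper634ord.Tub4

/-!
# Quantitative selection: minima, maxima and sets closed under an order operation (helper634)
-/

set_option autoImplicit false

namespace Pool.Agent.Helper634ord.Tub

open MeasureTheory Set Kak

variable {n : ℕ}

/-- points with prescribed coordinates near the selected points -/
theorem fill {s : Fin n → ℝ} (hs : ∀ i, s i = 1 ∨ s i = -1) {η d : ℝ} (hη : 0 < η) (hη1 : η ≤ 1)
    (hd : 0 < d) (hd8 : d ≤ 1 / 8) {A W : Fin n → Fin n → ℝ} {t : Fin n → ℝ}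
    (hW1 : ∀ c i, |W c i| ≤ 1) (hWη : ∀ c i, η ≤ |W c i|) (ht : ∀ c, 1 / 8 ≤ t c ∧ t c ≤ 15 / 16)
    (hst : ∀ c c', c ≠ c' → s c * pt (A c) (W c) (t c) c + d ≤ s c * pt (A c') (W c') (t c') c)
    {y : Fin n → ℝ} (hy : ∀ i, |y i - pt (A i) (W i) (t i) i| ≤ η * d / 2) :
    ∃ t' : Fin n → ℝ, (∀ c, 1 / 16 ≤ t' c ∧ t' c ≤ 1) ∧ (∀ i, y i = pt (A i) (W i) (t' i) i) ∧
      ∀ i c, s i * y i ≤ s i * pt (A c) (W c) (t' c) i := by
  have hWne : ∀ c i, W c i ≠ 0 := by
    intro c i h
    have := hWη c i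
    rw [h, abs_zero] at this
    linarith
  have habs : ∀ i, |s i| = 1 := by
    intro i
    rcases hs i with h | h <;> rw [h] <;> norm_num
  set t' : Fin n → ℝ := fun c => t c + (y c - pt (A c) (W c) (t c) c) / W c c with ht'
  have hdiff : ∀ c, |t' c - t c| ≤ d / 2 := by
    intro c
    have h1 : t' c - t c = (y c - pt (A c) (W c) (t c) c) / W c c := by rw [ht']; ring
    rw [h1, abs_div, div_le_iff₀ (lt_of_lt_of_le hη (hWη c c))]
    calc |y c - pt (A c) (W c) (t c) c| ≤ η * d / 2 := hy c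
      _ = d / 2 * η := by ring
      _ ≤ d / 2 * |W c c| := mul_le_mul_of_nonneg_left (hWη c c) (by linarith)
  have hdiag : ∀ i, y i = pt (A i) (W i) (t' i) i := by
    intro i
    rw [ht']
    simp only [pt]
    have := hWne i i
    field_simp
    ring
  refine ⟨t', ?_, hdiag, ?_⟩
  · intro c
    have h1 := hdiff c
    have h2 := ht c
    rw [abs_le] at h1
    constructor <;> linarith [h1.1, h1.2, h2.1, h2.2]
  · intro i c
    by_cases hic : i = c
    · rw [← hic, ← hdiag i]
    · have h1 := hst i c hic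
      have h2 : s i * y i ≤ s i * pt (A i) (W i) (t i) i + η * d / 2 := by
        have h3 : |s i * (y i - pt (A i) (W i) (t i) i)| ≤ η * d / 2 := by
          rw [abs_mul, habs, one_mul]; exact hy i
        rw [abs_le, mul_sub] at h3
        linarith [h3.2]
      have h4 : s i * pt (A c) (W c) (t c) i - d / 2 ≤ s i * pt (A c) (W c) (t' c) i := by
        have h5 : pt (A c) (W c) (t' c) i = pt (A c) (W c) (t c) i + (t' c - t c) * W c i := by
          unfold pt
          ring
        have h6 : |s i * ((t' c - t c) * W c i)| ≤ d / 2 := by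
          rw [abs_mul, habs, one_mul, abs_mul]
          calc |t' c - t c| * |W c i| ≤ d / 2 * 1 :=
                mul_le_mul (hdiff c) (hW1 c i) (abs_nonneg _) (by linarith)
            _ = d / 2 := mul_one _
        rw [abs_le] at h6
        rw [h5, mul_add]
        linarith [h6.1]
      have h7 : η * d ≤ 1 * d := mul_le_mul_of_nonneg_right hη1 hd.le
      linarith

/-- minima of several points, for any orientation of the coordinates -/
theorem inf_signed (hn : 1 ≤ n) {K : Set (Fin n → ℝ)} {s : Fin n → ℝ}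
    (hs : ∀ i, s i = 1 ∨ s i = -1) {z : Fin n → ℝ}
    (hK : ∀ x y : Fin n → ℝ, (fun i => s i * x i) ∈ K → (fun i => s i * y i) ∈ K →
      (∀ i, z i < x i) → (∀ i, z i < y i) → (fun i => s i * min (x i) (y i)) ∈ K)
    {p : Fin n → Fin n → ℝ} (hp : ∀ c, p c ∈ K) {y : Fin n → ℝ} (hy : ∀ i, y i = p i i)
    (hle : ∀ i c, s i * y i ≤ s i * p c i) (hz : ∀ c i, z i < s i * p c i) : y ∈ K := by
  have hss : ∀ i (w : ℝ), s i * (s i * w) = w := by
    intro i w
    rcases hs i with h | h <;> rw [h] <;> ring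
  have h1 := inf_mem (K := {x : Fin n → ℝ | (fun i => s i * x i) ∈ K}) (z := z)
    (fun x hx y hy h1 h2 => hK x y hx hy h1 h2) (p := fun c i => s i * p c i) (by
      intro c
      show (fun i => s i * (s i * p c i)) ∈ K
      have h2 : (fun i => s i * (s i * p c i)) = p c := by
        funext i
        exact hss i _
      rw [h2]
      exact hp c) hz Finset.univ ⟨⟨0, hn⟩, Finset.mem_univ _⟩
  have h2 : (fun i => Finset.univ.inf' ⟨⟨0, hn⟩, Finset.mem_univ _⟩ (fun c => s i * p c i)) =
      fun i => s i * y i := by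
    funext i
    apply le_antisymm
    · refine (Finset.inf'_le _ (Finset.mem_univ i)).trans (le_of_eq ?_)
      rw [hy i]
    · apply Finset.le_inf'
      intro c _
      exact hle i c
  rw [h2] at h1
  have h3 : (fun i => s i * (s i * y i)) ∈ K := h1
  have h4 : (fun i => s i * (s i * y i)) = y := by
    funext i
    exact hss i _
  rwa [h4] at h3

/-- vectors with one small coordinate -/
theorem thin {η : ℝ} (hη : 0 < η) (i : Fin n) :
    volume {w : Fin n → ℝ | (∀ k, |w k| ≤ 1) ∧ |w i| < η} ≤ ENNReal.ofReal (2 ^ n * η) := by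
  classical
  set A : Fin n → ℝ := fun k => if k = i then -η else -1 with hA
  set B : Fin n → ℝ := fun k => if k = i then η else 1 with hB
  have hsub : {w : Fin n → ℝ | (∀ k, |w k| ≤ 1) ∧ |w i| < η} ⊆ Set.Icc A B := by
    rintro w ⟨hw1, hw2⟩
    constructor
    · intro k
      rw [hA]
      simp only
      by_cases hk : k = i
      · rw [if_pos hk, hk]
        exact (abs_lt.1 hw2).1.le
      · rw [if_neg hk]
        exact (abs_le.1 (hw1 k)).1
    · intro k
      rw [hB]
      simp only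
      by_cases hk : k = i
      · rw [if_pos hk, hk]
        exact (abs_lt.1 hw2).2.le
      · rw [if_neg hk]
        exact (abs_le.1 (hw1 k)).2
  refine (measure_mono hsub).trans (le_of_eq ?_)
  rw [Real.volume_Icc_pi, ← ENNReal.ofReal_prod_of_nonneg]
  · congr 1
    have h1 : ∀ k, B k - A k = 2 * (if k = i then η else 1) := by
      intro k
      rw [hA, hB]
      simp only
      split_ifs <;> ring
    simp_rw [h1]
    rw [Finset.prod_mul_distrib, Finset.prod_const, Finset.card_univ, Fintype.card_fin,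
      Finset.prod_ite_eq' Finset.univ i]
    simp
  · intro k _
    rw [hA, hB]
    simp only
    split_ifs <;> linarith

/-- **Main theorem in coordinates.** -/
theorem mainX (hn : 1 ≤ n) {R : ℝ} (hR : 1 ≤ R) :
    ∃ c : ℝ, 0 < c ∧ ∃ C : ℕ, ∀ lam : ℝ, 0 < lam → lam ≤ 1 → ∀ x : ℝ, 0 < x → x ≤ 1 →
      ∀ P : Set ((Fin n → ℝ) × (Fin n → ℝ)),
        (∀ p ∈ P, (∀ i, |p.1 i| ≤ R) ∧ ∀ i, |p.2 i| ≤ lam) →
        ENNReal.ofReal x ≤ volume (dirs P) →
        ∃ ε : ℝ, c * x ^ C ≤ ε ∧ 0 < ε ∧ ∀ K : Set (Fin n → ℝ),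
          (∀ p ∈ P, ∀ t : ℝ, 0 ≤ t → t ≤ 1 → pt p.1 p.2 t ∈ K) →
          (∃ y₀ : Fin n → ℝ, ∀ y : Fin n → ℝ, (∀ i, |y i - y₀ i| ≤ ε) → ∃ p : Fin n → Fin n → ℝ,
            (∀ c, p c ∈ K) ∧ (∀ c c' i, |p c i - p c' i| ≤ 4 * lam) ∧
              ∀ i, y i = p i i ∧ ∀ c, y i ≤ p c i) ∧
          (∃ y₀ : Fin n → ℝ, ∀ y : Fin n → ℝ, (∀ i, |y i - y₀ i| ≤ ε) → ∃ p : Fin n → Fin n → ℝ,
            (∀ c, p c ∈ K) ∧ (∀ c c' i, |p c i - p c' i| ≤ 4 * lam) ∧
              ∀ i, y i = p i i ∧ ∀ c, p c i ≤ y i) ∧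
          (BoxLCS K (4 * lam) → ∃ y₀ : Fin n → ℝ, ∀ y : Fin n → ℝ, (∀ i, |y i - y₀ i| ≤ ε) → y ∈ K) := by
  classical
  have hn0 : (0 : ℝ) < n := by exact_mod_cast hn
  have hn1 : (1 : ℝ) ≤ n := by exact_mod_cast hn
  obtain ⟨c, hc, hc1, C, hC⟩ := boxQ hn hR
  set D : ℝ := (n : ℝ) * 2 ^ (n + 1) with hD
  have hD1 : 1 ≤ D := by
    rw [hD]
    have h2 : (1 : ℝ) ≤ 2 ^ (n + 1) := one_le_pow₀ (by norm_num)
    nlinarith
  have hD0 : 0 < D := by linarith
  refine ⟨c * (1 / D) ^ (C + 1) / 2, by positivity, C + 1, ?_⟩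
  intro lam hl0 hl1 x hx hx1 P hP hv
  set η : ℝ := x / D with hη
  have hη0 : 0 < η := by positivity
  have hηx : η ≤ x := by
    rw [hη, div_le_iff₀ hD0]
    nlinarith
  have hη1 : η ≤ 1 := hηx.trans hx1
  -- remove vectors with small coordinates
  set P' : Set ((Fin n → ℝ) × (Fin n → ℝ)) := {p | p ∈ P ∧ ∀ i, η ≤ |p.2 i|} with hP'
  have hvol : ENNReal.ofReal η ≤ volume (dirs P') := by
    have hcov : dirs P ⊆ dirs P' ∪ ⋃ i : Fin n, {w : Fin n → ℝ | (∀ k, |w k| ≤ 1) ∧ |w i| < η} := by
      rintro w ⟨b, hb⟩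
      by_cases h : ∀ i, η ≤ |w i|
      · exact Or.inl ⟨b, hb, h⟩
      · push Not at h
        obtain ⟨i, hi⟩ := h
        exact Or.inr (mem_iUnion.2 ⟨i, fun k => ((hP _ hb).2 k).trans hl1, hi⟩)
    have h1 : volume (⋃ i : Fin n, {w : Fin n → ℝ | (∀ k, |w k| ≤ 1) ∧ |w i| < η}) ≤
        ENNReal.ofReal (x / 2) := by
      refine (measure_iUnion_fintype_le _ _).trans ?_
      refine (Finset.sum_le_sum (fun i _ => thin hη0 i)).trans (le_of_eq ?_)
      rw [Finset.sum_const, Finset.card_univ, Fintype.card_fin, nsmul_eq_mul,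
        ← ENNReal.ofReal_natCast, ← ENNReal.ofReal_mul (by positivity)]
      congr 1
      rw [hη, hD, pow_succ]
      field_simp
    have h2 : ENNReal.ofReal x ≤ volume (dirs P') + ENNReal.ofReal (x / 2) :=
      hv.trans ((measure_mono hcov).trans ((measure_union_le _ _).trans (add_le_add le_rfl h1)))
    have h3 : ENNReal.ofReal x = ENNReal.ofReal (x / 2) + ENNReal.ofReal (x / 2) := by
      rw [← ENNReal.ofReal_add (by positivity) (by positivity)]
      congr 1
      ring
    rw [h3] at h2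
    have h4 := (ENNReal.add_le_add_iff_right ENNReal.ofReal_ne_top).1 h2
    refine (ENNReal.ofReal_le_ofReal ?_).trans h4
    rw [hη, hD, div_le_div_iff₀ (by positivity) (by norm_num)]
    have h5 : (2 : ℝ) ≤ n * 2 ^ (n + 1) := by
      rw [pow_succ]
      have h6 : (1 : ℝ) ≤ 2 ^ n := one_le_pow₀ (by norm_num)
      nlinarith
    nlinarith
  obtain ⟨d, hcd, hd0, hd8, a, v, hav, A, W, hAW, hsel⟩ := hC η hη0 hη1 η hη0 le_rfl P'
    (fun p hp => ⟨(hP p hp.1).1, hp.2, fun i => ((hP p hp.1).2 i).trans hl1⟩) hvol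
  have hηl : η ≤ lam := (hav.2 ⟨0, hn⟩).trans ((hP _ hav.1).2 ⟨0, hn⟩)
  refine ⟨η * d / 2, ?_, by positivity, ?_⟩
  · have h1 : c * (1 / D) ^ (C + 1) / 2 * x ^ (C + 1) = η * (c * η ^ C) / 2 := by
      rw [hη, div_pow, div_pow, one_pow, pow_succ, pow_succ]
      field_simp
    rw [h1]
    have h2 : η * (c * η ^ C) ≤ η * d := mul_le_mul_of_nonneg_left hcd hη0.le
    linarith
  intro K hK
  -- the selected points
  have hmain : ∀ s : Fin n → ℝ, (∀ i, s i = 1 ∨ s i = -1) → ∃ y₀ : Fin n → ℝ, ∀ y : Fin n → ℝ,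
      (∀ i, |y i - y₀ i| ≤ η * d / 2) → ∃ (k : Fin n → ℕ) (t' : Fin n → ℝ),
        (∀ c, k c < n ∧ 1 / 16 ≤ t' c ∧ t' c ≤ 1) ∧
        (∀ i, y i = pt (A (k i)) (W (k i)) (t' i) i) ∧
        ∀ i c, s i * y i ≤ s i * pt (A (k c)) (W (k c)) (t' c) i := by
    intro s hs
    obtain ⟨k, t, hkt, hst⟩ := hsel s hs
    refine ⟨fun i => pt (A (k i)) (W (k i)) (t i) i, ?_⟩
    intro y hy
    obtain ⟨t', h1, h2, h3⟩ := fill hs hη0 hη1 hd0 hd8 (A := fun c => A (k c))
      (W := fun c => W (k c)) (t := t)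
      (fun c i => ((hP _ (hAW _ (hkt c).1).1.1).2 i).trans hl1)
      (fun c i => (hAW _ (hkt c).1).1.2 i) (fun c => (hkt c).2) hst hy
    exact ⟨k, t', fun c => ⟨(hkt c).1, h1 c⟩, h2, h3⟩
  have hptK : ∀ m, m < n → ∀ t : ℝ, 1 / 16 ≤ t → t ≤ 1 → pt (A m) (W m) t ∈ K := by
    intro m hm t ht0 ht1
    exact hK _ (hAW m hm).1.1 t (by linarith) ht1
  have hη2 : η ^ 2 ≤ η := by nlinarith
  have hnear : ∀ m, m < n → ∀ t : ℝ, 1 / 16 ≤ t → t ≤ 1 → ∀ i,
      |pt (A m) (W m) t i - a i| ≤ 2 * lam := by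
    intro m hm t ht0 ht1 i
    have h1 := ((hAW m hm).2 i).1
    have h2 := (hP _ (hAW m hm).1.1).2 i
    simp only at h2
    have h3 : pt (A m) (W m) t i - a i = (A m i - a i) + t * W m i := by
      unfold pt
      ring
    have h4 : |t * W m i| ≤ lam := by
      rw [abs_mul, abs_of_nonneg (by linarith)]
      calc t * |W m i| ≤ 1 * lam := mul_le_mul ht1 h2 (abs_nonneg _) zero_le_one
        _ = lam := one_mul _
    rw [h3]
    have h5 := abs_add_le (A m i - a i) (t * W m i)
    linarith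
  have hdist : ∀ (k : Fin n → ℕ) (t' : Fin n → ℝ), (∀ c, k c < n ∧ 1 / 16 ≤ t' c ∧ t' c ≤ 1) →
      ∀ c c' i, |pt (A (k c)) (W (k c)) (t' c) i - pt (A (k c')) (W (k c')) (t' c') i| ≤
        4 * lam := by
    intro k t' hk c c' i
    have h1 := hnear (k c) (hk c).1 (t' c) (hk c).2.1 (hk c).2.2 i
    have h2 := hnear (k c') (hk c').1 (t' c') (hk c').2.1 (hk c').2.2 i
    rw [abs_le] at h1 h2 ⊢
    constructor <;> linarith [h1.1, h1.2, h2.1, h2.2]
  refine ⟨?_, ?_, ?_⟩
  · obtain ⟨y₀, hy₀⟩ := hmain (fun _ => 1) (fun _ => Or.inl rfl)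
    refine ⟨y₀, fun y hy => ?_⟩
    obtain ⟨k, t', h1, h2, h3⟩ := hy₀ y hy
    refine ⟨fun c => pt (A (k c)) (W (k c)) (t' c),
      fun c => hptK _ (h1 c).1 _ (h1 c).2.1 (h1 c).2.2, hdist k t' h1, fun i => ⟨h2 i, fun c => ?_⟩⟩
    have := h3 i c
    rwa [one_mul, one_mul] at this
  · obtain ⟨y₀, hy₀⟩ := hmain (fun _ => -1) (fun _ => Or.inr rfl)
    refine ⟨y₀, fun y hy => ?_⟩
    obtain ⟨k, t', h1, h2, h3⟩ := hy₀ y hy
    refine ⟨fun c => pt (A (k c)) (W (k c)) (t' c),
      fun c => hptK _ (h1 c).1 _ (h1 c).2.1 (h1 c).2.2, hdist k t' h1, fun i => ⟨h2 i, fun c => ?_⟩⟩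
    have := h3 i c
    linarith
  · intro hbox
    set KB : Set (Fin n → ℝ) := K ∩ {y | ∀ i, a i - 2 * lam ≤ y i ∧ y i ≤ a i - 2 * lam + 4 * lam}
      with hKB
    have hLCS : LCS KB := hbox (fun i => a i - 2 * lam)
    have hptKB : ∀ m, m < n → ∀ t : ℝ, 1 / 16 ≤ t → t ≤ 1 → pt (A m) (W m) t ∈ KB := by
      intro m hm t ht0 ht1
      refine ⟨hptK m hm t ht0 ht1, fun i => ?_⟩
      have h1 := hnear m hm t ht0 ht1 i
      rw [abs_le] at h1
      constructor <;> linarith [h1.1, h1.2]
    rcases hLCS with h | h | h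
    · obtain ⟨y₀, hy₀⟩ := hmain (fun _ => 1) (fun _ => Or.inl rfl)
      refine ⟨y₀, fun y hy => ?_⟩
      obtain ⟨k, t', h1, h2, h3⟩ := hy₀ y hy
      have h4 : y ∈ KB := by
        apply inf_signed hn (K := KB) (s := fun _ => 1) (fun _ => Or.inl rfl)
          (z := fun i => y i - 1) (p := fun c => pt (A (k c)) (W (k c)) (t' c)) (y := y)
        · intro x y hx hy _ _
          simp only [one_mul] at hx hy ⊢
          exact h x hx y hy
        · exact fun c => hptKB _ (h1 c).1 _ (h1 c).2.1 (h1 c).2.2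
        · exact h2
        · exact h3
        · intro c i
          have := h3 i c
          simp only [one_mul] at this ⊢
          linarith
      exact h4.1
    · obtain ⟨y₀, hy₀⟩ := hmain (fun _ => -1) (fun _ => Or.inr rfl)
      refine ⟨y₀, fun y hy => ?_⟩
      obtain ⟨k, t', h1, h2, h3⟩ := hy₀ y hy
      have h4 : y ∈ KB := by
        apply inf_signed hn (K := KB) (s := fun _ => -1) (fun _ => Or.inr rfl)
          (z := fun i => -y i - 1) (p := fun c => pt (A (k c)) (W (k c)) (t' c)) (y := y)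
        · intro x y hx hy _ _
          have h5 := h _ hx _ hy
          have h6 : (fun i => (-1 : ℝ) * min (x i) (y i)) =
              fun i => max ((-1 : ℝ) * x i) ((-1 : ℝ) * y i) := by
            funext i
            rcases le_total (x i) (y i) with h4 | h4
            · rw [min_eq_left h4, max_eq_left (by linarith)]
            · rw [min_eq_right h4, max_eq_right (by linarith)]
          rw [h6]
          exact h5
        · exact fun c => hptKB _ (h1 c).1 _ (h1 c).2.1 (h1 c).2.2
        · exact h2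
        · exact h3
        · intro c i
          have := h3 i c
          linarith
      exact h4.1
    · set s : Fin n → ℝ := fun i => if 0 < v i then 1 else -1 with hs
      have hs1 : ∀ i, s i = 1 ∨ s i = -1 := by
        intro i
        rw [hs]
        simp only
        split_ifs <;> simp
      have hss : ∀ i (w : ℝ), s i * (s i * w) = w := by
        intro i w
        rcases hs1 i with h | h <;> rw [h] <;> ring
      have habs : ∀ i, |s i| = 1 := by
        intro i
        rcases hs1 i with h | h <;> rw [h] <;> norm_num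
      have hspos : ∀ i, s i * v i = |v i| := by
        intro i
        rw [hs]
        simp only
        split_ifs with h5
        · rw [one_mul, abs_of_pos h5]
        · rw [abs_of_nonpos (not_lt.1 h5)]
          ring
      obtain ⟨y₀, hy₀⟩ := hmain s hs1
      refine ⟨y₀, fun y hy => ?_⟩
      obtain ⟨k, t', h1, h2, h3⟩ := hy₀ y hy
      have haK : a ∈ KB := by
        have h5 := hK _ hav.1 0 le_rfl zero_le_one
        have h6 : pt a v 0 = a := by
          funext i
          simp [pt]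
        simp only [h6] at h5
        exact ⟨h5, fun i => ⟨by linarith, by linarith⟩⟩
      have h4 : y ∈ KB := by
        apply inf_signed hn (K := KB) (s := s) hs1
          (z := fun i => s i * a i) (p := fun c => pt (A (k c)) (W (k c)) (t' c)) (y := y)
        · intro x y hx hy hzx hzy
          have h5 := h _ hx _ hy _ haK
          have h6 : (fun i => s i * min (x i) (y i)) =
              fun i => med (s i * x i) (s i * y i) (a i) := by
            funext i
            have h7 : med (x i) (y i) (s i * a i) = min (x i) (y i) :=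
              med_low (hzx i).le (hzy i).le
            rw [← h7]
            rcases hs1 i with h8 | h8
            · rw [h8]; simp
            · rw [h8]
              have h9 := med_neg (x i) (y i) (-1 * a i)
              simp only [neg_mul, one_mul, neg_neg] at h9 ⊢
              linarith
          rw [h6]
          exact h5
        · exact fun c => hptKB _ (h1 c).1 _ (h1 c).2.1 (h1 c).2.2
        · exact h2
        · exact h3
        · intro c i
          have h5 := (hAW _ (h1 c).1).2 i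
          have h6 : |s i * (A (k c) i - a i)| ≤ η / 64 := by
            rw [abs_mul, habs, one_mul]
            linarith [h5.1]
          have h7 : |s i * (W (k c) i - v i)| ≤ η / 64 := by
            rw [abs_mul, habs, one_mul]
            linarith [h5.2]
          have h8 : η ≤ s i * v i := by
            rw [hspos]
            exact hav.2 i
          rw [mul_sub, abs_le] at h6 h7
          have h9 : s i * pt (A (k c)) (W (k c)) (t' c) i =
              s i * A (k c) i + t' c * (s i * W (k c) i) := by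
            unfold pt
            ring
          rw [h9]
          have h10 : 63 / 64 * η ≤ s i * W (k c) i := by linarith [h7.1]
          have h11 : 1 / 16 * (63 / 64 * η) ≤ t' c * (s i * W (k c) i) :=
            mul_le_mul (h1 c).2.1 h10 (by positivity) (by linarith [(h1 c).2.1])
          linarith [h6.1]
      exact h4.1

end Pool.Agent.Helper634ord.Tub
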