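import Mathlib
import Pool.Agent.Helper634ord.Tub3

/-!
# Quantitative selection for segments with small gaps (helper634)
-/

set_option autoImplicit false

namespace Pool.Agent.Helper634ord.Tub

open MeasureTheory Set Kak

variable {n : ℕ}

theorem exists_avoid {B : Set ℝ} {u w : ℝ} (h : volume B < ENNReal.ofReal (w - u)) :
    ∃ τ, u < τ ∧ τ < w ∧ τ ∉ B := by
  by_contra hcon
  push Not at hcon
  have h1 : Set.Ioo u w ⊆ B := fun τ hτ => hcon τ hτ.1 hτ.2
  have h2 := measure_mono (μ := volume) h1
  rw [Real.volume_Ioo] at h2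
  exact absurd h (not_lt.2 h2)

/-- times at which two coordinates nearly coincide -/
theorem generic_bad {ι : Type*} (s : Finset ι) {α β ρ : ι → ℝ} (hρ : ∀ k ∈ s, 0 < ρ k)
    (hβ : ∀ k ∈ s, ρ k ≤ |β k|) {θ : ℝ} (hθ : 0 < θ) :
    volume (⋃ k ∈ s, {τ : ℝ | |α k + τ * β k| < ρ k * θ}) ≤
      ENNReal.ofReal ((s.card : ℝ) * (2 * θ)) := by
  classical
  have h1 : volume (⋃ k ∈ s, {τ : ℝ | |α k + τ * β k| < ρ k * θ}) ≤
      ∑ k ∈ s, volume (Metric.ball (-(α k / β k)) θ) := by
    refine (measure_biUnion_finset_le _ _).trans (Finset.sum_le_sum (fun k hk => ?_))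
    apply measure_mono
    intro τ h
    have hβ0 : 0 < |β k| := (hρ k hk).trans_le (hβ k hk)
    have hβ1 : β k ≠ 0 := abs_pos.1 hβ0
    rw [Metric.mem_ball, Real.dist_eq]
    have h1 : α k + τ * β k = (τ - -(α k / β k)) * β k := by field_simp; ring
    rw [Set.mem_ofPred_eq, h1, abs_mul] at h
    have h2 : |τ - -(α k / β k)| * |β k| < |β k| * θ :=
      h.trans_le (mul_le_mul_of_nonneg_right (hβ k hk) hθ.le)
    rw [mul_comm] at h2
    exact lt_of_mul_lt_mul_left h2 hβ0.le
  refine h1.trans (le_of_eq ?_)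
  simp only [Real.volume_ball, Finset.sum_const, nsmul_eq_mul]
  rw [← ENNReal.ofReal_natCast, ← ENNReal.ofReal_mul (by positivity)]

/-- times near which the exceptional set is dense -/
theorem dense_bad {F : Set ℝ} (hF : MeasurableSet F) {g ε α β : ℝ} (hg : 0 < g) (hε : 0 ≤ ε)
    (hβ : 1 / 2 ≤ |β|) (hFε : volume F ≤ ENNReal.ofReal ε) :
    volume {τ : ℝ | ENNReal.ofReal (g / 4) < volume (F ∩ Metric.closedBall (α + τ * β) g)} ≤
      ENNReal.ofReal (16 * ε) := by
  have hβ0 : β ≠ 0 := by
    intro h
    rw [h, abs_zero] at hβ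
    norm_num at hβ
  set S : Set (ℝ × ℝ) := {p | |p.2 - (α + p.1 * β)| ≤ g} with hS
  have hSm : MeasurableSet S := by
    have h1 : Continuous (fun p : ℝ × ℝ => |p.2 - (α + p.1 * β)|) := by fun_prop
    exact (isClosed_le h1 continuous_const).measurableSet
  set f : ℝ → ℝ → ENNReal := fun τ t => S.indicator (fun _ => (1 : ENNReal)) (τ, t) with hf
  have hfm : Measurable (Function.uncurry f) := by
    have : Function.uncurry f = S.indicator (fun _ => (1 : ENNReal)) := by
      funext p
      rfl
    rw [this]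
    exact measurable_const.indicator hSm
  have hh : ∀ τ, ∫⁻ t in F, f τ t = volume (F ∩ Metric.closedBall (α + τ * β) g) := by
    intro τ
    have h1 : (fun t => f τ t) =
        (Metric.closedBall (α + τ * β) g).indicator (fun _ => (1 : ENNReal)) := by
      funext t
      simp only [hf]
      by_cases h : (τ, t) ∈ S
      · rw [Set.indicator_of_mem h, Set.indicator_of_mem]
        rw [Metric.mem_closedBall, Real.dist_eq]
        exact h
      · rw [Set.indicator_of_notMem h, Set.indicator_of_notMem]
        rw [Metric.mem_closedBall, Real.dist_eq]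
        exact h
    rw [h1, lintegral_indicator Metric.isClosed_closedBall.measurableSet, setLIntegral_const,
      one_mul, Measure.restrict_apply Metric.isClosed_closedBall.measurableSet, Set.inter_comm]
  have hint : ∫⁻ τ, ∫⁻ t in F, f τ t ≤ ENNReal.ofReal (4 * g * ε) := by
    rw [lintegral_lintegral_swap hfm.aemeasurable]
    have h1 : ∀ t, ∫⁻ τ, f τ t ≤ ENNReal.ofReal (4 * g) := by
      intro t
      have h2 : (fun τ => f τ t) ≤
          (Metric.closedBall ((t - α) / β) (2 * g)).indicator (fun _ => (1 : ENNReal)) := by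
        intro τ
        simp only [hf]
        by_cases h : (τ, t) ∈ S
        · rw [Set.indicator_of_mem h, Set.indicator_of_mem]
          rw [Metric.mem_closedBall, Real.dist_eq]
          have h3 : |t - (α + τ * β)| ≤ g := h
          have h4 : t - (α + τ * β) = -((τ - (t - α) / β) * β) := by
            field_simp
            ring
          rw [h4, abs_neg, abs_mul] at h3
          have h5 := abs_nonneg (τ - (t - α) / β)
          nlinarith
        · rw [Set.indicator_of_notMem h]
          exact zero_le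
      refine (lintegral_mono h2).trans ?_
      rw [lintegral_indicator Metric.isClosed_closedBall.measurableSet, setLIntegral_const, one_mul,
        Real.volume_closedBall]
      apply le_of_eq
      congr 1
      ring
    calc ∫⁻ t in F, ∫⁻ τ, f τ t ≤ ∫⁻ _t in F, ENNReal.ofReal (4 * g) := lintegral_mono h1
      _ = ENNReal.ofReal (4 * g) * volume F := setLIntegral_const _ _
      _ ≤ ENNReal.ofReal (4 * g) * ENNReal.ofReal ε := by gcongr
      _ = ENNReal.ofReal (4 * g * ε) := by rw [← ENNReal.ofReal_mul (by positivity)]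
  have hmark := mul_meas_ge_le_lintegral₀ (μ := volume) (f := fun τ => ∫⁻ t in F, f τ t)
    (Measurable.lintegral_prod_right' (ν := volume.restrict F) hfm).aemeasurable
    (ENNReal.ofReal (g / 4))
  have h3 : {τ : ℝ | ENNReal.ofReal (g / 4) < volume (F ∩ Metric.closedBall (α + τ * β) g)} ⊆
      {τ : ℝ | ENNReal.ofReal (g / 4) ≤ ∫⁻ t in F, f τ t} := by
    intro τ hτ
    rw [Set.mem_ofPred_eq, hh]
    exact le_of_lt hτ
  have h4 : ENNReal.ofReal (g / 4) *
      volume {τ : ℝ | ENNReal.ofReal (g / 4) < volume (F ∩ Metric.closedBall (α + τ * β) g)} ≤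
      ENNReal.ofReal (g / 4) * ENNReal.ofReal (16 * ε) := by
    calc _ ≤ ENNReal.ofReal (g / 4) * volume {τ : ℝ | ENNReal.ofReal (g / 4) ≤ ∫⁻ t in F, f τ t} := by
          gcongr
      _ ≤ ENNReal.ofReal (4 * g * ε) := hmark.trans hint
      _ = ENNReal.ofReal (g / 4) * ENNReal.ofReal (16 * ε) := by
          rw [← ENNReal.ofReal_mul (by positivity)]
          congr 1
          ring
  have h5 : ENNReal.ofReal (g / 4) ≠ 0 := by
    rw [ne_eq, ENNReal.ofReal_eq_zero, not_le]
    positivity
  exact (ENNReal.mul_le_mul_iff_right h5 ENNReal.ofReal_ne_top).1 h4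

end Pool.Agent.Helper634ord.Tub
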