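import Mathlib
import Pool.Agent.Helper634ord.Tub7

/-!
# Quantitative selection with intervals of times (helper634)
-/

set_option autoImplicit false

namespace Pool.Agent.Helper634ord.Tub

open MeasureTheory Set Kak

variable {n : ℕ}

/-- one segment -/
theorem pickR {T G : Finset (Fin n)} (hG : G.Nonempty) {s : ℝ} (hs : s = 1 ∨ s = -1)
    {a v b A W : Fin n → ℝ} {η g r τ : ℝ} (hη : 0 < η) (hη1 : η ≤ 1) (hg : 0 < g) (hgr : g ≤ r)
    (hr : 64 * r ≤ η ^ 2) (hA : ∀ i, |A i - a i| ≤ r) (hW : ∀ i, |W i - v i| ≤ r)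
    (hWs : ∀ i ∈ G, η ≤ s * W i) (hW1 : ∀ i, |W i| ≤ 1) (h0 : 1 / 4 ≤ τ) (h1 : τ ≤ 7 / 8)
    (hb : ∀ i ∈ G, b i = a i + τ * v i) (hb' : ∀ i ∈ T, i ∉ G → b i + η / 8 ≤ a i + τ * v i)
    (hdist : ∀ i ∈ G, ∀ j ∈ G, i ≠ j → g ≤ |(b i - A i) * W j - (b j - A j) * W i|) :
    ∃ c ∈ G, ∃ t₀, |t₀ - (b c - A c) / W c| ≤ g / 2 ∧ ∀ t, |t - t₀| ≤ g / 4 →
      (1 / 8 ≤ t ∧ t ≤ 15 / 16) ∧ (∀ i, |pt A W t i - pt a v τ i| ≤ 5 * r / η) ∧
      pt A W t c ≤ b c - g * η / 4 ∧ ∀ i ∈ T, i ≠ c → b i + g * η / 4 ≤ pt A W t i := by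
  classical
  have hss : s * s = 1 := by rcases hs with h | h <;> rw [h] <;> norm_num
  have habs : |s| = 1 := by rcases hs with h | h <;> rw [h] <;> norm_num
  have hr0 : 0 < r := hg.trans_le hgr
  have hWne : ∀ i ∈ G, W i ≠ 0 := by
    intro i hi h
    have := hWs i hi
    rw [h, mul_zero] at this
    linarith
  have hrη : r ≤ r / η := by
    rw [le_div_iff₀ hη]
    nlinarith
  have hrη2 : r / η ≤ η / 64 := by
    rw [div_le_iff₀ hη]
    nlinarith
  -- the times
  have hθ : ∀ i ∈ G, |(b i - A i) / W i - τ| ≤ 2 * r / η := by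
    intro i hi
    have h2 : (b i - A i) / W i - τ = (-(A i - a i) - τ * (W i - v i)) / W i := by
      rw [hb i hi]
      have := hWne i hi
      field_simp
      ring
    have h3 : η ≤ |W i| := by
      have := le_abs_self (s * W i)
      rw [abs_mul, habs, one_mul] at this
      exact (hWs i hi).trans this
    rw [h2, abs_div, div_le_div_iff₀ (by linarith) hη]
    have h4 : |(-(A i - a i) - τ * (W i - v i))| ≤ 2 * r := by
      have h5 := hA i
      have h6 := hW i
      rw [abs_le] at h5 h6 ⊢
      constructor <;> nlinarith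
    calc |(-(A i - a i) - τ * (W i - v i))| * η ≤ 2 * r * η := mul_le_mul_of_nonneg_right h4 hη.le
      _ ≤ 2 * r * |W i| := mul_le_mul_of_nonneg_left h3 (by linarith)
  obtain ⟨c, hc, hcmax⟩ := G.exists_max_image (fun i => s * ((b i - A i) / W i)) hG
  have hgap : ∀ i ∈ G, i ≠ c → s * ((b i - A i) / W i) + g ≤ s * ((b c - A c) / W c) := by
    intro i hi hic
    have h2 := hcmax i hi
    have h3 := hdist i hi c hc hic
    have h4 : (b i - A i) * W c - (b c - A c) * W i =
        ((b i - A i) / W i - (b c - A c) / W c) * (W i * W c) := by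
      have := hWne i hi
      have := hWne c hc
      field_simp
    rw [h4, abs_mul] at h3
    have h5 : |W i * W c| ≤ 1 := by
      rw [abs_mul]
      have h6 := hW1 i
      have h7 := hW1 c
      have h8 := abs_nonneg (W i)
      have h9 := abs_nonneg (W c)
      nlinarith
    have h6 : g ≤ |(b i - A i) / W i - (b c - A c) / W c| := by
      have h7 := abs_nonneg ((b i - A i) / W i - (b c - A c) / W c)
      nlinarith
    have h7 : |(b i - A i) / W i - (b c - A c) / W c| =
        s * ((b c - A c) / W c) - s * ((b i - A i) / W i) := by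
      rw [← mul_sub, ← one_mul |(b i - A i) / W i - (b c - A c) / W c|, ← habs, ← abs_mul, mul_sub,
        mul_sub, abs_sub_comm]
      exact abs_of_nonneg (by linarith)
    linarith
  set t₀ : ℝ := (b c - A c) / W c - s * (g / 2) with ht₀
  have hsg : |s * (g / 2)| = g / 2 := by
    rw [abs_mul, habs, one_mul, abs_of_pos (by linarith)]
  refine ⟨c, hc, t₀, ?_, ?_⟩
  · have h2 : t₀ - (b c - A c) / W c = -(s * (g / 2)) := by rw [ht₀]; ring
    rw [h2, abs_neg, hsg]
  intro t ht
  -- the position of the time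
  have hst1 : s * t ≤ s * ((b c - A c) / W c) - g / 4 := by
    have h2 : |s * (t - t₀)| ≤ g / 4 := by rw [abs_mul, habs, one_mul]; exact ht
    have h3 : s * (t - t₀) = s * t - s * ((b c - A c) / W c) + g / 2 := by
      rw [ht₀, mul_sub, mul_sub, ← mul_assoc, hss]
      ring
    rw [h3, abs_le] at h2
    linarith [h2.2]
  have hst2 : s * ((b c - A c) / W c) - 3 * g / 4 ≤ s * t := by
    have h2 : |s * (t - t₀)| ≤ g / 4 := by rw [abs_mul, habs, one_mul]; exact ht
    have h3 : s * (t - t₀) = s * t - s * ((b c - A c) / W c) + g / 2 := by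
      rw [ht₀, mul_sub, mul_sub, ← mul_assoc, hss]
      ring
    rw [h3, abs_le] at h2
    linarith [h2.1]
  have htτ : |t - τ| ≤ 11 / 4 * (r / η) := by
    have h2 := hθ c hc
    have h4 : t - τ = ((b c - A c) / W c - τ) + (t - t₀) - s * (g / 2) := by rw [ht₀]; ring
    rw [h4]
    refine (abs_sub _ _).trans ?_
    rw [hsg]
    have h6 := abs_add_le ((b c - A c) / W c - τ) (t - t₀)
    have h5 : 2 * r / η = 2 * (r / η) := by ring
    linarith
  have htτ2 : |t - τ| ≤ 1 / 16 := by linarith
  have hclose : ∀ i, |pt A W t i - pt a v τ i| ≤ 5 * r / η := by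
    intro i
    have h2 : pt A W t i - pt a v τ i = (A i - a i) + (t - τ) * W i + τ * (W i - v i) := by
      unfold pt
      ring
    rw [h2]
    have h3 : |(t - τ) * W i| ≤ 11 / 4 * (r / η) := by
      rw [abs_mul]
      calc |t - τ| * |W i| ≤ |t - τ| * 1 := mul_le_mul_of_nonneg_left (hW1 i) (abs_nonneg _)
        _ ≤ 11 / 4 * (r / η) := by rw [mul_one]; exact htτ
    have h4 : |τ * (W i - v i)| ≤ r := by
      rw [abs_mul, abs_of_nonneg (by linarith)]
      calc τ * |W i - v i| ≤ 1 * |W i - v i| :=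
            mul_le_mul_of_nonneg_right (by linarith) (abs_nonneg _)
        _ ≤ r := by rw [one_mul]; exact hW i
    have h5 := hA i
    have h6 : 5 * r / η = 5 * (r / η) := by ring
    have h7 := abs_add_three (A i - a i) ((t - τ) * W i) (τ * (W i - v i))
    rw [h6]
    linarith
  refine ⟨?_, hclose, ?_, ?_⟩
  · rw [abs_le] at htτ2
    constructor <;> linarith [htτ2.1, htτ2.2]
  · have h2 : pt A W t c = b c - (s * ((b c - A c) / W c) - s * t) * (s * W c) := by
      unfold pt
      have h3 := hWne c hc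
      have h4 : (s * ((b c - A c) / W c) - s * t) * (s * W c) =
          (s * s) * (b c - A c - t * W c) := by
        field_simp
      rw [h4, hss]
      ring
    rw [h2]
    have h3 := hWs c hc
    have h4 : g / 4 * η ≤ (s * ((b c - A c) / W c) - s * t) * (s * W c) :=
      mul_le_mul (by linarith) h3 hη.le (by linarith)
    linarith
  · intro i hi hic
    by_cases hiG : i ∈ G
    · have h2 : pt A W t i = b i + (s * t - s * ((b i - A i) / W i)) * (s * W i) := by
        unfold pt
        have h3 := hWne i hiG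
        have h4 : (s * t - s * ((b i - A i) / W i)) * (s * W i) =
            (s * s) * (t * W i - (b i - A i)) := by
          field_simp
        rw [h4, hss]
        ring
      rw [h2]
      have h3 := hgap i hiG hic
      have h4 := hWs i hiG
      have h5 : g / 4 ≤ s * t - s * ((b i - A i) / W i) := by linarith
      have h6 : g / 4 * η ≤ (s * t - s * ((b i - A i) / W i)) * (s * W i) :=
        mul_le_mul h5 h4 hη.le (by linarith)
      linarith
    · have h2 := hb' i hi hiG
      have h3 := hclose i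
      rw [abs_le] at h3
      have h4 : pt a v τ i = a i + τ * v i := rfl
      have h5 : 5 * r / η = 5 * (r / η) := by ring
      have h6 : g * η ≤ r * 1 := mul_le_mul hgr hη1 hη.le hr0.le
      rw [h5] at h3
      linarith [h3.1]

/-- **Selection with intervals of times** -/
theorem selectR {a v : Fin n → ℝ} {η : ℝ} (hη : 0 < η) (hη1 : η ≤ 1) (hv : ∀ i, η ≤ |v i|)
    {t₁ t₂ : ℝ} (h0 : 1 / 4 ≤ t₁) (h12 : t₁ + 1 / 8 ≤ t₂) (h1 : t₂ ≤ 7 / 8)
    {A W : ℕ → Fin n → ℝ} {g r : ℕ → ℝ} :
    ∀ (N : ℕ), (∀ m, m < N → 0 < g m ∧ g m ≤ r m ∧ 64 * r m ≤ η ^ 2 ∧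
        (∀ i, |A m i - a i| ≤ r m) ∧ (∀ i, |W m i - v i| ≤ r m) ∧ (∀ i, |W m i| ≤ 1) ∧
        (∀ i, 0 < v i → η ≤ W m i) ∧ (∀ i, v i < 0 → W m i ≤ -η) ∧
        (∀ i j, i ≠ j →
          g m ≤ |(a i + t₁ * v i - A m i) * W m j - (a j + t₁ * v j - A m j) * W m i|) ∧
        (∀ i j, i ≠ j →
          g m ≤ |(a i + t₂ * v i - A m i) * W m j - (a j + t₂ * v j - A m j) * W m i|)) →
      (∀ m m', m < m' → m' < N → 20 * r m ≤ η ^ 2 * g m') →
      ∀ T : Finset (Fin n), T.card = N →
      ∃ (k : Fin n → ℕ) (t : Fin n → ℝ),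
        (∀ c ∈ T, k c < N ∧
          |t c - (a c + bt v t₁ t₂ c * v c - A (k c) c) / W (k c) c| ≤ g (k c) / 2 ∧
          ∀ t', |t' - t c| ≤ g (k c) / 4 → (1 / 8 ≤ t' ∧ t' ≤ 15 / 16) ∧
          ∀ i, |pt (A (k c)) (W (k c)) t' i - pt a v (bt v t₁ t₂ c) i| ≤ 5 * r (k c) / η) ∧
        ∀ c ∈ T, ∀ c' ∈ T, c ≠ c' → ∀ t' t'', |t' - t c| ≤ g (k c) / 4 →
          |t'' - t c'| ≤ g (k c') / 4 →
          pt (A (k c)) (W (k c)) t' c ≤ pt (A (k c')) (W (k c')) t'' c := by
  classical
  have hv0 : ∀ i, v i ≠ 0 := by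
    intro i h
    have := hv i
    rw [h, abs_zero] at this
    linarith
  intro N
  induction N with
  | zero =>
    intro _ _ T hT
    rw [Finset.card_eq_zero] at hT
    rw [hT]
    exact ⟨fun _ => 0, fun _ => 0, by simp, by simp⟩
  | succ N ih =>
    intro hall hsc T hT
    have hTne : T.Nonempty := by
      rw [← Finset.card_pos, hT]; omega
    obtain ⟨hg, hgr, hr, hA, hW, hW1, hWp, hWn, hd1, hd2⟩ := hall N (Nat.lt_succ_self N)
    -- the coarsest segment
    have hfirst : ∃ c ∈ T, ∃ t₀,
        |t₀ - (a c + bt v t₁ t₂ c * v c - A N c) / W N c| ≤ g N / 2 ∧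
        ∀ t, |t - t₀| ≤ g N / 4 → (1 / 8 ≤ t ∧ t ≤ 15 / 16) ∧
        (∀ i, |pt (A N) (W N) t i - pt a v (bt v t₁ t₂ c) i| ≤ 5 * r N / η) ∧
        pt (A N) (W N) t c ≤ a c + bt v t₁ t₂ c * v c - g N * η / 4 ∧
        ∀ i ∈ T, i ≠ c → a i + bt v t₁ t₂ i * v i + g N * η / 4 ≤ pt (A N) (W N) t i := by
      by_cases hpos : (T.filter (fun i => 0 < v i)).Nonempty
      · obtain ⟨c, hc, t, ht, h2⟩ := pickR (T := T) (G := T.filter (fun i => 0 < v i))
          hpos (s := 1) (Or.inl rfl) (a := a) (v := v) (b := fun i => a i + bt v t₁ t₂ i * v i)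
          (A := A N) (W := W N) (τ := t₁) hη hη1 hg hgr hr hA hW (by
            intro i hi
            rw [one_mul]; exact hWp i (Finset.mem_filter.1 hi).2) hW1 h0 (by linarith) (by
            intro i hi
            simp only [bt]
            rw [if_pos (Finset.mem_filter.1 hi).2]) (by
            intro i hiT hi
            have hvi : v i < 0 := by
              rcases lt_or_gt_of_ne (hv0 i) with h | h
              · exact h
              · exact absurd (Finset.mem_filter.2 ⟨hiT, h⟩) hi
            simp only [bt]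
            rw [if_neg (not_lt.2 hvi.le)]
            have h5 := hv i
            rw [abs_of_neg hvi] at h5
            nlinarith) (by
            intro i hi j hj hij
            have hi' := (Finset.mem_filter.1 hi).2
            have hj' := (Finset.mem_filter.1 hj).2
            simp only [bt]
            rw [if_pos hi', if_pos hj']
            exact hd1 i j hij)
        have hc' := Finset.mem_filter.1 hc
        refine ⟨c, hc'.1, t, ht, fun t' ht' => ?_⟩
        obtain ⟨h3, h4, h5⟩ := h2 t' ht'
        refine ⟨h3, ?_, h5⟩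
        have h6 : bt v t₁ t₂ c = t₁ := by
          simp only [bt]
          rw [if_pos hc'.2]
        rw [h6]
        exact h4
      · have hneg : ∀ i ∈ T, v i < 0 := by
          intro i hi
          rcases lt_or_gt_of_ne (hv0 i) with h | h
          · exact h
          · exact absurd ⟨i, Finset.mem_filter.2 ⟨hi, h⟩⟩ hpos
        obtain ⟨c, hc, t, ht, h2⟩ := pickR (T := T) (G := T)
          hTne (s := -1) (Or.inr rfl) (a := a) (v := v) (b := fun i => a i + bt v t₁ t₂ i * v i)
          (A := A N) (W := W N) (τ := t₂) hη hη1 hg hgr hr hA hW (by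
            intro i hi
            have := hWn i (hneg i hi)
            linarith) hW1 (by linarith) h1 (by
            intro i hi
            simp only [bt]
            rw [if_neg (not_lt.2 (hneg i hi).le)]) (by
            intro i hiT hi
            exact absurd hiT hi) (by
            intro i hi j hj hij
            simp only [bt]
            rw [if_neg (not_lt.2 (hneg i hi).le), if_neg (not_lt.2 (hneg j hj).le)]
            exact hd2 i j hij)
        refine ⟨c, hc, t, ht, fun t' ht' => ?_⟩
        obtain ⟨h3, h4, h5⟩ := h2 t' ht'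
        refine ⟨h3, ?_, h5⟩
        have h6 : bt v t₁ t₂ c = t₂ := by
          simp only [bt]
          rw [if_neg (not_lt.2 (hneg c hc).le)]
        rw [h6]
        exact h4
    obtain ⟨c₀, hc₀, t₀, ht₀, hfst⟩ := hfirst
    obtain ⟨k, t, hkt, hstrict⟩ := ih (fun m hm => hall m (by omega))
      (fun m m' h2 h3 => hsc m m' h2 (by omega)) (T.erase c₀) (by
      rw [Finset.card_erase_of_mem hc₀, hT]; rfl)
    have hfine : ∀ c ∈ T, c ≠ c₀ → ∀ t', |t' - t c| ≤ g (k c) / 4 → ∀ i,
        |pt (A (k c)) (W (k c)) t' i - pt a v (bt v t₁ t₂ c) i| ≤ g N * η / 4 := by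
      intro c hc hcc t' ht' i
      obtain ⟨h2, _, h3⟩ := hkt c (Finset.mem_erase.2 ⟨hcc, hc⟩)
      refine ((h3 t' ht').2 i).trans ?_
      rw [div_le_iff₀ hη]
      have h4 := hsc (k c) N h2 (Nat.lt_succ_self N)
      nlinarith
    refine ⟨Function.update k c₀ N, Function.update t c₀ t₀, ?_, ?_⟩
    · intro c hc
      by_cases hcc : c = c₀
      · rw [hcc, Function.update_self, Function.update_self]
        exact ⟨Nat.lt_succ_self N, ht₀, fun t' ht' => ⟨(hfst t' ht').1, (hfst t' ht').2.1⟩⟩
      · rw [Function.update_of_ne hcc, Function.update_of_ne hcc]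
        have h2 := hkt c (Finset.mem_erase.2 ⟨hcc, hc⟩)
        exact ⟨by omega, h2.2⟩
    · intro c hc c' hc' hcc' t' t'' ht' ht''
      by_cases h2 : c = c₀
      · have h3 : c' ≠ c₀ := fun h => hcc' (by rw [h2, h])
        rw [h2] at ht' ⊢
        rw [Function.update_self, Function.update_self] at ht'
        rw [Function.update_of_ne h3, Function.update_of_ne h3] at ht''
        rw [Function.update_self, Function.update_of_ne h3]
        have h4 := hfine c' hc' h3 t'' ht'' c₀
        rw [abs_le] at h4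
        have h5 := base_le hv0 (show t₁ < t₂ by linarith) (a := a) c₀ c'
        have h6 : pt a v (bt v t₁ t₂ c') c₀ = a c₀ + bt v t₁ t₂ c' * v c₀ := rfl
        have h7 := (hfst t' ht').2.2.1
        linarith [h4.1]
      · by_cases h3 : c' = c₀
        · rw [h3] at ht'' ⊢
          rw [Function.update_self, Function.update_self] at ht''
          rw [Function.update_of_ne h2, Function.update_of_ne h2] at ht'
          rw [Function.update_self, Function.update_of_ne h2]
          have h4 := hfine c hc h2 t' ht' c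
          rw [abs_le] at h4
          have h5 := (hfst t'' ht'').2.2.2 c hc h2
          have h6 : pt a v (bt v t₁ t₂ c) c = a c + bt v t₁ t₂ c * v c := rfl
          linarith [h4.2]
        · rw [Function.update_of_ne h2, Function.update_of_ne h2] at ht'
          rw [Function.update_of_ne h3, Function.update_of_ne h3] at ht''
          rw [Function.update_of_ne h2, Function.update_of_ne h3]
          exact hstrict c (Finset.mem_erase.2 ⟨h2, hc⟩) c' (Finset.mem_erase.2 ⟨h3, hc'⟩) hcc'
            t' t'' ht' ht''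

end Pool.Agent.Helper634ord.Tub
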