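import Mathlib
import Pool.Agent.Helper634ord.Kak2
import Pool.Agent.Helper634ord.Tub8

/-!
# Quantitative selection for segments with small gaps: clusters, times and selection (helper634)
-/

set_option autoImplicit false

namespace Pool.Agent.Helper634ord.Tub

open MeasureTheory Set Kak

variable {n : ℕ}

/-- **Clusters, times and selection together, segments with small gaps** -/
theorem boxR (hn : 1 ≤ n) {R : ℝ} (hR : 1 ≤ R) :
    ∃ c : ℝ, 0 < c ∧ c ≤ 1 ∧ ∃ C : ℕ, ∀ η : ℝ, 0 < η → η ≤ 1 → ∀ x : ℝ, 0 < x → x ≤ η →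
      ∀ (P : Set ((Fin n → ℝ) × (Fin n → ℝ))) (F : (Fin n → ℝ) × (Fin n → ℝ) → Set ℝ),
        (∀ p ∈ P, (∀ i, |p.1 i| ≤ R) ∧ (∀ i, η ≤ |p.2 i|) ∧ ∀ i, |p.2 i| ≤ 1) →
        (∀ p ∈ P, volume (Set.Icc 0 1 \ F p) ≤ ENNReal.ofReal (1 / (512 * (n : ℝ) ^ 2))) →
        ENNReal.ofReal x ≤ volume (dirs P) →
        ∃ d : ℝ, c * x ^ C ≤ d ∧ 0 < d ∧
        ∃ a v : Fin n → ℝ, (a, v) ∈ P ∧ ∃ A W : ℕ → Fin n → ℝ,
          (∀ m, m < n → (A m, W m) ∈ P ∧ ∀ i, 64 * |A m i - a i| ≤ η ^ 2 ∧
            64 * |W m i - v i| ≤ η ^ 2) ∧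
          ∀ s : Fin n → ℝ, (∀ i, s i = 1 ∨ s i = -1) →
            ∃ (k : Fin n → ℕ) (t γ : Fin n → ℝ),
            (∀ c, k c < n ∧ d ≤ γ c ∧ (∀ t', |t' - t c| ≤ γ c → 1 / 8 ≤ t' ∧ t' ≤ 15 / 16) ∧
              ENNReal.ofReal (γ c) ≤
                volume (F (A (k c), W (k c)) ∩ Metric.closedBall (t c) (γ c))) ∧
            ∀ c c', c ≠ c' → ∀ t' t'', |t' - t c| ≤ γ c → |t'' - t c'| ≤ γ c' →
              s c * pt (A (k c)) (W (k c)) t' c ≤ s c * pt (A (k c')) (W (k c')) t'' c := by
  classical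
  have hn0 : (0 : ℝ) < n := by exact_mod_cast hn
  have hn1 : (1 : ℝ) ≤ n := by exact_mod_cast hn
  set θ : ℝ := 1 / (16 * (n : ℝ) ^ 3) with hθ
  have hθ0 : 0 < θ := by positivity
  have hn3 : (1 : ℝ) ≤ (n : ℝ) ^ 3 := one_le_pow₀ hn1
  have hθ1 : θ ≤ 1 := by
    rw [hθ, div_le_one (by positivity)]
    linarith
  obtain ⟨c, hc, hc1, C, hC⟩ := cluster hn hR (κ := θ / 20) (by positivity) (by linarith) n
  refine ⟨c * (1 / 64) ^ C * θ / 4, by positivity, ?_, 3 * C, ?_⟩
  · have h1 : (1 / 64 : ℝ) ^ C ≤ 1 := pow_le_one₀ (by norm_num) (by norm_num)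
    have h2 : c * (1 / 64 : ℝ) ^ C ≤ 1 * 1 := mul_le_mul hc1 h1 (by positivity) zero_le_one
    have h3 : c * (1 / 64 : ℝ) ^ C * θ ≤ 1 * 1 * 1 :=
      mul_le_mul h2 hθ1 hθ0.le (by norm_num)
    linarith
  intro η hη hη1 x hx hxη P F hP hF hv
  have hη2 : η ^ 2 ≤ 1 := pow_le_one₀ hη.le hη1
  set x' : ℝ := x * η ^ 2 / 64 with hx'
  have hx'0 : 0 < x' := by positivity
  have hx'x : x' ≤ x := by
    rw [hx', div_le_iff₀ (by norm_num)]
    nlinarith
  have hx'η : 64 * x' ≤ η ^ 2 := by
    have h1 : 64 * x' = x * η ^ 2 := by rw [hx']; ring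
    rw [h1]
    have h2 : x ≤ 1 := hxη.trans hη1
    have h3 : 0 < η ^ 2 := by positivity
    nlinarith
  obtain ⟨a, v, hav, A, W, ρ, r, h1, h2⟩ := hC η hη hη1 x' hx'0 (by linarith) P hP
    ((ENNReal.ofReal_le_ofReal hx'x).trans hv)
  set q : ℝ := c * x' ^ C with hq
  have hq0 : 0 < q := by positivity
  have hρ0 : ∀ m, m < n → 0 < ρ m := fun m hm => hq0.trans_le (h1 m hm).2.2.2.1
  have hclose : ∀ m, m < n → ∀ i, 64 * |A m i - a i| ≤ η ^ 2 ∧ 64 * |W m i - v i| ≤ η ^ 2 := by
    intro m hm i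
    have h3 := (h1 m hm).2.1 i
    have h4 := (h1 m hm).2.2.2.2.1
    constructor <;> linarith [h3.1, h3.2]
  have hWη : ∀ m, m < n → ∀ i, η ≤ |W m i| := fun m hm i => (hP _ (h1 m hm).1).2.1 i
  have hWne : ∀ m, m < n → ∀ i, W m i ≠ 0 := by
    intro m hm i h
    have := hWη m hm i
    rw [h, abs_zero] at this
    linarith
  -- the exceptional sets of times on the segments
  set Fc : ℕ → Set ℝ := fun m => toMeasurable volume (Set.Icc 0 1 \ F (A m, W m)) with hFc
  have hFcm : ∀ m, MeasurableSet (Fc m) := fun m => measurableSet_toMeasurable _ _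
  have hFcv : ∀ m, m < n → volume (Fc m) ≤ ENNReal.ofReal (1 / (512 * (n : ℝ) ^ 2)) := by
    intro m hm
    rw [hFc]
    simp only [measure_toMeasurable]
    exact hF _ (h1 m hm).1
  -- the good times
  set S : Finset (ℕ × Fin n × Fin n) :=
    (Finset.range n ×ˢ (Finset.univ ×ˢ Finset.univ)).filter (fun k => k.2.1 ≠ k.2.2) with hS
  have hScard : (S.card : ℝ) ≤ (n : ℝ) ^ 3 := by
    have h3 : S.card ≤ n * (n * n) := by
      refine (Finset.card_filter_le _ _).trans (le_of_eq ?_)
      rw [Finset.card_product, Finset.card_product, Finset.card_range, Finset.card_univ,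
        Fintype.card_fin]
    calc (S.card : ℝ) ≤ ((n * (n * n) : ℕ) : ℝ) := by exact_mod_cast h3
      _ = (n : ℝ) ^ 3 := by push_cast; ring
  have hSθ : (S.card : ℝ) * (2 * θ) ≤ 1 / 8 := by
    calc (S.card : ℝ) * (2 * θ) ≤ (n : ℝ) ^ 3 * (2 * θ) :=
          mul_le_mul_of_nonneg_right hScard (by positivity)
      _ = 1 / 8 := by
          rw [hθ]
          field_simp
          norm_num
  have hSm : ∀ k ∈ S, k.1 < n ∧ k.2.1 ≠ k.2.2 := by
    intro k hk
    rw [hS, Finset.mem_filter, Finset.mem_product, Finset.mem_range] at hk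
    exact ⟨hk.1.1, hk.2⟩
  set B₁ : Set ℝ := ⋃ k ∈ S, {τ : ℝ | |((a k.2.1 - A k.1 k.2.1) * W k.1 k.2.2 -
    (a k.2.2 - A k.1 k.2.2) * W k.1 k.2.1) + τ * (v k.2.1 * W k.1 k.2.2 - v k.2.2 * W k.1 k.2.1)| <
      ρ k.1 * θ} with hB₁
  set B₂ : Set ℝ := ⋃ k ∈ Finset.range n ×ˢ (Finset.univ : Finset (Fin n)),
    {τ : ℝ | ENNReal.ofReal (ρ k.1 * θ / 4) < volume (Fc k.1 ∩
      Metric.closedBall ((a k.2 - A k.1 k.2) / W k.1 k.2 + τ * (v k.2 / W k.1 k.2)) (ρ k.1 * θ))}
    with hB₂
  have hB₁v : volume B₁ ≤ ENNReal.ofReal (1 / 8) :=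
    (generic_bad S (fun k hk => hρ0 _ (hSm k hk).1)
      (fun k hk => (h1 _ (hSm k hk).1).2.2.1 _ _ (hSm k hk).2) hθ0).trans
      (ENNReal.ofReal_le_ofReal hSθ)
  have hB₂v : volume B₂ ≤ ENNReal.ofReal (1 / 32) := by
    have h3 : ∀ k ∈ Finset.range n ×ˢ (Finset.univ : Finset (Fin n)),
        volume {τ : ℝ | ENNReal.ofReal (ρ k.1 * θ / 4) < volume (Fc k.1 ∩
          Metric.closedBall ((a k.2 - A k.1 k.2) / W k.1 k.2 + τ * (v k.2 / W k.1 k.2))
            (ρ k.1 * θ))} ≤ ENNReal.ofReal (16 * (1 / (512 * (n : ℝ) ^ 2))) := by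
      intro k hk
      have hkn : k.1 < n := Finset.mem_range.1 (Finset.mem_product.1 hk).1
      apply dense_bad (hFcm k.1) (mul_pos (hρ0 _ hkn) hθ0) (by positivity) _ (hFcv _ hkn)
      rw [abs_div, le_div_iff₀ (lt_of_lt_of_le hη (hWη _ hkn _))]
      have h4 := (hclose _ hkn k.2).2
      have h5 := hWη _ hkn k.2
      have h6 : |W k.1 k.2| ≤ |W k.1 k.2 - v k.2| + |v k.2| := by
        have := abs_add_le (W k.1 k.2 - v k.2) (v k.2)
        simpa using this
      have h7 : η ^ 2 ≤ η := by nlinarith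
      linarith
    refine (measure_biUnion_finset_le _ _).trans ((Finset.sum_le_sum h3).trans ?_)
    rw [Finset.sum_const, Finset.card_product, Finset.card_range, Finset.card_univ,
      Fintype.card_fin, nsmul_eq_mul, ← ENNReal.ofReal_natCast, ← ENNReal.ofReal_mul (by positivity)]
    apply ENNReal.ofReal_le_ofReal
    push_cast
    have h4 : (n : ℝ) * n * (16 * (1 / (512 * (n : ℝ) ^ 2))) = 1 / 32 := by
      field_simp
      norm_num
    exact h4.le
  have hBv : volume (B₁ ∪ B₂) < ENNReal.ofReal (1 / 4) := by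
    refine lt_of_le_of_lt ((measure_union_le _ _).trans (add_le_add hB₁v hB₂v)) ?_
    rw [← ENNReal.ofReal_add (by norm_num) (by norm_num)]
    exact (ENNReal.ofReal_lt_ofReal_iff (by norm_num)).2 (by norm_num)
  have htime : ∀ τ, τ ∉ B₁ ∪ B₂ → (∀ m, m < n → ∀ i j, i ≠ j →
      ρ m * θ ≤ |(a i + τ * v i - A m i) * W m j - (a j + τ * v j - A m j) * W m i|) ∧
      ∀ m, m < n → ∀ i, volume (Fc m ∩ Metric.closedBall ((a i + τ * v i - A m i) / W m i)
        (ρ m * θ)) ≤ ENNReal.ofReal (ρ m * θ / 4) := by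
    intro τ hτ
    rw [Set.mem_union, not_or] at hτ
    constructor
    · intro m hm i j hij
      by_contra hcon
      apply hτ.1
      rw [hB₁, mem_iUnion₂]
      refine ⟨(m, i, j), ?_, ?_⟩
      · rw [hS, Finset.mem_filter, Finset.mem_product, Finset.mem_range]
        exact ⟨⟨hm, by simp⟩, hij⟩
      · show |((a i - A m i) * W m j - (a j - A m j) * W m i) + τ * (v i * W m j - v j * W m i)| <
          ρ m * θ
        have h4 : (a i + τ * v i - A m i) * W m j - (a j + τ * v j - A m j) * W m i =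
          (a i - A m i) * W m j - (a j - A m j) * W m i + τ * (v i * W m j - v j * W m i) := by ring
        rw [← h4]
        exact not_le.1 hcon
    · intro m hm i
      by_contra hcon
      apply hτ.2
      rw [hB₂, mem_iUnion₂]
      refine ⟨(m, i), ?_, ?_⟩
      · rw [Finset.mem_product, Finset.mem_range]
        exact ⟨hm, Finset.mem_univ _⟩
      · show ENNReal.ofReal (ρ m * θ / 4) < volume (Fc m ∩
          Metric.closedBall ((a i - A m i) / W m i + τ * (v i / W m i)) (ρ m * θ))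
        have h4 : (a i - A m i) / W m i + τ * (v i / W m i) = (a i + τ * v i - A m i) / W m i := by
          ring
        rw [h4]
        exact not_le.1 hcon
  obtain ⟨t₁, ht₁a, ht₁b, ht₁⟩ := exists_avoid (B := B₁ ∪ B₂) (u := 1 / 4) (w := 1 / 2)
    (hBv.trans_le (ENNReal.ofReal_le_ofReal (by norm_num)))
  obtain ⟨t₂, ht₂a, ht₂b, ht₂⟩ := exists_avoid (B := B₁ ∪ B₂) (u := 5 / 8) (w := 7 / 8)
    (hBv.trans_le (ENNReal.ofReal_le_ofReal (by norm_num)))
  obtain ⟨ht₁g, ht₁d⟩ := htime t₁ ht₁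
  obtain ⟨ht₂g, ht₂d⟩ := htime t₂ ht₂
  -- scales
  have hscale : ∀ m', m' < n → ∀ m, m < m' → 20 * r m ≤ η ^ 2 * (ρ m' * θ) := by
    intro m'
    induction m' with
    | zero => intro _ m hm; omega
    | succ m' ih =>
      intro hm' m hm
      have h3 := h2 m' hm'
      have h4 : 20 * r m' ≤ η ^ 2 * (ρ (m' + 1) * θ) := by
        calc 20 * r m' ≤ 20 * (θ / 20 * η ^ 2 * ρ (m' + 1)) := by linarith
          _ = η ^ 2 * (ρ (m' + 1) * θ) := by ring
      rcases Nat.lt_succ_iff_lt_or_eq.1 hm with h5 | h5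
      · have h6 := ih (by omega) m h5
        have h7 : ρ m' * θ ≤ r m' := by
          have h8 := (h1 m' (by omega)).2.2.2.2.2
          have h9 := hρ0 m' (by omega)
          nlinarith
        have h10 : 0 < ρ m' * θ := mul_pos (hρ0 m' (by omega)) hθ0
        have h11 : η ^ 2 * (ρ m' * θ) ≤ 1 * (ρ m' * θ) := mul_le_mul_of_nonneg_right hη2 h10.le
        linarith
      · rw [h5]; exact h4
  set d : ℝ := q * θ / 4 with hd
  have hd0 : 0 < d := by positivity
  have hdg : ∀ m, m < n → d ≤ ρ m * θ / 4 := by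
    intro m hm
    have h3 := (h1 m hm).2.2.2.1
    rw [hd]
    have h4 : q * θ ≤ ρ m * θ := mul_le_mul_of_nonneg_right h3 hθ0.le
    linarith
  refine ⟨d, ?_, hd0, a, v, hav, A, W, fun m hm => ⟨(h1 m hm).1, hclose m hm⟩, ?_⟩
  · have h3 : x ^ 3 / 64 ≤ x' := by
      rw [hx']
      have h4 : x ^ 2 ≤ η ^ 2 := pow_le_pow_left₀ hx.le hxη 2
      have h5 : x ^ 3 = x * x ^ 2 := by ring
      rw [h5]
      apply div_le_div_of_nonneg_right _ (by norm_num)
      exact mul_le_mul_of_nonneg_left h4 hx.le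
    have h4 : (x ^ 3 / 64) ^ C ≤ x' ^ C := pow_le_pow_left₀ (by positivity) h3 C
    have h5 : c * (x ^ 3 / 64) ^ C ≤ q := mul_le_mul_of_nonneg_left h4 hc.le
    have h6 : c * (1 / 64) ^ C * θ / 4 * x ^ (3 * C) = c * (x ^ 3 / 64) ^ C * θ / 4 := by
      rw [show x ^ 3 / 64 = x ^ 3 * (1 / 64) by ring, mul_pow, ← pow_mul]
      ring
    rw [h6, hd]
    have h7 : c * (x ^ 3 / 64) ^ C * θ ≤ q * θ := mul_le_mul_of_nonneg_right h5 hθ0.le
    linarith
  · intro s hs
    have hss : ∀ i, s i * s i = 1 := by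
      intro i
      rcases hs i with h | h <;> rw [h] <;> norm_num
    have hs0 : ∀ i, s i ≠ 0 := by
      intro i h
      have := hss i
      rw [h] at this
      norm_num at this
    have habs : ∀ i, |s i| = 1 := by
      intro i
      rcases hs i with h | h <;> rw [h] <;> norm_num
    have hsm : ∀ i (y : ℝ), |s i * y| = |y| := by
      intro i y
      rw [abs_mul, habs, one_mul]
    have hsign : ∀ m, m < n → ∀ i, (0 < s i * v i → η ≤ s i * W m i) ∧
        (s i * v i < 0 → s i * W m i ≤ -η) := by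
      intro m hm i
      have h3 := (hP _ (h1 m hm).1).2.1 i
      have h4 := (hP _ hav).2.1 i
      simp only at h3 h4
      have h5 := (hclose m hm i).2
      rw [← hsm i (W m i)] at h3
      rw [← hsm i (v i)] at h4
      rw [← hsm i (W m i - v i), mul_sub] at h5
      have h6 : |s i * W m i - s i * v i| ≤ η / 64 := by nlinarith
      rw [abs_le] at h6
      constructor
      · intro h7
        rw [abs_of_pos h7] at h4
        have h8 : 0 < s i * W m i := by linarith [h6.1]
        rwa [abs_of_pos h8] at h3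
      · intro h7
        rw [abs_of_neg h7] at h4
        have h8 : s i * W m i < 0 := by linarith [h6.2]
        rw [abs_of_neg h8] at h3
        linarith
    have hflip : ∀ (t : ℝ) m i j, |(s i * a i + t * (s i * v i) - s i * A m i) * (s j * W m j) -
        (s j * a j + t * (s j * v j) - s j * A m j) * (s i * W m i)| =
        |(a i + t * v i - A m i) * W m j - (a j + t * v j - A m j) * W m i| := by
      intro t m i j
      have h3 : (s i * a i + t * (s i * v i) - s i * A m i) * (s j * W m j) -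
        (s j * a j + t * (s j * v j) - s j * A m j) * (s i * W m i) =
        s i * (s j * ((a i + t * v i - A m i) * W m j - (a j + t * v j - A m j) * W m i)) := by ring
      rw [h3, hsm, hsm]
    obtain ⟨k, t, hkt, hst⟩ := selectR (a := fun i => s i * a i) (v := fun i => s i * v i)
      (A := fun m i => s i * A m i) (W := fun m i => s i * W m i) (g := fun m => ρ m * θ) (r := r)
      (t₁ := t₁) (t₂ := t₂) hη hη1 (fun i => by
        rw [hsm]; exact (hP _ hav).2.1 i) ht₁a.le (by linarith) ht₂b.le n (by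
        intro m hm
        obtain ⟨g1, g2, g3, g4, g5, g6⟩ := h1 m hm
        refine ⟨mul_pos (hρ0 m hm) hθ0, ?_, by linarith, ?_, ?_, ?_, ?_, ?_, ?_, ?_⟩
        · have := hρ0 m hm
          nlinarith
        · intro i
          rw [← mul_sub, hsm]
          exact (g2 i).1
        · intro i
          rw [← mul_sub, hsm]
          exact (g2 i).2
        · intro i
          rw [hsm]
          exact (hP _ g1).2.2 i
        · intro i hi
          exact (hsign m hm i).1 hi
        · intro i hi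
          exact (hsign m hm i).2 hi
        · intro i j hij
          rw [hflip]
          exact ht₁g m hm i j hij
        · intro i j hij
          rw [hflip]
          exact ht₂g m hm i j hij) (fun m m' hm hm' => hscale m' hm' m hm) Finset.univ (by simp)
    have hpt : ∀ m τ i, pt (fun i => s i * A m i) (fun i => s i * W m i) τ i =
        s i * pt (A m) (W m) τ i := by
      intro m τ i
      unfold pt
      ring
    refine ⟨k, t, fun c => ρ (k c) * θ / 4, ?_, ?_⟩
    · intro c'
      obtain ⟨g1, g2, g3⟩ := hkt c' (Finset.mem_univ _)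
      refine ⟨g1, hdg _ g1, fun t' ht' => (g3 t' ht').1, ?_⟩
      set γ : ℝ := ρ (k c') * θ / 4 with hγ
      have hγ0 : 0 < γ := by
        have := hρ0 _ g1
        positivity
      -- the base time of the coordinate
      obtain ⟨τ, hτ, hτd⟩ : ∃ τ, bt (fun i => s i * v i) t₁ t₂ c' = τ ∧
          volume (Fc (k c') ∩ Metric.closedBall ((a c' + τ * v c' - A (k c') c') / W (k c') c')
            (ρ (k c') * θ)) ≤ ENNReal.ofReal γ := by
        unfold bt
        split_ifs
        · exact ⟨t₁, rfl, ht₁d _ g1 c'⟩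
        · exact ⟨t₂, rfl, ht₂d _ g1 c'⟩
      rw [hτ] at g2
      have h5 : (s c' * a c' + τ * (s c' * v c') - s c' * A (k c') c') / (s c' * W (k c') c') =
          (a c' + τ * v c' - A (k c') c') / W (k c') c' := by
        have h6 := hWne _ g1 c'
        have h7 := hs0 c'
        field_simp
      rw [h5] at g2
      have hcov : Metric.closedBall (t c') γ ⊆
          (F (A (k c'), W (k c')) ∩ Metric.closedBall (t c') γ) ∪
          (Fc (k c') ∩ Metric.closedBall ((a c' + τ * v c' - A (k c') c') / W (k c') c')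
            (ρ (k c') * θ)) := by
        intro t' ht'
        by_cases hF' : t' ∈ F (A (k c'), W (k c'))
        · exact Or.inl ⟨hF', ht'⟩
        · right
          rw [Metric.mem_closedBall, Real.dist_eq] at ht'
          have h6 := (g3 t' ht').1
          refine ⟨subset_toMeasurable _ _ ⟨⟨by linarith [h6.1], by linarith [h6.2]⟩, hF'⟩, ?_⟩
          rw [Metric.mem_closedBall, Real.dist_eq]
          have h7 : t' - (a c' + τ * v c' - A (k c') c') / W (k c') c' =
              (t' - t c') + (t c' - (a c' + τ * v c' - A (k c') c') / W (k c') c') := by ring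
          rw [h7]
          refine (abs_add_le _ _).trans ?_
          linarith
      have h6 := (measure_mono (μ := volume) hcov).trans (measure_union_le _ _)
      rw [Real.volume_closedBall] at h6
      have h7 : ENNReal.ofReal (2 * γ) = ENNReal.ofReal γ + ENNReal.ofReal γ := by
        rw [← ENNReal.ofReal_add hγ0.le hγ0.le]
        congr 1
        ring
      rw [h7] at h6
      exact (ENNReal.add_le_add_iff_right ENNReal.ofReal_ne_top).1 (h6.trans (by gcongr))
    · intro c₁ c₂ hcc t' t'' ht' ht''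
      have h3 := hst c₁ (Finset.mem_univ _) c₂ (Finset.mem_univ _) hcc t' t'' ht' ht''
      rw [hpt, hpt] at h3
      exact h3

end Pool.Agent.Helper634ord.Tub
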