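import Mathlib
import Pool.Agent.Helper634ord.Tub5
import Pool.Agent.Helper634ord.Tub9

/-!
# Segments with small gaps: minima, maxima and sets closed under an order operation (helper634)
-/

set_option autoImplicit false

namespace Pool.Agent.Helper634ord.Tub

open MeasureTheory Set Kak

variable {n : ℕ}

theorem vol_affine {A W : ℝ} (hW : W ≠ 0) (U : Set ℝ) :
    volume {z : ℝ | (z - A) / W ∈ U} = ENNReal.ofReal |W| * volume U := by
  have h1 : {z : ℝ | (z - A) / W ∈ U} =
      (fun z => z + -A) ⁻¹' ((fun z => z * W⁻¹) ⁻¹' U) := by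
    ext z
    simp only [Set.mem_ofPred_eq, Set.mem_preimage, div_eq_mul_inv, sub_eq_add_neg]
  rw [h1, measure_preimage_add_right, Real.volume_preimage_mul_right (inv_ne_zero hW), inv_inv]

theorem vol_prod {e : ℝ} (he : 0 ≤ e) {Y : Fin n → Set ℝ}
    (h : ∀ c, ENNReal.ofReal e ≤ volume (Y c)) {M : Set (Fin n → ℝ)}
    (hM : ∀ y : Fin n → ℝ, (∀ c, y c ∈ Y c) → y ∈ M) : ENNReal.ofReal (e ^ n) ≤ volume M := by
  have h1 : Set.pi Set.univ Y ⊆ M := fun y hy => hM y (fun c => hy c (Set.mem_univ c))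
  refine le_trans ?_ (measure_mono h1)
  rw [volume_pi_pi, ENNReal.ofReal_pow he]
  calc ENNReal.ofReal e ^ n = ∏ _i : Fin n, ENNReal.ofReal e := by simp
    _ ≤ ∏ i, volume (Y i) := Finset.prod_le_prod' (fun i _ => h i)

/-- **Main theorem in coordinates, segments with small gaps.** -/
theorem mainR (hn : 1 ≤ n) {R : ℝ} (hR : 1 ≤ R) :
    ∃ c : ℝ, 0 < c ∧ ∃ C : ℕ, ∀ lam : ℝ, 0 < lam → lam ≤ 1 → ∀ x : ℝ, 0 < x → x ≤ 1 →
      ∀ (P : Set ((Fin n → ℝ) × (Fin n → ℝ))) (F : (Fin n → ℝ) × (Fin n → ℝ) → Set ℝ),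
        (∀ p ∈ P, (∀ i, |p.1 i| ≤ R) ∧ ∀ i, |p.2 i| ≤ lam) →
        (∀ p ∈ P, volume (Set.Icc 0 1 \ F p) ≤ ENNReal.ofReal (1 / (512 * (n : ℝ) ^ 2))) →
        ENNReal.ofReal x ≤ volume (dirs P) →
        ∃ ε : ℝ, c * x ^ C ≤ ε ∧ 0 < ε ∧ ∀ K : Set (Fin n → ℝ),
          (∀ p ∈ P, ∀ t ∈ F p, 0 ≤ t → t ≤ 1 → pt p.1 p.2 t ∈ K) →
          ENNReal.ofReal (ε ^ n) ≤ volume {y : Fin n → ℝ | ∃ p : Fin n → Fin n → ℝ,
            (∀ c, p c ∈ K) ∧ (∀ c c' i, |p c i - p c' i| ≤ 4 * lam) ∧
              ∀ i, y i = p i i ∧ ∀ c, y i ≤ p c i} ∧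
          ENNReal.ofReal (ε ^ n) ≤ volume {y : Fin n → ℝ | ∃ p : Fin n → Fin n → ℝ,
            (∀ c, p c ∈ K) ∧ (∀ c c' i, |p c i - p c' i| ≤ 4 * lam) ∧
              ∀ i, y i = p i i ∧ ∀ c, p c i ≤ y i} ∧
          (BoxLCS K (4 * lam) → ENNReal.ofReal (ε ^ n) ≤ volume K) := by
  classical
  have hn0 : (0 : ℝ) < n := by exact_mod_cast hn
  have hn1 : (1 : ℝ) ≤ n := by exact_mod_cast hn
  obtain ⟨c, hc, hc1, C, hC⟩ := boxR hn hR
  set D : ℝ := (n : ℝ) * 2 ^ (n + 1) with hD
  have hD1 : 1 ≤ D := by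
    rw [hD]
    have h2 : (1 : ℝ) ≤ 2 ^ (n + 1) := one_le_pow₀ (by norm_num)
    nlinarith
  have hD0 : 0 < D := by linarith
  refine ⟨c * (1 / D) ^ (C + 1), by positivity, C + 1, ?_⟩
  intro lam hl0 hl1 x hx hx1 P F hP hF hv
  set η : ℝ := x / D with hη
  have hη0 : 0 < η := by positivity
  have hηx : η ≤ x := by
    rw [hη, div_le_iff₀ hD0]
    nlinarith
  have hη1 : η ≤ 1 := hηx.trans hx1
  -- remove vectors with small coordinates
  set P' : Set ((Fin n → ℝ) × (Fin n → ℝ)) := {p | p ∈ P ∧ ∀ i, η ≤ |p.2 i|} with hP'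
  have hvol : ENNReal.ofReal η ≤ volume (dirs P') := by
    have hcov : dirs P ⊆ dirs P' ∪ ⋃ i : Fin n, {w : Fin n → ℝ | (∀ k, |w k| ≤ 1) ∧ |w i| < η} := by
      rintro w ⟨b, hb⟩
      by_cases h : ∀ i, η ≤ |w i|
      · exact Or.inl ⟨b, hb, h⟩
      · push Not at h
        obtain ⟨i, hi⟩ := h
        exact Or.inr (mem_iUnion.2 ⟨i, fun k => ((hP _ hb).2 k).trans hl1, hi⟩)
    have h1 : volume (⋃ i : Fin n, {w : Fin n → ℝ | (∀ k, |w k| ≤ 1) ∧ |w i| < η}) ≤
        ENNReal.ofReal (x / 2) := by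
      refine (measure_iUnion_fintype_le _ _).trans ?_
      refine (Finset.sum_le_sum (fun i _ => thin hη0 i)).trans (le_of_eq ?_)
      rw [Finset.sum_const, Finset.card_univ, Fintype.card_fin, nsmul_eq_mul,
        ← ENNReal.ofReal_natCast, ← ENNReal.ofReal_mul (by positivity)]
      congr 1
      rw [hη, hD, pow_succ]
      field_simp
    have h2 : ENNReal.ofReal x ≤ volume (dirs P') + ENNReal.ofReal (x / 2) :=
      hv.trans ((measure_mono hcov).trans ((measure_union_le _ _).trans (add_le_add le_rfl h1)))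
    have h3 : ENNReal.ofReal x = ENNReal.ofReal (x / 2) + ENNReal.ofReal (x / 2) := by
      rw [← ENNReal.ofReal_add (by positivity) (by positivity)]
      congr 1
      ring
    rw [h3] at h2
    have h4 := (ENNReal.add_le_add_iff_right ENNReal.ofReal_ne_top).1 h2
    refine (ENNReal.ofReal_le_ofReal ?_).trans h4
    rw [hη, hD, div_le_div_iff₀ (by positivity) (by norm_num)]
    have h5 : (2 : ℝ) ≤ n * 2 ^ (n + 1) := by
      rw [pow_succ]
      have h6 : (1 : ℝ) ≤ 2 ^ n := one_le_pow₀ (by norm_num)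
      nlinarith
    nlinarith
  obtain ⟨d, hcd, hd0, a, v, hav, A, W, hAW, hsel⟩ := hC η hη0 hη1 η hη0 le_rfl P' F
    (fun p hp => ⟨(hP p hp.1).1, hp.2, fun i => ((hP p hp.1).2 i).trans hl1⟩)
    (fun p hp => hF p hp.1) hvol
  have hηl : η ≤ lam := (hav.2 ⟨0, hn⟩).trans ((hP _ hav.1).2 ⟨0, hn⟩)
  have hηd : 0 < η * d := by positivity
  refine ⟨η * d, ?_, hηd, ?_⟩
  · have h1 : c * (1 / D) ^ (C + 1) * x ^ (C + 1) = η * (c * η ^ C) := by
      rw [hη, div_pow, div_pow, one_pow, pow_succ, pow_succ]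
      field_simp
    rw [h1]
    exact mul_le_mul_of_nonneg_left hcd hη0.le
  intro K hK
  -- the selected points
  have hmain : ∀ s : Fin n → ℝ, (∀ i, s i = 1 ∨ s i = -1) → ∃ Y : Fin n → Set ℝ,
      (∀ c, ENNReal.ofReal (η * d) ≤ volume (Y c)) ∧ ∀ y : Fin n → ℝ, (∀ c, y c ∈ Y c) →
        ∃ (k : Fin n → ℕ) (t' : Fin n → ℝ),
        (∀ c, k c < n ∧ 1 / 8 ≤ t' c ∧ t' c ≤ 15 / 16 ∧ t' c ∈ F (A (k c), W (k c))) ∧
        (∀ i, y i = pt (A (k i)) (W (k i)) (t' i) i) ∧
        ∀ i c, s i * y i ≤ s i * pt (A (k c)) (W (k c)) (t' c) i := by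
    intro s hs
    obtain ⟨k, t, γ, hkt, hst⟩ := hsel s hs
    have hWne : ∀ c, W (k c) c ≠ 0 := by
      intro c h
      have h2 := (hAW _ (hkt c).1).1.2 c
      simp only at h2
      rw [h, abs_zero] at h2
      linarith
    refine ⟨fun c => {z : ℝ | (z - A (k c) c) / W (k c) c ∈
      F (A (k c), W (k c)) ∩ Metric.closedBall (t c) (γ c)}, ?_, ?_⟩
    · intro c
      rw [vol_affine (hWne c), ENNReal.ofReal_mul hη0.le]
      have h2 := (hAW _ (hkt c).1).1.2 c
      exact mul_le_mul' (ENNReal.ofReal_le_ofReal h2)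
        ((ENNReal.ofReal_le_ofReal (hkt c).2.1).trans (hkt c).2.2.2)
    · intro y hy
      set t' : Fin n → ℝ := fun c => (y c - A (k c) c) / W (k c) c with ht'
      have hball : ∀ c, |t' c - t c| ≤ γ c := by
        intro c
        have h2 := (hy c).2
        rwa [Metric.mem_closedBall, Real.dist_eq] at h2
      have hdiag : ∀ i, y i = pt (A (k i)) (W (k i)) (t' i) i := by
        intro i
        rw [ht']
        simp only [pt]
        have := hWne i
        field_simp
        ring
      refine ⟨k, t', fun c => ⟨(hkt c).1, ((hkt c).2.2.1 _ (hball c)).1,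
        ((hkt c).2.2.1 _ (hball c)).2, (hy c).1⟩, hdiag, ?_⟩
      intro i c
      by_cases hic : i = c
      · rw [← hic, ← hdiag i]
      · rw [hdiag i]
        exact hst i c hic (t' i) (t' c) (hball i) (hball c)
  have hptK : ∀ m, m < n → ∀ t : ℝ, 1 / 8 ≤ t → t ≤ 15 / 16 → t ∈ F (A m, W m) →
      pt (A m) (W m) t ∈ K := by
    intro m hm t ht0 ht1 htF
    exact hK _ (hAW m hm).1.1 t htF (by linarith) (by linarith)
  have hη2 : η ^ 2 ≤ η := by nlinarith
  have hnear : ∀ m, m < n → ∀ t : ℝ, 1 / 8 ≤ t → t ≤ 15 / 16 → ∀ i,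
      |pt (A m) (W m) t i - a i| ≤ 2 * lam := by
    intro m hm t ht0 ht1 i
    have h1 := ((hAW m hm).2 i).1
    have h2 := (hP _ (hAW m hm).1.1).2 i
    simp only at h2
    have h3 : pt (A m) (W m) t i - a i = (A m i - a i) + t * W m i := by
      unfold pt
      ring
    have h4 : |t * W m i| ≤ lam := by
      rw [abs_mul, abs_of_nonneg (by linarith)]
      calc t * |W m i| ≤ 1 * lam := mul_le_mul (by linarith) h2 (abs_nonneg _) zero_le_one
        _ = lam := one_mul _
    rw [h3]
    have h5 := abs_add_le (A m i - a i) (t * W m i)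
    linarith
  have hdist : ∀ (k : Fin n → ℕ) (t' : Fin n → ℝ),
      (∀ c, k c < n ∧ 1 / 8 ≤ t' c ∧ t' c ≤ 15 / 16 ∧ t' c ∈ F (A (k c), W (k c))) →
      ∀ c c' i, |pt (A (k c)) (W (k c)) (t' c) i - pt (A (k c')) (W (k c')) (t' c') i| ≤
        4 * lam := by
    intro k t' hk c c' i
    have h1 := hnear (k c) (hk c).1 (t' c) (hk c).2.1 (hk c).2.2.1 i
    have h2 := hnear (k c') (hk c').1 (t' c') (hk c').2.1 (hk c').2.2.1 i
    rw [abs_le] at h1 h2 ⊢
    constructor <;> linarith [h1.1, h1.2, h2.1, h2.2]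
  refine ⟨?_, ?_, ?_⟩
  · obtain ⟨Y, hY, hYm⟩ := hmain (fun _ => 1) (fun _ => Or.inl rfl)
    refine vol_prod hηd.le hY (fun y hy => ?_)
    obtain ⟨k, t', h1, h2, h3⟩ := hYm y hy
    refine ⟨fun c => pt (A (k c)) (W (k c)) (t' c),
      fun c => hptK _ (h1 c).1 _ (h1 c).2.1 (h1 c).2.2.1 (h1 c).2.2.2, hdist k t' h1,
      fun i => ⟨h2 i, fun c => ?_⟩⟩
    have := h3 i c
    rwa [one_mul, one_mul] at this
  · obtain ⟨Y, hY, hYm⟩ := hmain (fun _ => -1) (fun _ => Or.inr rfl)
    refine vol_prod hηd.le hY (fun y hy => ?_)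
    obtain ⟨k, t', h1, h2, h3⟩ := hYm y hy
    refine ⟨fun c => pt (A (k c)) (W (k c)) (t' c),
      fun c => hptK _ (h1 c).1 _ (h1 c).2.1 (h1 c).2.2.1 (h1 c).2.2.2, hdist k t' h1,
      fun i => ⟨h2 i, fun c => ?_⟩⟩
    have := h3 i c
    linarith
  · intro hbox
    set KB : Set (Fin n → ℝ) := K ∩ {y | ∀ i, a i - 2 * lam ≤ y i ∧ y i ≤ a i - 2 * lam + 4 * lam}
      with hKB
    have hLCS : LCS KB := hbox (fun i => a i - 2 * lam)
    have hptKB : ∀ m, m < n → ∀ t : ℝ, 1 / 8 ≤ t → t ≤ 15 / 16 → t ∈ F (A m, W m) →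
        pt (A m) (W m) t ∈ KB := by
      intro m hm t ht0 ht1 htF
      refine ⟨hptK m hm t ht0 ht1 htF, fun i => ?_⟩
      have h1 := hnear m hm t ht0 ht1 i
      rw [abs_le] at h1
      constructor <;> linarith [h1.1, h1.2]
    rcases hLCS with h | h | h
    · obtain ⟨Y, hY, hYm⟩ := hmain (fun _ => 1) (fun _ => Or.inl rfl)
      refine vol_prod hηd.le hY (fun y hy => ?_)
      obtain ⟨k, t', h1, h2, h3⟩ := hYm y hy
      have h4 : y ∈ KB := by
        apply inf_signed hn (K := KB) (s := fun _ => 1) (fun _ => Or.inl rfl)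
          (z := fun i => y i - 1) (p := fun c => pt (A (k c)) (W (k c)) (t' c)) (y := y)
        · intro x y hx hy _ _
          simp only [one_mul] at hx hy ⊢
          exact h x hx y hy
        · exact fun c => hptKB _ (h1 c).1 _ (h1 c).2.1 (h1 c).2.2.1 (h1 c).2.2.2
        · exact h2
        · exact h3
        · intro c i
          have := h3 i c
          simp only [one_mul] at this ⊢
          linarith
      exact h4.1
    · obtain ⟨Y, hY, hYm⟩ := hmain (fun _ => -1) (fun _ => Or.inr rfl)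
      refine vol_prod hηd.le hY (fun y hy => ?_)
      obtain ⟨k, t', h1, h2, h3⟩ := hYm y hy
      have h4 : y ∈ KB := by
        apply inf_signed hn (K := KB) (s := fun _ => -1) (fun _ => Or.inr rfl)
          (z := fun i => -y i - 1) (p := fun c => pt (A (k c)) (W (k c)) (t' c)) (y := y)
        · intro x y hx hy _ _
          have h5 := h _ hx _ hy
          have h6 : (fun i => (-1 : ℝ) * min (x i) (y i)) =
              fun i => max ((-1 : ℝ) * x i) ((-1 : ℝ) * y i) := by
            funext i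
            rcases le_total (x i) (y i) with h4 | h4
            · rw [min_eq_left h4, max_eq_left (by linarith)]
            · rw [min_eq_right h4, max_eq_right (by linarith)]
          rw [h6]
          exact h5
        · exact fun c => hptKB _ (h1 c).1 _ (h1 c).2.1 (h1 c).2.2.1 (h1 c).2.2.2
        · exact h2
        · exact h3
        · intro c i
          have := h3 i c
          linarith
      exact h4.1
    · set s : Fin n → ℝ := fun i => if 0 < v i then 1 else -1 with hs
      have hs1 : ∀ i, s i = 1 ∨ s i = -1 := by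
        intro i
        rw [hs]
        simp only
        split_ifs <;> simp
      have habs : ∀ i, |s i| = 1 := by
        intro i
        rcases hs1 i with h | h <;> rw [h] <;> norm_num
      have hspos : ∀ i, s i * v i = |v i| := by
        intro i
        rw [hs]
        simp only
        split_ifs with h5
        · rw [one_mul, abs_of_pos h5]
        · rw [abs_of_nonpos (not_lt.1 h5)]
          ring
      -- a low point on the base segment
      obtain ⟨tz, htz0, htz1, htzF⟩ : ∃ tz : ℝ, 0 ≤ tz ∧ tz ≤ 1 / 32 ∧ tz ∈ F (a, v) := by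
        by_contra hcon
        push Not at hcon
        have h5 : Set.Icc (0 : ℝ) (1 / 32) ⊆ Set.Icc 0 1 \ F (a, v) := by
          intro t ht
          exact ⟨⟨ht.1, by linarith [ht.2]⟩, hcon t ht.1 ht.2⟩
        have h6 := (measure_mono h5).trans (hF _ hav.1)
        rw [Real.volume_Icc] at h6
        have h7 : (1 : ℝ) / (512 * (n : ℝ) ^ 2) < 1 / 32 - 0 := by
          rw [sub_zero, div_lt_div_iff₀ (by positivity) (by norm_num)]
          have : (1 : ℝ) ≤ (n : ℝ) ^ 2 := one_le_pow₀ hn1
          linarith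
        exact absurd h6 (not_le.2 ((ENNReal.ofReal_lt_ofReal_iff (by norm_num)).2 h7))
      set z : Fin n → ℝ := pt a v tz with hz
      have hvl : ∀ i, |v i| ≤ lam := fun i => (hP _ hav.1).2 i
      have hzK : z ∈ KB := by
        refine ⟨hK _ hav.1 tz htzF htz0 (by linarith), fun i => ?_⟩
        have h5 : |tz * v i| ≤ 2 * lam := by
          rw [abs_mul, abs_of_nonneg htz0]
          have h6 : tz * |v i| ≤ 1 * lam :=
            mul_le_mul (by linarith) (hvl i) (abs_nonneg _) zero_le_one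
          linarith
        rw [abs_le] at h5
        have h6 : z i = a i + tz * v i := rfl
        rw [h6]
        constructor <;> linarith [h5.1, h5.2]
      obtain ⟨Y, hY, hYm⟩ := hmain s hs1
      refine vol_prod hηd.le hY (fun y hy => ?_)
      obtain ⟨k, t', h1, h2, h3⟩ := hYm y hy
      have h4 : y ∈ KB := by
        apply inf_signed hn (K := KB) (s := s) hs1
          (z := fun i => s i * z i) (p := fun c => pt (A (k c)) (W (k c)) (t' c)) (y := y)
        · intro x y hx hy hzx hzy
          have h5 := h _ hx _ hy _ hzK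
          have h6 : (fun i => s i * min (x i) (y i)) =
              fun i => med (s i * x i) (s i * y i) (z i) := by
            funext i
            have h7 : med (x i) (y i) (s i * z i) = min (x i) (y i) :=
              med_low (hzx i).le (hzy i).le
            rw [← h7]
            rcases hs1 i with h8 | h8
            · rw [h8]; simp
            · rw [h8]
              have h9 := med_neg (x i) (y i) (-1 * z i)
              simp only [neg_mul, one_mul, neg_neg] at h9 ⊢
              linarith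
          rw [h6]
          exact h5
        · exact fun c => hptKB _ (h1 c).1 _ (h1 c).2.1 (h1 c).2.2.1 (h1 c).2.2.2
        · exact h2
        · exact h3
        · intro c i
          have h5 := (hAW _ (h1 c).1).2 i
          have h6 : |s i * (A (k c) i - a i)| ≤ η / 64 := by
            rw [abs_mul, habs, one_mul]
            linarith [h5.1]
          have h7 : |s i * (W (k c) i - v i)| ≤ η / 64 := by
            rw [abs_mul, habs, one_mul]
            linarith [h5.2]
          have h8 : η ≤ |v i| := hav.2 i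
          rw [mul_sub, abs_le] at h6 h7
          rw [hspos] at h7
          have h9 : s i * pt (A (k c)) (W (k c)) (t' c) i =
              s i * A (k c) i + t' c * (s i * W (k c) i) := by
            unfold pt
            ring
          have h10 : s i * z i = s i * a i + tz * |v i| := by
            rw [hz, ← hspos]
            unfold pt
            ring
          rw [h9, h10]
          have h11 : tz * |v i| ≤ 1 / 32 * |v i| := mul_le_mul_of_nonneg_right htz1 (abs_nonneg _)
          have h12 : |v i| - η / 64 ≤ s i * W (k c) i := by linarith [h7.1]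
          have h13 : 1 / 8 * (|v i| - η / 64) ≤ t' c * (s i * W (k c) i) :=
            mul_le_mul (h1 c).2.1 h12 (by linarith) (by linarith [(h1 c).2.1])
          linarith [h6.1]
      exact h4.1

end Pool.Agent.Helper634ord.Tub
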