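import Mathlib
import Pool.Agent.Helper634ord.Tub5

/-!
# Tubes (helper634)
-/

set_option autoImplicit false

namespace Pool.Agent.Helper634ord.Tub

open MeasureTheory Set Kak

/-- coordinates -/
noncomputable def crd {n : ℕ} (b : OrthonormalBasis (Fin n) ℝ (EuclideanSpace ℝ (Fin n)))
    (x : EuclideanSpace ℝ (Fin n)) : Fin n → ℝ := fun i => b.repr x i

theorem crd_mp {n : ℕ} (b : OrthonormalBasis (Fin n) ℝ (EuclideanSpace ℝ (Fin n))) :
    MeasurePreserving (crd b) volume volume :=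
  (PiLp.volume_preserving_ofLp (Fin n)).comp b.measurePreserving_repr

theorem crd_abs_le {n : ℕ} (b : OrthonormalBasis (Fin n) ℝ (EuclideanSpace ℝ (Fin n)))
    (x : EuclideanSpace ℝ (Fin n)) (i : Fin n) : |crd b x i| ≤ ‖x‖ := by
  unfold crd
  rw [b.repr_apply_apply]
  have h := abs_real_inner_le_norm (b i) x
  rwa [b.norm_eq_one, one_mul] at h

theorem norm_le_of_repr {n : ℕ} (b : OrthonormalBasis (Fin n) ℝ (EuclideanSpace ℝ (Fin n)))
    {u : EuclideanSpace ℝ (Fin n)} {κ : ℝ} (h : ∀ i, |b.repr u i| ≤ κ) : ‖u‖ ≤ n * κ := by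
  rw [← b.sum_repr u]
  calc ‖∑ i, b.repr u i • b i‖ ≤ ∑ i, ‖b.repr u i • b i‖ := norm_sum_le _ _
    _ ≤ ∑ _i : Fin n, κ := by
        apply Finset.sum_le_sum
        intro i _
        rw [norm_smul, b.norm_eq_one, mul_one]
        exact h i
    _ = n * κ := by simp

/-- vectors nearly parallel to `e` -/
theorem dir_set (m : ℕ) {e : EuclideanSpace ℝ (Fin (m + 1))} (he : ‖e‖ = 1) {lam δ : ℝ}
    (hl : 0 < lam) (hδ : 0 < δ) :
    ∃ V : Set (EuclideanSpace ℝ (Fin (m + 1))), MeasurableSet V ∧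
      volume V = ENNReal.ofReal (lam / 2 * (δ * lam / (8 * (m + 1))) ^ m) ∧
      ∀ w ∈ V, lam / 2 ≤ inner ℝ w e ∧ inner ℝ w e ≤ lam ∧
        ‖w - (inner ℝ w e : ℝ) • e‖ ≤ δ * lam / 16 := by
  have hon : Orthonormal ℝ (({0} : Set (Fin (m + 1))).domRestrict (fun _ => e)) := by
    rw [orthonormal_iff_ite]
    rintro ⟨i, hi⟩ ⟨j, hj⟩
    simp only [mem_singleton_iff] at hi hj
    subst hi; subst hj
    change (inner ℝ e e : ℝ) = _
    rw [real_inner_self_eq_norm_sq, he]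
    simp
  obtain ⟨b, hb⟩ := hon.exists_orthonormalBasis_extension_of_card_eq (by simp)
  have hb0 : b 0 = e := hb 0 rfl
  set κ : ℝ := δ * lam / (16 * (m + 1)) with hκ
  have hκ0 : 0 < κ := by positivity
  set lo : Fin (m + 1) → ℝ := Fin.cons (lam / 2) (fun _ => -κ) with hlo
  set hi : Fin (m + 1) → ℝ := Fin.cons lam (fun _ => κ) with hhi
  refine ⟨crd b ⁻¹' Set.Icc lo hi, (crd_mp b).measurable measurableSet_Icc, ?_, ?_⟩
  · rw [(crd_mp b).measure_preimage measurableSet_Icc.nullMeasurableSet, Real.volume_Icc_pi,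
      Fin.prod_univ_succ]
    simp only [hlo, hhi, Fin.cons_zero, Fin.cons_succ, Finset.prod_const, Finset.card_univ,
      Fintype.card_fin]
    rw [← ENNReal.ofReal_pow (by linarith), ← ENNReal.ofReal_mul (by linarith)]
    congr 1
    have h1 : lam - lam / 2 = lam / 2 := by ring
    have h2 : κ - -κ = δ * lam / (8 * (m + 1)) := by
      rw [hκ]
      field_simp
      norm_num
    rw [h1, h2]
  · intro w hw
    rw [mem_preimage, mem_Icc] at hw
    have h0 : inner ℝ w e = b.repr w 0 := by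
      rw [b.repr_apply_apply, hb0, real_inner_comm]
    have hw1 := hw.1 0
    have hw2 := hw.2 0
    simp only [hlo, hhi, Fin.cons_zero, crd] at hw1 hw2
    rw [← h0] at hw1 hw2
    refine ⟨hw1, hw2, ?_⟩
    have hu : ∀ i, |b.repr (w - (inner ℝ w e : ℝ) • e) i| ≤ κ := by
      intro i
      have h3 : b.repr (w - (inner ℝ w e : ℝ) • e) i = b.repr w i - inner ℝ w e * b.repr e i := by
        simp
      rw [h3, ← hb0, b.repr_self]
      refine Fin.cases ?_ (fun j => ?_) i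
      · rw [hb0, h0]
        simp [hκ0.le]
      · have h4 := hw.1 j.succ
        have h5 := hw.2 j.succ
        simp only [hlo, hhi, Fin.cons_succ, crd] at h4 h5
        have h6 : (EuclideanSpace.single (0 : Fin (m + 1)) (1 : ℝ)) j.succ = 0 := by
          simp [Fin.succ_ne_zero]
        rw [h6, mul_zero, sub_zero, abs_le]
        exact ⟨h4, h5⟩
    have h7 := norm_le_of_repr b hu
    refine h7.trans (le_of_eq ?_)
    rw [hκ]
    push_cast
    field_simp

theorem dir_disjoint {n : ℕ} {e e' w : EuclideanSpace ℝ (Fin n)} (he : ‖e‖ = 1) (he' : ‖e'‖ = 1)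
    {δ lam : ℝ} (hδ : 0 < δ) (hl : 0 < lam) (h : δ ≤ ‖e - e'‖) (h1 : lam / 2 ≤ inner ℝ w e)
    (h2 : ‖w - (inner ℝ w e : ℝ) • e‖ ≤ δ * lam / 16) (h1' : lam / 2 ≤ inner ℝ w e')
    (h2' : ‖w - (inner ℝ w e' : ℝ) • e'‖ ≤ δ * lam / 16) : False := by
  set s : ℝ := inner ℝ w e with hs
  set s' : ℝ := inner ℝ w e' with hs'
  have hs0 : 0 < s := by linarith
  have hs0' : 0 < s' := by linarith
  have h3 : ‖s • e - s' • e'‖ ≤ δ * lam / 8 := by
    have h4 : s • e - s' • e' = (w - s' • e') - (w - s • e) := by abel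
    rw [h4]
    refine (norm_sub_le _ _).trans ?_
    linarith
  have h4 : |s - s'| ≤ δ * lam / 8 := by
    have h5 := abs_norm_sub_norm_le (s • e) (s' • e')
    rw [norm_smul, norm_smul, he, he', mul_one, mul_one, Real.norm_of_nonneg hs0.le,
      Real.norm_of_nonneg hs0'.le] at h5
    exact h5.trans h3
  have h5 : s * ‖e - e'‖ ≤ δ * lam / 4 := by
    have h6 : s * ‖e - e'‖ = ‖(s • e - s' • e') + (s' - s) • e'‖ := by
      rw [← Real.norm_of_nonneg hs0.le, ← norm_smul, Real.norm_of_nonneg hs0.le]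
      congr 1
      rw [sub_smul, smul_sub]
      abel
    rw [h6]
    refine (norm_add_le _ _).trans ?_
    rw [norm_smul, he', mul_one, Real.norm_eq_abs, abs_sub_comm]
    linarith
  have h6 : lam / 2 * δ ≤ s * ‖e - e'‖ := mul_le_mul h1 h hδ.le hs0.le
  have h7 : 0 < δ * lam := mul_pos hδ hl
  linarith

/-- **Tubes with separated orientations.** -/
theorem tubesX (m : ℕ) {R : ℝ} (hR : 1 ≤ R) :
    ∃ c : ℝ, 0 < c ∧ ∃ C : ℕ, ∀ lam : ℝ, 0 < lam → lam ≤ 1 / 4 → ∀ δ : ℝ, 0 < δ → δ ≤ 1 →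
      ∀ F : Finset (EuclideanSpace ℝ (Fin (m + 1)) × EuclideanSpace ℝ (Fin (m + 1))),
        F.Nonempty → (∀ p ∈ F, ‖p.1‖ ≤ R ∧ ‖p.2‖ = 1) →
        (∀ p ∈ F, ∀ q ∈ F, p ≠ q → δ ≤ ‖p.2 - q.2‖) →
        ∀ b : OrthonormalBasis (Fin (m + 1)) ℝ (EuclideanSpace ℝ (Fin (m + 1))),
        ∃ ε : ℝ, c * (lam ^ (m + 1) * δ ^ m * F.card) ^ C ≤ ε ∧ 0 < ε ∧
        ∀ G : Set (EuclideanSpace ℝ (Fin (m + 1))),
          (∀ p ∈ F, ∀ w, 0 ≤ inner ℝ w p.2 → inner ℝ w p.2 ≤ lam →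
            ‖w - (inner ℝ w p.2 : ℝ) • p.2‖ ≤ δ → p.1 + w ∈ G) →
          (∃ y₀ : Fin (m + 1) → ℝ, ∀ y : Fin (m + 1) → ℝ, (∀ i, |y i - y₀ i| ≤ ε) →
            ∃ p : Fin (m + 1) → Fin (m + 1) → ℝ,
            (∀ c, p c ∈ crd b '' G) ∧ (∀ c c' i, |p c i - p c' i| ≤ 4 * (2 * lam)) ∧
              ∀ i, y i = p i i ∧ ∀ c, y i ≤ p c i) ∧
          (∃ y₀ : Fin (m + 1) → ℝ, ∀ y : Fin (m + 1) → ℝ, (∀ i, |y i - y₀ i| ≤ ε) →
            ∃ p : Fin (m + 1) → Fin (m + 1) → ℝ,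
            (∀ c, p c ∈ crd b '' G) ∧ (∀ c c' i, |p c i - p c' i| ≤ 4 * (2 * lam)) ∧
              ∀ i, y i = p i i ∧ ∀ c, p c i ≤ y i) ∧
          (BoxLCS (crd b '' G) (4 * (2 * lam)) →
            ∃ y₀ : Fin (m + 1) → ℝ, ∀ y : Fin (m + 1) → ℝ, (∀ i, |y i - y₀ i| ≤ ε) →
              y ∈ crd b '' G) := by
  classical
  obtain ⟨c, hc, C, hC⟩ := mainX (n := m + 1) (by omega) hR
  set κ : ℝ := 1 / (2 * (8 * ((m : ℝ) + 1)) ^ m) with hκ
  have hκ0 : 0 < κ := by positivity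
  refine ⟨c * κ ^ C, by positivity, C, ?_⟩
  intro lam hl hl4 δ hδ hδ1 F hF hF1 hsep b
  choose! V hVm hVv hV using fun (p : EuclideanSpace ℝ (Fin (m + 1)) ×
    EuclideanSpace ℝ (Fin (m + 1))) (hp : p ∈ F) => dir_set m (hF1 p hp).2 hl hδ
  set P : Set ((Fin (m + 1) → ℝ) × (Fin (m + 1) → ℝ)) :=
    {q | ∃ p ∈ F, ∃ w ∈ V p, q = (crd b p.1, crd b w)} with hP
  have hwn : ∀ p ∈ F, ∀ w ∈ V p, ‖w‖ ≤ 2 * lam := by
    intro p hp w hw
    obtain ⟨h1, h2, h3⟩ := hV p hp w hw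
    have h4 : w = (inner ℝ w p.2 : ℝ) • p.2 + (w - (inner ℝ w p.2 : ℝ) • p.2) := by abel
    have h5 := norm_add_le ((inner ℝ w p.2 : ℝ) • p.2) (w - (inner ℝ w p.2 : ℝ) • p.2)
    rw [← h4, norm_smul, (hF1 p hp).2, mul_one, Real.norm_of_nonneg (by linarith)] at h5
    have h6 : δ * lam ≤ 1 * lam := mul_le_mul_of_nonneg_right hδ1 hl.le
    linarith
  have hPb : ∀ q ∈ P, (∀ i, |q.1 i| ≤ R) ∧ ∀ i, |q.2 i| ≤ 2 * lam := by
    rintro q ⟨p, hp, w, hw, rfl⟩
    exact ⟨fun i => (crd_abs_le b p.1 i).trans (hF1 p hp).1,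
      fun i => (crd_abs_le b w i).trans (hwn p hp w hw)⟩
  set x : ℝ := κ * (lam ^ (m + 1) * δ ^ m * F.card) with hx
  have hcard : (0 : ℝ) < F.card := by exact_mod_cast Finset.card_pos.2 hF
  have hx0 : 0 < x := by positivity
  have hdirs : ENNReal.ofReal x ≤ volume (dirs P) := by
    have h1 : volume (⋃ p ∈ F, V p) = ENNReal.ofReal x := by
      rw [measure_biUnion_finset]
      · rw [Finset.sum_congr rfl (fun p hp => hVv p hp), Finset.sum_const, nsmul_eq_mul,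
          ← ENNReal.ofReal_natCast, ← ENNReal.ofReal_mul (by positivity)]
        congr 1
        rw [hx, hκ, div_pow, mul_pow]
        field_simp
        ring
      · intro p hp q hq hpq
        rw [Function.onFun, Set.disjoint_left]
        intro w hw hw'
        obtain ⟨h1, _, h2⟩ := hV p hp w hw
        obtain ⟨h1', _, h2'⟩ := hV q hq w hw'
        exact dir_disjoint (hF1 p hp).2 (hF1 q hq).2 hδ hl (hsep p hp q hq hpq) h1 h2 h1' h2'
      · exact fun p hp => hVm p hp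
    have h2 : (⋃ p ∈ F, V p) ⊆ crd b ⁻¹' (dirs P) := by
      intro w hw
      rw [mem_iUnion₂] at hw
      obtain ⟨p, hp, hw⟩ := hw
      exact ⟨crd b p.1, p, hp, w, hw, rfl⟩
    have h3 := Measure.le_map_apply (μ := volume) (crd_mp b).measurable.aemeasurable (dirs P)
    rw [(crd_mp b).map_eq] at h3
    rw [← h1]
    exact (measure_mono h2).trans h3
  have hx1 : x ≤ 1 := by
    have h1 : dirs P ⊆ Set.Icc (fun _ => -(1 / 2) : Fin (m + 1) → ℝ) (fun _ => 1 / 2) := by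
      rintro w ⟨a, ha⟩
      have h2 := (hPb _ ha).2
      simp only at h2
      constructor
      · intro i
        have := (abs_le.1 (h2 i)).1
        show -(1 / 2) ≤ w i
        linarith
      · intro i
        have := (abs_le.1 (h2 i)).2
        show w i ≤ 1 / 2
        linarith
    have h2 := hdirs.trans (measure_mono h1)
    rw [Real.volume_Icc_pi] at h2
    norm_num at h2
    exact h2
  obtain ⟨ε, hε, hε0, hmain⟩ := hC (2 * lam) (by positivity) (by linarith) x hx0 hx1 P hPb hdirs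
  refine ⟨ε, ?_, hε0, ?_⟩
  · refine le_trans (le_of_eq ?_) hε
    rw [hx, mul_pow κ]
    ring
  · intro G hG
    apply hmain
    rintro q ⟨p, hp, w, hw, rfl⟩ t ht0 ht1
    obtain ⟨h1, h2, h3⟩ := hV p hp w hw
    refine ⟨p.1 + t • w, ?_, ?_⟩
    · have h4 : (inner ℝ (t • w) p.2 : ℝ) = t * inner ℝ w p.2 := by
        rw [real_inner_smul_left]
      apply hG p hp
      · rw [h4]
        exact mul_nonneg ht0 (by linarith)
      · rw [h4]
        calc t * inner ℝ w p.2 ≤ 1 * inner ℝ w p.2 := mul_le_mul_of_nonneg_right ht1 (by linarith)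
          _ ≤ lam := by rw [one_mul]; exact h2
      · rw [h4, ← smul_smul, ← smul_sub, norm_smul, Real.norm_of_nonneg ht0]
        have h5 : δ * lam ≤ δ * 1 := mul_le_mul_of_nonneg_left (by linarith) hδ.le
        calc t * ‖w - (inner ℝ w p.2 : ℝ) • p.2‖ ≤ 1 * (δ * lam / 16) :=
              mul_le_mul ht1 h3 (norm_nonneg _) zero_le_one
          _ ≤ δ := by linarith
    · funext i
      simp only [crd, pt, map_add, map_smul, PiLp.add_apply, PiLp.smul_apply, smul_eq_mul]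

end Pool.Agent.Helper634ord.Tub
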