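import Mathlib
import Pool.Agent.Helper634ord.Tub6
import Pool.Agent.Helper634ord.Tub10

/-!
# Sets which nearly fill tubes (helper634)
-/

set_option autoImplicit false

namespace Pool.Agent.Helper634ord.Tub

open MeasureTheory Set Kak
open scoped Pointwise

variable {n : ℕ}

/-- coordinates, as a measurable equivalence -/
noncomputable def crdE (b : OrthonormalBasis (Fin n) ℝ (EuclideanSpace ℝ (Fin n))) :
    EuclideanSpace ℝ (Fin n) ≃ᵐ (Fin n → ℝ) :=
  (b.repr.toHomeomorph.toMeasurableEquiv).trans (MeasurableEquiv.toLp 2 (Fin n → ℝ)).symm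

theorem crdE_apply (b : OrthonormalBasis (Fin n) ℝ (EuclideanSpace ℝ (Fin n)))
    (x : EuclideanSpace ℝ (Fin n)) : crdE b x = crd b x := rfl

theorem vol_crd (b : OrthonormalBasis (Fin n) ℝ (EuclideanSpace ℝ (Fin n))) (S : Set (Fin n → ℝ)) :
    volume (crd b ⁻¹' S) = volume S := by
  have h : MeasurePreserving (crdE b) volume volume := crd_mp b
  exact h.measure_preimage_equiv S

theorem crd_injective (b : OrthonormalBasis (Fin n) ℝ (EuclideanSpace ℝ (Fin n))) :
    Function.Injective (crd b) := (crdE b).injective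

/-- **Tonelli**: a set which nearly fills a tube nearly fills segments of any given short length -/
theorem seg_of_density {T T' K : Set (EuclideanSpace ℝ (Fin n))} (hT' : MeasurableSet T')
    (hK : MeasurableSet K) {e : EuclideanSpace ℝ (Fin n)} {r : ℝ} (hr0 : 0 ≤ r) (hr : r ≤ 1 / 2)
    (h1 : ∀ y ∈ T', ∀ u : ℝ, 0 ≤ u → u ≤ 1 / 2 → y + u • e ∈ T)
    (h2 : T ⊆ T' ∪ (fun y => y + (-(1 / 2) : ℝ) • e) ⁻¹' T') {ε : ℝ}
    (hd : volume (T \ K) < ENNReal.ofReal ε * volume T) :
    ∃ y ∈ T', volume (Set.Icc (0 : ℝ) 1 \ {t : ℝ | y + t • (r • e) ∈ K}) ≤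
      ENNReal.ofReal (2 * ε) := by
  by_contra hcon
  push Not at hcon
  set S : Set (EuclideanSpace ℝ (Fin n) × ℝ) := {p | p.1 + p.2 • (r • e) ∈ Kᶜ} with hS
  have hSm : MeasurableSet S := by
    have h3 : Measurable (fun p : EuclideanSpace ℝ (Fin n) × ℝ => p.1 + p.2 • (r • e)) := by
      fun_prop
    exact h3 hK.compl
  set f : EuclideanSpace ℝ (Fin n) → ℝ → ENNReal :=
    fun y t => S.indicator (fun _ => (1 : ENNReal)) (y, t) with hf
  have hfm : Measurable (Function.uncurry f) := by
    have : Function.uncurry f = S.indicator (fun _ => (1 : ENNReal)) := by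
      funext p
      rfl
    rw [this]
    exact measurable_const.indicator hSm
  have hswap : ∫⁻ y in T', ∫⁻ t in Set.Icc (0 : ℝ) 1, f y t =
      ∫⁻ t in Set.Icc (0 : ℝ) 1, ∫⁻ y in T', f y t :=
    lintegral_lintegral_swap hfm.aemeasurable
  have hlow : ENNReal.ofReal (2 * ε) * volume T' ≤
      ∫⁻ y in T', ∫⁻ t in Set.Icc (0 : ℝ) 1, f y t := by
    rw [← setLIntegral_const]
    apply setLIntegral_mono' hT'
    intro y hy
    have h3 : ∫⁻ t in Set.Icc (0 : ℝ) 1, f y t =
        volume (Set.Icc (0 : ℝ) 1 \ {t : ℝ | y + t • (r • e) ∈ K}) := by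
      have hm : MeasurableSet {t : ℝ | y + t • (r • e) ∈ Kᶜ} := by
        have h4 : Measurable (fun t : ℝ => y + t • (r • e)) := by fun_prop
        exact h4 hK.compl
      have h4 : (fun t => f y t) =
          {t : ℝ | y + t • (r • e) ∈ Kᶜ}.indicator (fun _ => (1 : ENNReal)) := by
        funext t
        simp only [hf]
        by_cases h : (y, t) ∈ S
        · rw [Set.indicator_of_mem h, Set.indicator_of_mem]
          exact h
        · rw [Set.indicator_of_notMem h, Set.indicator_of_notMem]
          exact h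
      rw [h4, lintegral_indicator hm, setLIntegral_const, one_mul, Measure.restrict_apply hm,
        Set.inter_comm]
      congr 1
    rw [h3]
    exact (hcon y hy).le
  have hup : ∫⁻ t in Set.Icc (0 : ℝ) 1, ∫⁻ y in T', f y t ≤ volume (T \ K) := by
    have h3 : ∀ t ∈ Set.Icc (0 : ℝ) 1, ∫⁻ y in T', f y t ≤ volume (T \ K) := by
      intro t ht
      have hm : MeasurableSet {y : EuclideanSpace ℝ (Fin n) | y + t • (r • e) ∈ Kᶜ} := by
        have h4 : Measurable (fun y : EuclideanSpace ℝ (Fin n) => y + t • (r • e)) := by fun_prop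
        exact h4 hK.compl
      have h4 : (fun y => f y t) = {y : EuclideanSpace ℝ (Fin n) |
          y + t • (r • e) ∈ Kᶜ}.indicator (fun _ => (1 : ENNReal)) := by
        funext y
        simp only [hf]
        by_cases h : (y, t) ∈ S
        · rw [Set.indicator_of_mem h, Set.indicator_of_mem]
          exact h
        · rw [Set.indicator_of_notMem h, Set.indicator_of_notMem]
          exact h
      rw [h4, lintegral_indicator hm, setLIntegral_const, one_mul, Measure.restrict_apply hm]
      have h5 : {y : EuclideanSpace ℝ (Fin n) | y + t • (r • e) ∈ Kᶜ} ∩ T' ⊆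
          (fun y => y + t • (r • e)) ⁻¹' (T \ K) := by
        rintro y ⟨hy1, hy2⟩
        refine ⟨?_, hy1⟩
        rw [smul_smul]
        exact h1 y hy2 (t * r) (mul_nonneg ht.1 hr0) (by
          calc t * r ≤ 1 * (1 / 2) := mul_le_mul ht.2 hr hr0 zero_le_one
            _ = 1 / 2 := one_mul _)
      refine (measure_mono h5).trans (le_of_eq ?_)
      exact measure_preimage_add_right volume (t • (r • e)) (T \ K)
    calc ∫⁻ t in Set.Icc (0 : ℝ) 1, ∫⁻ y in T', f y t
        ≤ ∫⁻ _t in Set.Icc (0 : ℝ) 1, volume (T \ K) := setLIntegral_mono' measurableSet_Icc h3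
      _ = volume (T \ K) := by
          rw [setLIntegral_const, Real.volume_Icc]
          norm_num
  have hT2 : volume T ≤ 2 * volume T' := by
    refine (measure_mono h2).trans ((measure_union_le _ _).trans (le_of_eq ?_))
    rw [measure_preimage_add_right, two_mul]
  have h3 : ENNReal.ofReal ε * volume T ≤ volume (T \ K) := by
    calc ENNReal.ofReal ε * volume T ≤ ENNReal.ofReal ε * (2 * volume T') := by gcongr
      _ = ENNReal.ofReal (2 * ε) * volume T' := by
          rw [ENNReal.ofReal_mul (by norm_num)]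
          have h4 : ENNReal.ofReal 2 = 2 := by norm_num
          rw [h4]
          ring
      _ ≤ volume (T \ K) := hlow.trans (hswap.le.trans hup)
  exact absurd hd (not_lt.2 h3)

/-- volume of the cone over a set of directions -/
theorem cone_vol {lam : ℝ} (hl : 0 < lam) (Ω : Set (Metric.sphere (0 : EuclideanSpace ℝ (Fin n)) 1))
    (hΩ : MeasurableSet Ω) :
    ENNReal.ofReal (lam ^ n) * (volume : Measure (EuclideanSpace ℝ (Fin n))).toSphere Ω =
      n * volume {w : EuclideanSpace ℝ (Fin n) | ∃ r : ℝ, 0 < r ∧ r < lam ∧ ∃ e ∈ Ω,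
        w = r • (e : EuclideanSpace ℝ (Fin n))} := by
  have h1 : {w : EuclideanSpace ℝ (Fin n) | ∃ r : ℝ, 0 < r ∧ r < lam ∧ ∃ e ∈ Ω,
      w = r • (e : EuclideanSpace ℝ (Fin n))} = lam • (Set.Ioo (0 : ℝ) 1 • ((↑) '' Ω :
        Set (EuclideanSpace ℝ (Fin n)))) := by
    ext w
    rw [Set.mem_smul_set]
    constructor
    · rintro ⟨r, hr0, hr1, e, he, rfl⟩
      refine ⟨(r / lam) • (e : EuclideanSpace ℝ (Fin n)), Set.smul_mem_smul ⟨by positivity, ?_⟩
        ⟨e, he, rfl⟩, ?_⟩
      · rwa [div_lt_one hl]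
      · rw [smul_smul]
        congr 1
        field_simp
    · rintro ⟨w', hw', rfl⟩
      rw [Set.mem_smul] at hw'
      obtain ⟨r, hr, _, ⟨e, he, rfl⟩, rfl⟩ := hw'
      refine ⟨lam * r, by have := hr.1; positivity, ?_, e, he, by rw [smul_smul]⟩
      have := hr.2
      nlinarith
  rw [h1, Measure.addHaar_smul, Measure.toSphere_apply' _ hΩ, finrank_euclideanSpace,
    Fintype.card_fin, abs_of_pos (by positivity)]
  ring

end Pool.Agent.Helper634ord.Tub
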