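import Mathlib
import Pool.Agent.Helper634ord.Tub11

/-!
# Lines which meet a set in positive length (helper634)
-/

set_option autoImplicit false

namespace Pool.Agent.Helper634ord.Tub

open MeasureTheory Set Kak Filter Topology

variable {n : ℕ}

/-- short intervals nearly filled by a set of positive measure -/
theorem density_scale {F : Set ℝ} (hF : MeasurableSet F) (hF0 : volume F ≠ 0) {ε : ℝ} (hε : 0 < ε) :
    ∃ t₀ : ℝ, ∀ᶠ s in 𝓝[>] (0 : ℝ),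
      volume (Set.Icc (0 : ℝ) 1 \ {t : ℝ | t₀ + s * t ∈ F}) ≤ ENNReal.ofReal ε := by
  have h1 := Besicovitch.ae_tendsto_measure_inter_div_of_measurableSet (volume : Measure ℝ)
    hF.compl
  obtain ⟨t₀, ht₀F, ht₀⟩ : ∃ t₀ ∈ F, Tendsto (fun r => volume (Fᶜ ∩ Metric.closedBall t₀ r) /
      volume (Metric.closedBall t₀ r)) (𝓝[>] 0) (𝓝 (Fᶜ.indicator 1 t₀)) := by
    by_contra hcon
    push Not at hcon
    apply hF0
    rw [ae_iff] at h1
    exact measure_mono_null (fun t ht => hcon t ht) h1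
  refine ⟨t₀, ?_⟩
  rw [indicator_of_notMem (by simpa using ht₀F)] at ht₀
  have h2 : ∀ᶠ r in 𝓝[>] (0 : ℝ), volume (Fᶜ ∩ Metric.closedBall t₀ r) /
      volume (Metric.closedBall t₀ r) < ENNReal.ofReal (ε / 2) :=
    ht₀.eventually (gt_mem_nhds (ENNReal.ofReal_pos.2 (by linarith)))
  filter_upwards [h2, self_mem_nhdsWithin] with s hs hs0
  have hs0' : (0 : ℝ) < s := hs0
  rw [Real.volume_closedBall, ENNReal.div_lt_iff (Or.inl (by
    rw [ne_eq, ENNReal.ofReal_eq_zero, not_le]; positivity)) (Or.inl ENNReal.ofReal_ne_top),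
    ← ENNReal.ofReal_mul (by positivity)] at hs
  have h3 : Set.Icc (0 : ℝ) 1 \ {t : ℝ | t₀ + s * t ∈ F} ⊆
      (fun t => s * t) ⁻¹' ((fun u => t₀ + u) ⁻¹' (Fᶜ ∩ Metric.closedBall t₀ s)) := by
    rintro t ⟨ht, htn⟩
    refine ⟨htn, ?_⟩
    rw [Metric.mem_closedBall, Real.dist_eq]
    have h4 : t₀ + s * t - t₀ = s * t := by ring
    rw [h4, abs_of_nonneg (mul_nonneg hs0'.le ht.1)]
    have := ht.2
    nlinarith
  refine (measure_mono h3).trans ?_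
  rw [Real.volume_preimage_mul_left hs0'.ne', measure_preimage_add]
  calc ENNReal.ofReal |s⁻¹| * volume (Fᶜ ∩ Metric.closedBall t₀ s)
      ≤ ENNReal.ofReal |s⁻¹| * ENNReal.ofReal (ε / 2 * (2 * s)) := by gcongr
    _ = ENNReal.ofReal ε := by
        rw [← ENNReal.ofReal_mul (abs_nonneg _), abs_of_pos (inv_pos.2 hs0')]
        congr 1
        field_simp

/-- **Lines which meet `K` in positive length** -/
theorem null_lines (hn : 1 ≤ n) {lam : ℝ} (hl0 : 0 < lam) (hl1 : lam ≤ 1)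
    {K : Set (EuclideanSpace ℝ (Fin n))} (hK : MeasurableSet K)
    (b : OrthonormalBasis (Fin n) ℝ (EuclideanSpace ℝ (Fin n)))
    (hA : volume {w : EuclideanSpace ℝ (Fin n) | ∃ a, volume {t : ℝ | a + t • w ∈ K} ≠ 0} ≠ 0) :
    ∃ ε : ℝ, 0 < ε ∧
      ENNReal.ofReal (ε ^ n) ≤ volume {y : Fin n → ℝ | ∃ p : Fin n → Fin n → ℝ,
        (∀ c, p c ∈ crd b '' K) ∧ (∀ c c' i, |p c i - p c' i| ≤ 4 * lam) ∧
          ∀ i, y i = p i i ∧ ∀ c, y i ≤ p c i} ∧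
      ENNReal.ofReal (ε ^ n) ≤ volume {y : Fin n → ℝ | ∃ p : Fin n → Fin n → ℝ,
        (∀ c, p c ∈ crd b '' K) ∧ (∀ c c' i, |p c i - p c' i| ≤ 4 * lam) ∧
          ∀ i, y i = p i i ∧ ∀ c, p c i ≤ y i} ∧
      (BoxLCS (crd b '' K) (4 * lam) → ENNReal.ofReal (ε ^ n) ≤ volume (crd b '' K)) := by
  have hn0 : (0 : ℝ) < n := by exact_mod_cast hn
  set ε₀ : ℝ := 1 / (512 * (n : ℝ) ^ 2) with hε₀
  have hε₀0 : 0 < ε₀ := by positivity
  -- exhaust by bounded classes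
  set Ak : ℕ → Set (EuclideanSpace ℝ (Fin n)) := fun k => {w | ∃ y : EuclideanSpace ℝ (Fin n),
    ‖y‖ ≤ k ∧ ‖w‖ ≤ lam * (k + 1) ∧
      volume (Set.Icc (0 : ℝ) 1 \ {t : ℝ | y + t • ((1 / ((k : ℝ) + 1)) • w) ∈ K}) ≤
        ENNReal.ofReal ε₀} with hAk
  have hcov : {w : EuclideanSpace ℝ (Fin n) | ∃ a, volume {t : ℝ | a + t • w ∈ K} ≠ 0} ⊆
      ⋃ k, Ak k := by
    rintro w ⟨a, ha⟩
    have hm : MeasurableSet {t : ℝ | a + t • w ∈ K} := by
      have h4 : Measurable (fun t : ℝ => a + t • w) := by fun_prop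
      exact h4 hK
    obtain ⟨t₀, ht₀⟩ := density_scale hm ha hε₀0
    have hlim : Tendsto (fun k : ℕ => 1 / ((k : ℝ) + 1)) atTop (𝓝[>] 0) := by
      rw [tendsto_nhdsWithin_iff]
      refine ⟨tendsto_one_div_add_atTop_nhds_zero_nat, ?_⟩
      filter_upwards with k
      show (0 : ℝ) < 1 / ((k : ℝ) + 1)
      positivity
    have h5 := hlim.eventually ht₀
    have h6 : ∀ᶠ k : ℕ in atTop, ‖a + t₀ • w‖ ≤ k :=
      tendsto_natCast_atTop_atTop.eventually (eventually_ge_atTop _)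
    have h7 : ∀ᶠ k : ℕ in atTop, ‖w‖ / lam ≤ k :=
      tendsto_natCast_atTop_atTop.eventually (eventually_ge_atTop _)
    obtain ⟨k, hk5, hk6, hk7⟩ := (h5.and (h6.and h7)).exists
    refine mem_iUnion.2 ⟨k, a + t₀ • w, hk6, ?_, ?_⟩
    · rw [div_le_iff₀ hl0] at hk7
      nlinarith
    · refine (measure_mono ?_).trans hk5
      rintro t ⟨ht, htn⟩
      refine ⟨ht, fun h => htn ?_⟩
      show a + t₀ • w + t • ((1 / ((k : ℝ) + 1)) • w) ∈ K
      have h8 : a + t₀ • w + t • ((1 / ((k : ℝ) + 1)) • w) =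
          a + (t₀ + 1 / ((k : ℝ) + 1) * t) • w := by
        rw [add_smul, smul_smul, ← add_assoc]
        congr 2
        ring
      rw [h8]
      exact h
  obtain ⟨k, hk⟩ : ∃ k, volume (Ak k) ≠ 0 := by
    by_contra hcon
    push Not at hcon
    exact hA (measure_mono_null hcov (measure_iUnion_null_iff.2 hcon))
  have hk0 : (0 : ℝ) < (k : ℝ) + 1 := by positivity
  obtain ⟨c, hc, C, hC⟩ := mainR hn (R := (k : ℝ) + 1) (by linarith [(Nat.cast_nonneg k : (0 : ℝ) ≤ k)])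
  set P : Set ((Fin n → ℝ) × (Fin n → ℝ)) := {q | ∃ y w : EuclideanSpace ℝ (Fin n),
    ‖y‖ ≤ k ∧ ‖w‖ ≤ lam ∧ volume (Set.Icc (0 : ℝ) 1 \ {t : ℝ | y + t • w ∈ K}) ≤
      ENNReal.ofReal ε₀ ∧ q = (crd b y, crd b w)} with hP
  have hPb : ∀ q ∈ P, (∀ i, |q.1 i| ≤ (k : ℝ) + 1) ∧ ∀ i, |q.2 i| ≤ lam := by
    rintro q ⟨y, w, hy, hw, hv, rfl⟩
    exact ⟨fun i => (crd_abs_le b y i).trans (by linarith), fun i => (crd_abs_le b w i).trans hw⟩
  have hpt : ∀ (y w : EuclideanSpace ℝ (Fin n)) (t : ℝ), pt (crd b y) (crd b w) t =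
      crd b (y + t • w) := by
    intro y w t
    funext i
    simp only [crd, pt, map_add, map_smul, PiLp.add_apply, PiLp.smul_apply, smul_eq_mul]
  have hFv : ∀ q ∈ P, volume (Set.Icc 0 1 \ {t : ℝ | pt q.1 q.2 t ∈ crd b '' K}) ≤
      ENNReal.ofReal (1 / (512 * (n : ℝ) ^ 2)) := by
    rintro q ⟨y, w, hy, hw, hv, rfl⟩
    refine (measure_mono ?_).trans hv
    rintro t ⟨ht, htn⟩
    refine ⟨ht, fun h => htn ?_⟩
    show pt (crd b y) (crd b w) t ∈ crd b '' K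
    rw [hpt]
    exact ⟨_, h, rfl⟩
  have hdirs0 : volume (dirs P) ≠ 0 := by
    intro h0
    have h1 : (fun w : EuclideanSpace ℝ (Fin n) => (1 / ((k : ℝ) + 1)) • w) ⁻¹'
        (crd b ⁻¹' (dirs P)) ⊇ Ak k := by
      rintro w ⟨y, hy, hw, hv⟩
      refine ⟨crd b y, y, (1 / ((k : ℝ) + 1)) • w, hy, ?_, hv, rfl⟩
      rw [norm_smul, Real.norm_of_nonneg (by positivity), div_mul_eq_mul_div, one_mul,
        div_le_iff₀ hk0]
      exact hw
    have h2 : volume (crd b ⁻¹' (dirs P)) = 0 := by rw [vol_crd, h0]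
    have h3 : volume ((fun w : EuclideanSpace ℝ (Fin n) => (1 / ((k : ℝ) + 1)) • w) ⁻¹'
        (crd b ⁻¹' (dirs P))) = 0 := by
      rw [Measure.addHaar_preimage_smul volume (by positivity), h2, mul_zero]
    exact hk (measure_mono_null h1 h3)
  obtain ⟨x, hx0, hx1, hx⟩ : ∃ x : ℝ, 0 < x ∧ x ≤ 1 ∧ ENNReal.ofReal x ≤ volume (dirs P) := by
    obtain ⟨r, hr0, hr1⟩ := ENNReal.lt_iff_exists_nnreal_btwn.1 (pos_iff_ne_zero.2 hdirs0)
    have hr0' : (0 : ℝ) < r := by exact_mod_cast hr0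
    refine ⟨min r 1, lt_min hr0' one_pos, min_le_right _ _, ?_⟩
    refine (ENNReal.ofReal_le_ofReal (min_le_left _ _)).trans ?_
    rw [ENNReal.ofReal_coe_nnreal]
    exact hr1.le
  obtain ⟨ε, hε, hε0, hmain⟩ := hC lam hl0 hl1 x hx0 hx1 P
    (fun q => {t : ℝ | pt q.1 q.2 t ∈ crd b '' K}) hPb hFv hx
  obtain ⟨h1, h2, h3⟩ := hmain (crd b '' K) (fun p _ t ht _ _ => ht)
  exact ⟨ε, hε0, h1, h2, h3⟩

end Pool.Agent.Helper634ord.Tub
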