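import Mathlib
import Pool.Agent.Helper634ord.Tub12

/-!
# Tubes and neighbourhoods of a set which is null on all lines of one direction (helper634)
-/

set_option autoImplicit false

namespace Pool.Agent.Helper634ord.Tub

open MeasureTheory Set Filter Topology

variable {n : ℕ}

/-- a set of density more than `lam` in a tube meets some segment in length at least `lam` -/
theorem seg_of_density_low {T K : Set (EuclideanSpace ℝ (Fin n))} (hT : MeasurableSet T)
    (hK : MeasurableSet K) {e : EuclideanSpace ℝ (Fin n)}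
    (h1 : ∀ z ∈ T, ∃ h : ℝ, Set.Icc h (h + 1) ⊆ {t : ℝ | t ∈ Set.Icc (-1 : ℝ) 1 ∧ z + -(t • e) ∈ T})
    {lam : ℝ} (hd : ENNReal.ofReal lam * volume T < volume (T ∩ K)) :
    ∃ y ∈ T, ENNReal.ofReal lam ≤ volume (Set.Icc (-1 : ℝ) 1 ∩ {t : ℝ | y + t • e ∈ K}) := by
  by_contra hcon
  push Not at hcon
  -- first double integral
  set S : Set (EuclideanSpace ℝ (Fin n) × ℝ) := {p | p.1 + -(p.2 • e) ∈ T} with hS
  have hSm : MeasurableSet S := by
    have h3 : Measurable (fun p : EuclideanSpace ℝ (Fin n) × ℝ => p.1 + -(p.2 • e)) := by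
      fun_prop
    exact h3 hT
  set S' : Set (EuclideanSpace ℝ (Fin n) × ℝ) := {p | p.1 + p.2 • e ∈ K} with hS'
  have hSm' : MeasurableSet S' := by
    have h3 : Measurable (fun p : EuclideanSpace ℝ (Fin n) × ℝ => p.1 + p.2 • e) := by
      fun_prop
    exact h3 hK
  have hswap : ∀ (Z : Set (EuclideanSpace ℝ (Fin n) × ℝ)), MeasurableSet Z →
      ∀ V : Set (EuclideanSpace ℝ (Fin n)), MeasurableSet V →
      ∫⁻ z in V, volume (Set.Icc (-1 : ℝ) 1 ∩ {t : ℝ | (z, t) ∈ Z}) =
        ∫⁻ t in Set.Icc (-1 : ℝ) 1, volume (V ∩ {z | (z, t) ∈ Z}) := by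
    intro Z hZ V hV
    have hfm : Measurable (Function.uncurry fun (z : EuclideanSpace ℝ (Fin n)) (t : ℝ) =>
        Z.indicator (fun _ => (1 : ENNReal)) (z, t)) := by
      have : (Function.uncurry fun (z : EuclideanSpace ℝ (Fin n)) (t : ℝ) =>
          Z.indicator (fun _ => (1 : ENNReal)) (z, t)) = Z.indicator (fun _ => (1 : ENNReal)) := by
        funext p
        rfl
      rw [this]
      exact measurable_const.indicator hZ
    have h3 : ∀ z, ∫⁻ t in Set.Icc (-1 : ℝ) 1, Z.indicator (fun _ => (1 : ENNReal)) (z, t) =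
        volume (Set.Icc (-1 : ℝ) 1 ∩ {t : ℝ | (z, t) ∈ Z}) := by
      intro z
      have hm : MeasurableSet {t : ℝ | (z, t) ∈ Z} := measurable_prodMk_left hZ
      have h4 : (fun t => Z.indicator (fun _ => (1 : ENNReal)) (z, t)) =
          {t : ℝ | (z, t) ∈ Z}.indicator (fun _ => (1 : ENNReal)) := by
        funext t
        by_cases h : (z, t) ∈ Z
        · rw [Set.indicator_of_mem h, Set.indicator_of_mem]
          exact h
        · rw [Set.indicator_of_notMem h, Set.indicator_of_notMem]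
          exact h
      rw [h4, lintegral_indicator hm, setLIntegral_const, one_mul, Measure.restrict_apply hm,
        Set.inter_comm]
    have h5 : ∀ t, ∫⁻ z in V, Z.indicator (fun _ => (1 : ENNReal)) (z, t) =
        volume (V ∩ {z | (z, t) ∈ Z}) := by
      intro t
      have hm : MeasurableSet {z : EuclideanSpace ℝ (Fin n) | (z, t) ∈ Z} :=
        measurable_prodMk_right hZ
      have h4 : (fun z => Z.indicator (fun _ => (1 : ENNReal)) (z, t)) =
          {z | (z, t) ∈ Z}.indicator (fun _ => (1 : ENNReal)) := by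
        funext z
        by_cases h : (z, t) ∈ Z
        · rw [Set.indicator_of_mem h, Set.indicator_of_mem]
          exact h
        · rw [Set.indicator_of_notMem h, Set.indicator_of_notMem]
          exact h
      rw [h4, lintegral_indicator hm, setLIntegral_const, one_mul, Measure.restrict_apply hm,
        Set.inter_comm]
    calc ∫⁻ z in V, volume (Set.Icc (-1 : ℝ) 1 ∩ {t : ℝ | (z, t) ∈ Z})
        = ∫⁻ z in V, ∫⁻ t in Set.Icc (-1 : ℝ) 1, Z.indicator (fun _ => (1 : ENNReal)) (z, t) := by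
          simp_rw [h3]
      _ = ∫⁻ t in Set.Icc (-1 : ℝ) 1, ∫⁻ z in V, Z.indicator (fun _ => (1 : ENNReal)) (z, t) :=
          lintegral_lintegral_swap hfm.aemeasurable
      _ = _ := by simp_rw [h5]
  have hlow : volume (T ∩ K) ≤
      ∫⁻ z in T ∩ K, volume (Set.Icc (-1 : ℝ) 1 ∩ {t : ℝ | (z, t) ∈ S}) := by
    calc volume (T ∩ K) = ∫⁻ _z in T ∩ K, 1 := by rw [setLIntegral_const, one_mul]
      _ ≤ _ := by
          apply setLIntegral_mono' (hT.inter hK)
          intro z hz
          obtain ⟨h, hh⟩ := h1 z hz.1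
          have h3 : Set.Icc h (h + 1) ⊆ Set.Icc (-1 : ℝ) 1 ∩ {t : ℝ | (z, t) ∈ S} :=
            fun t ht => hh ht
          refine le_trans ?_ (measure_mono h3)
          rw [Real.volume_Icc]
          norm_num
  have hup : ∫⁻ y in T, volume (Set.Icc (-1 : ℝ) 1 ∩ {t : ℝ | (y, t) ∈ S'}) ≤
      ENNReal.ofReal lam * volume T := by
    rw [← setLIntegral_const]
    exact setLIntegral_mono' hT (fun y hy => (hcon y hy).le)
  have hmid : ∫⁻ t in Set.Icc (-1 : ℝ) 1, volume (T ∩ K ∩ {z | (z, t) ∈ S}) ≤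
      ∫⁻ t in Set.Icc (-1 : ℝ) 1, volume (T ∩ {y | (y, t) ∈ S'}) := by
    apply lintegral_mono
    intro t
    have h3 : T ∩ K ∩ {z | (z, t) ∈ S} ⊆ (fun z => z + -(t • e)) ⁻¹' (T ∩ {y | (y, t) ∈ S'}) := by
      rintro z ⟨⟨hz1, hz2⟩, hz3⟩
      refine ⟨hz3, ?_⟩
      show z + -(t • e) + t • e ∈ K
      rw [neg_add_cancel_right]
      exact hz2
    refine (measure_mono h3).trans (le_of_eq ?_)
    exact measure_preimage_add_right volume (-(t • e)) _
  rw [← hswap S hSm _ (hT.inter hK), ← hswap S' hSm' _ hT] at hmid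
  exact absurd hd (not_lt.2 (hlow.trans (hmid.trans hup)))

/-- the neighbourhoods of a compact set which is null on all lines of direction `e` -/
theorem times_small {K : Set (EuclideanSpace ℝ (Fin n))} (hK : IsCompact K)
    {e : EuclideanSpace ℝ (Fin n)} (h0 : ∀ a, volume {t : ℝ | a + t • e ∈ K} = 0) {lam : ℝ}
    (hl : 0 < lam) (R : ℝ) :
    ∃ δ₀ : ℝ, 0 < δ₀ ∧ ∀ δ, δ ≤ δ₀ → ∀ y : EuclideanSpace ℝ (Fin n), ‖y‖ ≤ R →
      volume (Set.Icc (-1 : ℝ) 1 ∩ {t : ℝ | y + t • e ∈ Metric.cthickening δ K}) <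
        ENNReal.ofReal lam := by
  by_contra hcon
  push Not at hcon
  have hcon' : ∀ j : ℕ, ∃ δ, δ ≤ 1 / ((j : ℝ) + 1) ∧ ∃ y : EuclideanSpace ℝ (Fin n), ‖y‖ ≤ R ∧
      ENNReal.ofReal lam ≤
        volume (Set.Icc (-1 : ℝ) 1 ∩ {t : ℝ | y + t • e ∈ Metric.cthickening δ K}) := by
    intro j
    obtain ⟨δ, hδ, y, hy, h⟩ := hcon (1 / ((j : ℝ) + 1)) (by positivity)
    exact ⟨δ, hδ, y, hy, h⟩
  choose δ hδ y hy hvol using hcon'
  obtain ⟨y₀, _, φ, hφ, hφy⟩ := tendsto_subseq_of_bounded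
    (s := Metric.closedBall (0 : EuclideanSpace ℝ (Fin n)) R) Metric.isBounded_closedBall (x := y)
    (fun k => by rw [Metric.mem_closedBall, dist_zero_right]; exact hy k)
  set U : ℕ → Set ℝ := fun N => Set.Icc (-1 : ℝ) 1 ∩
    {t : ℝ | y₀ + t • e ∈ Metric.cthickening (1 / ((N : ℝ) + 1)) K} with hU
  have hcont : Continuous (fun t : ℝ => y₀ + t • e) := by fun_prop
  have hUm : ∀ N, MeasurableSet (U N) := fun N =>
    (isClosed_Icc.inter (Metric.isClosed_cthickening.preimage hcont)).measurableSet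
  have hUa : Antitone U := by
    intro N M hNM
    apply Set.inter_subset_inter_right
    intro t ht
    have h2 : 1 / ((M : ℝ) + 1) ≤ 1 / ((N : ℝ) + 1) := by
      apply one_div_le_one_div_of_le (by positivity)
      have : (N : ℝ) ≤ M := by exact_mod_cast hNM
      linarith
    exact Metric.cthickening_mono h2 K ht
  have hlim := tendsto_measure_iInter_atTop (μ := volume) (fun N => (hUm N).nullMeasurableSet) hUa
    ⟨0, (lt_of_le_of_lt (measure_mono (Set.inter_subset_left)) (by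
      rw [Real.volume_Icc]; exact ENNReal.ofReal_lt_top)).ne⟩
  have hinter : volume (⋂ N, U N) = 0 := by
    apply measure_mono_null _ (h0 y₀)
    intro t ht
    rw [Set.mem_iInter] at ht
    have h3 : ∀ N : ℕ, Metric.infEDist (y₀ + t • e) K ≤ ENNReal.ofReal (1 / ((N : ℝ) + 1)) :=
      fun N => Metric.mem_cthickening_iff.1 (ht N).2
    have h4 : Tendsto (fun N : ℕ => ENNReal.ofReal (1 / ((N : ℝ) + 1))) atTop (𝓝 0) := by
      rw [← ENNReal.ofReal_zero]
      exact (ENNReal.continuous_ofReal.tendsto 0).comp tendsto_one_div_add_atTop_nhds_zero_nat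
    have h5 : Metric.infEDist (y₀ + t • e) K = 0 := le_antisymm (ge_of_tendsto' h4 h3) zero_le
    show y₀ + t • e ∈ K
    rw [← hK.isClosed.closure_eq, Metric.mem_closure_iff_infEDist_zero]
    exact h5
  rw [hinter] at hlim
  have hev : ∀ᶠ N in atTop, volume (U N) < ENNReal.ofReal lam :=
    hlim.eventually (gt_mem_nhds (ENNReal.ofReal_pos.2 hl))
  obtain ⟨N, hN⟩ := hev.exists
  -- a late member of the sequence
  have hδφ : Tendsto (fun j => 1 / (((φ j : ℕ) : ℝ) + 1) + dist (y (φ j)) y₀) atTop (𝓝 0) := by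
    have h3 : Tendsto (fun j => 1 / (((φ j : ℕ) : ℝ) + 1)) atTop (𝓝 0) :=
      tendsto_one_div_add_atTop_nhds_zero_nat.comp hφ.tendsto_atTop
    have h4 : Tendsto (fun j => dist (y (φ j)) y₀) atTop (𝓝 0) :=
      tendsto_iff_dist_tendsto_zero.1 hφy
    simpa using h3.add h4
  obtain ⟨j, hj⟩ := (hδφ.eventually (gt_mem_nhds (show (0 : ℝ) < 1 / ((N : ℝ) + 1) by
    positivity))).exists
  have hsub : Set.Icc (-1 : ℝ) 1 ∩ {t : ℝ | y (φ j) + t • e ∈ Metric.cthickening (δ (φ j)) K} ⊆
      U N := by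
    apply Set.inter_subset_inter_right
    intro t ht
    have h3 : Metric.infEDist (y (φ j) + t • e) K ≤ ENNReal.ofReal (δ (φ j)) :=
      Metric.mem_cthickening_iff.1 ht
    show y₀ + t • e ∈ Metric.cthickening (1 / ((N : ℝ) + 1)) K
    rw [Metric.mem_cthickening_iff]
    have h4 : edist (y₀ + t • e) (y (φ j) + t • e) = ENNReal.ofReal (dist (y (φ j)) y₀) := by
      rw [edist_add_right, edist_comm, edist_dist]
    calc Metric.infEDist (y₀ + t • e) K
        ≤ Metric.infEDist (y (φ j) + t • e) K + edist (y₀ + t • e) (y (φ j) + t • e) :=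
          Metric.infEDist_le_infEDist_add_edist
      _ ≤ ENNReal.ofReal (1 / (((φ j : ℕ) : ℝ) + 1)) + ENNReal.ofReal (dist (y (φ j)) y₀) := by
          rw [h4]
          gcongr
          exact h3.trans (ENNReal.ofReal_le_ofReal (hδ (φ j)))
      _ = ENNReal.ofReal (1 / (((φ j : ℕ) : ℝ) + 1) + dist (y (φ j)) y₀) :=
          (ENNReal.ofReal_add (by positivity) dist_nonneg).symm
      _ ≤ ENNReal.ofReal (1 / ((N : ℝ) + 1)) := ENNReal.ofReal_le_ofReal hj.le
  exact absurd (hvol (φ j)) (not_le.2 (lt_of_le_of_lt (measure_mono hsub) hN))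

end Pool.Agent.Helper634ord.Tub
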