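import Mathlib
import Pool.Agent.Helper634ord.Tub11

/-!
# Shadings of tubes (helper634)
-/

set_option autoImplicit false

namespace Pool.Agent.Helper634ord.Tub

open MeasureTheory Set Kak

variable {n : ℕ}

/-- **Tonelli**: segments with a given vector -/
theorem seg_general {T T' Y : Set (EuclideanSpace ℝ (Fin n))} (hT' : MeasurableSet T')
    (hY : MeasurableSet Y) {w : EuclideanSpace ℝ (Fin n)}
    (h1 : ∀ y ∈ T', ∀ t ∈ Set.Icc (0 : ℝ) 1, y + t • w ∈ T) {ε : ℝ}
    (hd : volume (T \ Y) < ENNReal.ofReal ε * volume T') :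
    ∃ y ∈ T', volume (Set.Icc (0 : ℝ) 1 \ {t : ℝ | y + t • w ∈ Y}) ≤ ENNReal.ofReal ε := by
  by_contra hcon
  push Not at hcon
  set S : Set (EuclideanSpace ℝ (Fin n) × ℝ) := {p | p.1 + p.2 • w ∈ Yᶜ} with hS
  have hSm : MeasurableSet S := by
    have h3 : Measurable (fun p : EuclideanSpace ℝ (Fin n) × ℝ => p.1 + p.2 • w) := by
      fun_prop
    exact h3 hY.compl
  set f : EuclideanSpace ℝ (Fin n) → ℝ → ENNReal :=
    fun y t => S.indicator (fun _ => (1 : ENNReal)) (y, t) with hf
  have hfm : Measurable (Function.uncurry f) := by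
    have : Function.uncurry f = S.indicator (fun _ => (1 : ENNReal)) := by
      funext p
      rfl
    rw [this]
    exact measurable_const.indicator hSm
  have hswap : ∫⁻ y in T', ∫⁻ t in Set.Icc (0 : ℝ) 1, f y t =
      ∫⁻ t in Set.Icc (0 : ℝ) 1, ∫⁻ y in T', f y t :=
    lintegral_lintegral_swap hfm.aemeasurable
  have hlow : ENNReal.ofReal ε * volume T' ≤
      ∫⁻ y in T', ∫⁻ t in Set.Icc (0 : ℝ) 1, f y t := by
    rw [← setLIntegral_const]
    apply setLIntegral_mono' hT'
    intro y hy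
    have h3 : ∫⁻ t in Set.Icc (0 : ℝ) 1, f y t =
        volume (Set.Icc (0 : ℝ) 1 \ {t : ℝ | y + t • w ∈ Y}) := by
      have hm : MeasurableSet {t : ℝ | y + t • w ∈ Yᶜ} := by
        have h4 : Measurable (fun t : ℝ => y + t • w) := by fun_prop
        exact h4 hY.compl
      have h4 : (fun t => f y t) =
          {t : ℝ | y + t • w ∈ Yᶜ}.indicator (fun _ => (1 : ENNReal)) := by
        funext t
        simp only [hf]
        by_cases h : (y, t) ∈ S
        · rw [Set.indicator_of_mem h, Set.indicator_of_mem]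
          exact h
        · rw [Set.indicator_of_notMem h, Set.indicator_of_notMem]
          exact h
      rw [h4, lintegral_indicator hm, setLIntegral_const, one_mul, Measure.restrict_apply hm,
        Set.inter_comm]
      congr 1
    rw [h3]
    exact (hcon y hy).le
  have hup : ∫⁻ t in Set.Icc (0 : ℝ) 1, ∫⁻ y in T', f y t ≤ volume (T \ Y) := by
    have h3 : ∀ t ∈ Set.Icc (0 : ℝ) 1, ∫⁻ y in T', f y t ≤ volume (T \ Y) := by
      intro t ht
      have hm : MeasurableSet {y : EuclideanSpace ℝ (Fin n) | y + t • w ∈ Yᶜ} := by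
        have h4 : Measurable (fun y : EuclideanSpace ℝ (Fin n) => y + t • w) := by fun_prop
        exact h4 hY.compl
      have h4 : (fun y => f y t) = {y : EuclideanSpace ℝ (Fin n) |
          y + t • w ∈ Yᶜ}.indicator (fun _ => (1 : ENNReal)) := by
        funext y
        simp only [hf]
        by_cases h : (y, t) ∈ S
        · rw [Set.indicator_of_mem h, Set.indicator_of_mem]
          exact h
        · rw [Set.indicator_of_notMem h, Set.indicator_of_notMem]
          exact h
      rw [h4, lintegral_indicator hm, setLIntegral_const, one_mul, Measure.restrict_apply hm]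
      have h5 : {y : EuclideanSpace ℝ (Fin n) | y + t • w ∈ Yᶜ} ∩ T' ⊆
          (fun y => y + t • w) ⁻¹' (T \ Y) := by
        rintro y ⟨hy1, hy2⟩
        exact ⟨h1 y hy2 t ht, hy1⟩
      refine (measure_mono h5).trans (le_of_eq ?_)
      exact measure_preimage_add_right volume (t • w) (T \ Y)
    calc ∫⁻ t in Set.Icc (0 : ℝ) 1, ∫⁻ y in T', f y t
        ≤ ∫⁻ _t in Set.Icc (0 : ℝ) 1, volume (T \ Y) := setLIntegral_mono' measurableSet_Icc h3
      _ = volume (T \ Y) := by
          rw [setLIntegral_const, Real.volume_Icc]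
          norm_num
  exact absurd hd (not_lt.2 (hlow.trans (hswap.le.trans hup)))

/-- a set which nearly fills a tube nearly fills a segment with a given short vector nearly parallel to
the axis -/
theorem seg_half {δ : ℝ} (hδ1 : δ ≤ 1) {a e w : EuclideanSpace ℝ (Fin n)} (he : ‖e‖ = 1)
    (hw0 : 0 ≤ (inner ℝ w e : ℝ)) (hw1 : (inner ℝ w e : ℝ) ≤ 1 / 4)
    (hw2 : ‖w - (inner ℝ w e : ℝ) • e‖ ≤ δ / 2) {T Y : Set (EuclideanSpace ℝ (Fin n))}
    (hT : T = {y | |inner ℝ (y - a) e| ≤ 1 / 2 ∧ ‖(y - a) - (inner ℝ (y - a) e : ℝ) • e‖ ≤ δ})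
    (hY : MeasurableSet Y) {ε : ℝ} (hε : 0 ≤ ε)
    (hd : volume (T \ Y) < ENNReal.ofReal (ε * (1 / 2) ^ n) * volume T) :
    ∃ y, ‖y - a‖ ≤ 2 ∧ volume (Set.Icc (0 : ℝ) 1 \ {t : ℝ | y + t • w ∈ Y}) ≤ ENNReal.ofReal ε := by
  set T' : Set (EuclideanSpace ℝ (Fin n)) :=
    {y | |inner ℝ (y - a) e| ≤ 1 / 4 ∧ ‖(y - a) - (inner ℝ (y - a) e : ℝ) • e‖ ≤ δ / 2} with hT'
  have hT'm : MeasurableSet T' := by
    have hcont : Continuous (fun y : EuclideanSpace ℝ (Fin n) => (inner ℝ (y - a) e : ℝ)) := by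
      fun_prop
    have hcont2 : Continuous (fun y : EuclideanSpace ℝ (Fin n) =>
        ‖(y - a) - (inner ℝ (y - a) e : ℝ) • e‖) := by fun_prop
    apply IsClosed.measurableSet
    exact (isClosed_le hcont.abs continuous_const).inter (isClosed_le hcont2 continuous_const)
  have hvol : ENNReal.ofReal ((1 / 2) ^ n) * volume T ≤ volume T' := by
    have h2 := Measure.addHaar_image_homothety (volume : Measure (EuclideanSpace ℝ (Fin n))) a
      (1 / 2) T
    rw [finrank_euclideanSpace, Fintype.card_fin, abs_of_pos (by positivity)] at h2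
    rw [← h2]
    apply measure_mono
    rintro _ ⟨y, hy, rfl⟩
    rw [hT] at hy
    have h3 : (AffineMap.homothety a (1 / 2 : ℝ)) y - a = (1 / 2 : ℝ) • (y - a) := by
      rw [AffineMap.homothety_apply]
      simp only [vsub_eq_sub, vadd_eq_add]
      abel
    show |inner ℝ ((AffineMap.homothety a (1 / 2 : ℝ)) y - a) e| ≤ 1 / 4 ∧
      ‖((AffineMap.homothety a (1 / 2 : ℝ)) y - a) -
        (inner ℝ ((AffineMap.homothety a (1 / 2 : ℝ)) y - a) e : ℝ) • e‖ ≤ δ / 2
    rw [h3, real_inner_smul_left]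
    constructor
    · rw [abs_mul, abs_of_pos (by norm_num : (0 : ℝ) < 1 / 2)]
      linarith [hy.1]
    · rw [← smul_smul, ← smul_sub, norm_smul, Real.norm_of_nonneg (by norm_num)]
      linarith [hy.2]
  obtain ⟨y, hy, hyv⟩ := seg_general (T := T) (T' := T') (Y := Y) hT'm hY (w := w) (by
    intro y hy t ht
    rw [hT]
    have h1 : y + t • w - a = (y - a) + t • w := by abel
    have h2 : (inner ℝ (y + t • w - a) e : ℝ) = inner ℝ (y - a) e + t * inner ℝ w e := by
      rw [h1, inner_add_left, real_inner_smul_left]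
    have h3 : (y + t • w - a) - (inner ℝ (y + t • w - a) e : ℝ) • e =
        ((y - a) - (inner ℝ (y - a) e : ℝ) • e) + t • (w - (inner ℝ w e : ℝ) • e) := by
      rw [h2, h1, add_smul, smul_sub, smul_smul]
      abel
    have h4 := abs_le.1 hy.1
    have h5 : t * inner ℝ w e ≤ 1 * (1 / 4) := mul_le_mul ht.2 hw1 hw0 zero_le_one
    have h6 : 0 ≤ t * inner ℝ w e := mul_nonneg ht.1 hw0
    show |inner ℝ (y + t • w - a) e| ≤ 1 / 2 ∧
      ‖(y + t • w - a) - (inner ℝ (y + t • w - a) e : ℝ) • e‖ ≤ δ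
    rw [h3, h2]
    constructor
    · rw [abs_le]
      constructor <;> linarith [h4.1, h4.2]
    · refine (norm_add_le _ _).trans ?_
      rw [norm_smul, Real.norm_of_nonneg ht.1]
      have h7 : t * ‖w - (inner ℝ w e : ℝ) • e‖ ≤ 1 * (δ / 2) :=
        mul_le_mul ht.2 hw2 (norm_nonneg _) zero_le_one
      linarith [hy.2]) (ε := ε) (by
    refine hd.trans_le ?_
    rw [ENNReal.ofReal_mul hε, mul_assoc]
    gcongr)
  refine ⟨y, ?_, hyv⟩
  have h1 : y - a = (inner ℝ (y - a) e : ℝ) • e + ((y - a) - (inner ℝ (y - a) e : ℝ) • e) := by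
    abel
  rw [h1]
  refine (norm_add_le _ _).trans ?_
  rw [norm_smul, he, mul_one, Real.norm_eq_abs]
  linarith [hy.1, hy.2]

end Pool.Agent.Helper634ord.Tub
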